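import Mathlib

set_option autoImplicit false

namespace Pool.Agent.Helper332.Selection

open Cardinal

/-- A family of vectors indexed by a well-ordered set, none of which lies in the span of the
previous ones, is linearly independent. -/
theorem linearIndependent_of_lt {K V κ : Type*} [DivisionRing K] [AddCommGroup V] [Module K V]
    [LinearOrder κ] (v : κ → V) (h : ∀ k, v k ∉ Submodule.span K (v '' Set.Iio k)) :
    LinearIndependent K v := by
  classical
  rw [linearIndependent_iff]
  intro l hl
  by_contra hne
  have hs : l.support.Nonempty := Finsupp.support_nonempty_iff.mpr hne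
  let k := l.support.max' hs
  have hk : k ∈ l.support := l.support.max'_mem hs
  apply h k
  have hlk : l k ≠ 0 := Finsupp.mem_support_iff.mp hk
  rw [Finsupp.linearCombination_apply, Finsupp.sum, ← Finset.add_sum_erase _ _ hk] at hl
  have h1 : l k • v k = - ∑ x ∈ l.support.erase k, l x • v x := eq_neg_of_add_eq_zero_left hl
  have h2 : v k = (l k)⁻¹ • (- ∑ x ∈ l.support.erase k, l x • v x) := by
    rw [← h1, smul_smul, inv_mul_cancel₀ hlk, one_smul]
  rw [h2]
  refine Submodule.smul_mem _ _ (Submodule.neg_mem _ (Submodule.sum_mem _ fun x hx => ?_))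
  refine Submodule.smul_mem _ _ (Submodule.subset_span ⟨x, ?_, rfl⟩)
  rw [Finset.mem_erase] at hx
  exact lt_of_le_of_ne (l.support.le_max' x hx.2) hx.1

/-- Transfinite selection of a family which is linearly independent modulo a small subspace `L`
from a family of large affine subspaces. -/
theorem exists_selection {K V κ : Type} [DivisionRing K] [AddCommGroup V] [Module K V]
    (c : Cardinal) (hc : ℵ₀ ≤ c) (hκ : #κ ≤ c) (L : Submodule K V) (hL : Module.rank K L < c)
    (d : κ → V) (N : κ → Submodule K V) (hN : ∀ k, c ≤ Module.rank K (N k)) :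
    ∃ v : κ → V, (∀ k, v k - d k ∈ N k) ∧ LinearIndependent K (fun k => L.mkQ (v k)) := by
  classical
  obtain ⟨r, hwo, hr⟩ := Cardinal.exists_ord_eq κ
  let _ : LinearOrder κ := linearOrderOfSTO r
  have hwf : WellFounded r := hwo.wf
  have key : ∀ (k : κ) (f : ∀ j, r j k → V), ∃ x, x - d k ∈ N k ∧
      x ∉ L ⊔ Submodule.span K (Set.range fun j : {j // r j k} => f j.1 j.2) := by
    intro k f
    by_contra hcon
    push Not at hcon
    set U := L ⊔ Submodule.span K (Set.range fun j : {j // r j k} => f j.1 j.2) with hU
    have hdU : d k ∈ U := hcon (d k) (by simp)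
    have hNU : N k ≤ U := by
      intro n hn
      have h1 : n + d k ∈ U := hcon (n + d k) (by simpa using hn)
      simpa using U.sub_mem h1 hdU
    have h2 : Module.rank K (N k) ≤ Module.rank K U := Submodule.rank_mono hNU
    have h3 : Module.rank K U ≤ Module.rank K L + #{j // r j k} :=
      (Submodule.rank_add_le_rank_add_rank _ _).trans
        (add_le_add le_rfl ((rank_span_le _).trans Cardinal.mk_range_le))
    have h4 : #{j // r j k} < #κ := by
      have := Cardinal.card_typein_lt (r := r) k hr
      rwa [Ordinal.card_typein] at this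
    have h5 : Module.rank K L + #{j // r j k} < c :=
      Cardinal.add_lt_of_lt hc hL (h4.trans_le hκ)
    exact absurd ((hN k).trans (h2.trans h3)) (not_le.mpr h5)
  choose g hg1 hg2 using key
  let v : κ → V := hwf.fix g
  have hv : ∀ k, v k = g k (fun j _ => v j) := fun k => hwf.fix_eq g k
  refine ⟨v, fun k => by rw [hv k]; exact hg1 _ _, ?_⟩
  refine linearIndependent_of_lt (fun k => L.mkQ (v k)) fun k hk => ?_
  have h5 := hg2 k (fun j _ => v j)
  rw [← hv k] at h5
  apply h5
  have h6 : (fun k => L.mkQ (v k)) '' Set.Iio k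
      = L.mkQ '' (Set.range fun j : {j // r j k} => v j.1) := by
    ext x
    constructor
    · rintro ⟨j, hj, rfl⟩
      exact ⟨_, ⟨⟨j, hj⟩, rfl⟩, rfl⟩
    · rintro ⟨_, ⟨⟨j, hj⟩, rfl⟩, rfl⟩
      exact ⟨j, hj, rfl⟩
  rw [h6, ← Submodule.map_span] at hk
  rw [← Submodule.comap_map_mkQ]
  exact hk

end Pool.Agent.Helper332.Selection
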