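import Mathlib

set_option autoImplicit false

namespace Pool.Agent.Helper332.Separate

/-- A module with a basis indexed by a set of size at most the continuum has a countable family
of linear functionals separating its points. -/
theorem exists_functionals {R V ι : Type*} [CommRing R] [AddCommGroup V] [Module R V]
    (b : Module.Basis ι R V) (e : ι ↪ ℝ) :
    ∃ S : Set (V →ₗ[R] R), S.Countable ∧ ∀ v, v ≠ 0 → ∃ ψ ∈ S, ψ v ≠ 0 := by
  classical
  let F : Set ℝ → (V →ₗ[R] R) := fun U =>
    (Finsupp.linearCombination R (fun i => if e i ∈ U then (1 : R) else 0)).comp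
      (b.repr : V →ₗ[R] ι →₀ R)
  refine ⟨F '' (TopologicalSpace.countableBasis ℝ),
    (TopologicalSpace.countable_countableBasis ℝ).image _, ?_⟩
  intro v hv
  have hr : b.repr v ≠ 0 := by simpa using hv
  obtain ⟨i, hi⟩ := Finsupp.support_nonempty_iff.mpr hr
  have hfin : IsClosed (e '' (((b.repr v).support.erase i : Finset ι) : Set ι)) :=
    (((b.repr v).support.erase i).finite_toSet.image e).isClosed
  have hmem : e i ∈ (e '' (((b.repr v).support.erase i : Finset ι) : Set ι))ᶜ := by
    rintro ⟨j, hj, hji⟩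
    have := e.injective hji
    subst this
    simp at hj
  obtain ⟨U, hU, hiU, hUsub⟩ :=
    (TopologicalSpace.isBasis_countableBasis ℝ).exists_subset_of_mem_open hmem hfin.isOpen_compl
  refine ⟨F U, ⟨U, hU, rfl⟩, ?_⟩
  have hval : F U v = b.repr v i := by
    change (Finsupp.linearCombination R (fun i => if e i ∈ U then (1 : R) else 0)) (b.repr v) = _
    rw [Finsupp.linearCombination_apply, Finsupp.sum, Finset.sum_eq_single i]
    · simp [hiU]
    · intro j hj hji
      have : e j ∉ U := by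
        intro hjU
        apply hUsub hjU
        exact ⟨j, by simp [hji, Finsupp.mem_support_iff.mp hj], rfl⟩
      simp [this]
    · intro h
      exact absurd hi h
  rw [hval]
  exact Finsupp.mem_support_iff.mp hi

theorem exists_chars_of_basis {R V ι X : Type*} [CommRing R] [Countable R] [AddCommGroup V]
    [Module R V] [AddCommGroup X] (b : Module.Basis ι R V) (e : ι ↪ ℝ) (j : V →+ X)
    (hj : Function.Injective j) :
    ∃ S : Set (X →+ AddCircle (1 : ℚ)), S.Countable ∧
      ∀ v : V, v ≠ 0 → ∃ θ ∈ S, θ (j v) ≠ 0 := by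
  obtain ⟨S₀, hS₀, hsep⟩ := exists_functionals b e
  have hc : ∀ z : R, ∃ c : R →+ AddCircle (1 : ℚ), z ≠ 0 → c z ≠ 0 := by
    intro z
    by_cases hz : z = 0
    · exact ⟨0, fun h => absurd hz h⟩
    · obtain ⟨c, hc⟩ := CharacterModule.exists_character_apply_ne_zero_of_ne_zero hz
      exact ⟨c, fun _ => hc⟩
  choose c hc using hc
  have hE : ∀ p : (V →ₗ[R] R) × R, ∃ θ : X →+ AddCircle (1 : ℚ), ∀ v, θ (j v) = c p.2 (p.1 v) := by
    intro p
    obtain ⟨θ, hθ⟩ := (Module.Baer.of_divisible (AddCircle (1 : ℚ))).extension_property_addMonoidHom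
      j hj ((c p.2).comp (p.1 : V →ₗ[R] R).toAddMonoidHom)
    exact ⟨θ, fun v => DFunLike.congr_fun hθ v⟩
  choose E hE using hE
  refine ⟨E '' (S₀ ×ˢ Set.univ), (hS₀.prod Set.countable_univ).image _, ?_⟩
  intro v hv
  obtain ⟨ψ, hψ, hψv⟩ := hsep v hv
  refine ⟨E (ψ, ψ v), ⟨(ψ, ψ v), ⟨hψ, trivial⟩, rfl⟩, ?_⟩
  rw [hE]
  exact hc _ hψv

/-- An abelian group of size at most the continuum has a countable family of homomorphisms into
`ℚ/ℤ` separating its points. -/
theorem exists_chars (X : Type*) [AddCommGroup X] (e : X ↪ ℝ) :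
    ∃ S : Set (X →+ AddCircle (1 : ℚ)), S.Countable ∧ ∀ x, x ≠ 0 → ∃ θ ∈ S, θ x ≠ 0 := by
  classical
  -- elements of prime order
  have hp : ∀ p : ℕ, p.Prime → ∃ S : Set (X →+ AddCircle (1 : ℚ)), S.Countable ∧
      ∀ x, x ≠ 0 → p • x = 0 → ∃ θ ∈ S, θ x ≠ 0 := by
    intro p hp
    have : Fact p.Prime := ⟨hp⟩
    let V : AddSubgroup X :=
      { carrier := {x | p • x = 0}
        zero_mem' := by simp
        add_mem' := by
          intro a b ha hb
          simp only [Set.mem_ofPred_eq] at ha hb ⊢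
          rw [smul_add, ha, hb, add_zero]
        neg_mem' := by
          intro a ha
          simp only [Set.mem_ofPred_eq] at ha ⊢
          rw [smul_neg, ha, neg_zero] }
    have hV : ∀ x : V, p • x = 0 := fun x => Subtype.ext x.2
    let _ : Module (ZMod p) V := AddCommGroup.zmodModule hV
    let b := Module.Basis.ofVectorSpace (ZMod p) V
    obtain ⟨S, hS, hsep⟩ := exists_chars_of_basis (X := X) b
      ⟨fun i => e ((i : V) : X), fun i j hij => Subtype.ext (Subtype.ext (e.injective hij))⟩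
      V.subtype Subtype.val_injective
    refine ⟨S, hS, fun x hx hpx => ?_⟩
    exact hsep ⟨x, hpx⟩ (fun h => hx (congrArg Subtype.val h))
  -- elements of infinite order
  obtain ⟨s, hs, hmax⟩ := exists_maximal_linearIndepOn ℤ (id : X → X)
  have hs' : LinearIndependent ℤ (fun i : s => (i : X)) := hs
  obtain ⟨Sf, hSf, hsepf⟩ := exists_chars_of_basis (X := X) (Module.Basis.span hs')
    ⟨fun i => e (i : X), fun i j hij => Subtype.ext (e.injective hij)⟩
    (Submodule.span ℤ (Set.range fun i : s => (i : X))).subtype.toAddMonoidHom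
    Subtype.val_injective
  choose S hS hsep using hp
  refine ⟨Sf ∪ ⋃ p : {p : ℕ // p.Prime}, S p.1 p.2,
    hSf.union (Set.countable_iUnion fun p => hS p.1 p.2), ?_⟩
  intro x hx
  by_cases hfin : IsOfFinAddOrder x
  · have hne : addOrderOf x ≠ 1 := by
      rw [Ne, AddMonoid.addOrderOf_eq_one_iff]; exact hx
    obtain ⟨p, hpp, hpd⟩ := Nat.exists_prime_and_dvd hne
    obtain ⟨k, hk⟩ := hpd
    have hpos : 0 < addOrderOf x := hfin.addOrderOf_pos
    have hk0 : k ≠ 0 := by
      rintro rfl
      simp [hk] at hpos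
    have hy0 : k • x ≠ 0 := by
      intro h
      have := addOrderOf_dvd_of_nsmul_eq_zero h
      have h1 := Nat.le_of_dvd (Nat.pos_of_ne_zero hk0) this
      rw [hk] at h1
      have h2 := hpp.two_le
      nlinarith [Nat.pos_of_ne_zero hk0]
    have hpy : p • (k • x) = 0 := by
      rw [← mul_smul, ← hk]
      exact addOrderOf_nsmul_eq_zero x
    obtain ⟨θ, hθ, hne⟩ := hsep p hpp (k • x) hy0 hpy
    refine ⟨θ, Or.inr (Set.mem_iUnion.2 ⟨⟨p, hpp⟩, hθ⟩), ?_⟩
    intro h
    apply hne
    rw [map_nsmul, h, smul_zero]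
  · have hspan : ∃ a : ℤ, a ≠ 0 ∧ a • x ∈ Submodule.span ℤ (Set.range fun i : s => (i : X)) := by
      by_cases hxs : x ∈ s
      · exact ⟨1, one_ne_zero, by
          rw [one_smul]
          exact Submodule.subset_span ⟨⟨x, hxs⟩, rfl⟩⟩
      · obtain ⟨a, ha, hax⟩ := hmax x hxs
        refine ⟨a, ha, ?_⟩
        simpa using hax
    obtain ⟨a, ha, hax⟩ := hspan
    have hax0 : a • x ≠ 0 := by
      intro h
      apply hfin
      rw [isOfFinAddOrder_iff_zsmul_eq_zero]
      exact ⟨a, ha, h⟩
    obtain ⟨θ, hθ, hne⟩ := hsepf ⟨a • x, hax⟩ (fun h => hax0 (congrArg Subtype.val h))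
    refine ⟨θ, Or.inl hθ, ?_⟩
    intro h
    apply hne
    change θ (a • x) = 0
    rw [map_zsmul, h, smul_zero]

end Pool.Agent.Helper332.Separate
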