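import Mathlib
import Pool.Agent.Helper332.Separate
import Pool.Agent.Helper332.Selection

set_option autoImplicit false

namespace Pool.Agent.Helper332.Boolean

open Cardinal TopologicalSpace

/-- Finite sums of coordinates vanishing on a subspace. -/
def ann {I : Type} (M : Submodule (ZMod 2) (I → ZMod 2)) : Submodule (ZMod 2) (I →₀ ZMod 2) where
  carrier := {n | ∀ m ∈ M, Finsupp.linearCombination (ZMod 2) m n = 0}
  zero_mem' := by simp
  add_mem' := by
    intro a b ha hb m hm
    rw [map_add, ha m hm, hb m hm, add_zero]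
  smul_mem' := by
    intro c a ha m hm
    rw [map_smul, ha m hm, smul_zero]

theorem duality {I : Type} (M : Submodule (ZMod 2) (I → ZMod 2))
    (hM : IsClosed (M : Set (I → ZMod 2))) (x : I → ZMod 2)
    (hx : ∀ n ∈ ann M, Finsupp.linearCombination (ZMod 2) x n = 0) : x ∈ M := by
  classical
  by_contra hxM
  obtain ⟨F, u, hu, hsub⟩ := isOpen_pi_iff.mp hM.isOpen_compl x hxM
  let π : (I → ZMod 2) →ₗ[ZMod 2] (F → ZMod 2) := LinearMap.funLeft (ZMod 2) (ZMod 2) Subtype.val
  have hnot : π x ∉ M.map π := by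
    rintro ⟨m, hm, hmx⟩
    refine hsub ?_ hm
    intro i hi
    have : m i = x i := congrFun hmx ⟨i, hi⟩
    rw [this]
    exact (hu i hi).2
  obtain ⟨f, hfx, hfM⟩ := Submodule.exists_le_ker_of_notMem hnot
  let n : I →₀ ZMod 2 := ∑ i : F, Finsupp.single (i : I) (f (Pi.single i 1))
  have hval : ∀ m : I → ZMod 2, Finsupp.linearCombination (ZMod 2) m n = f (π m) := by
    intro m
    have h1 : π m = ∑ i : F, m i • (Pi.single i (1 : ZMod 2) : F → ZMod 2) := by
      ext j
      simp [π, LinearMap.funLeft_apply, Finset.sum_apply, Pi.single_apply]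
    rw [h1, map_sum]
    simp only [map_sum, Finsupp.linearCombination_single, map_smul, smul_eq_mul]
    exact Finset.sum_congr rfl fun i _ => mul_comm _ _
  apply hfx
  rw [← hval]
  apply hx
  intro m hm
  rw [hval]
  exact hfM ⟨m, hm, rfl⟩

/-- Evaluation of a functional on the quotient at the coordinates. -/
noncomputable def ev {I : Type} (M : Submodule (ZMod 2) (I → ZMod 2)) :
    (((I →₀ ZMod 2) ⧸ ann M) →ₗ[ZMod 2] ZMod 2) →ₗ[ZMod 2] (I → ZMod 2) where
  toFun θ i := θ (Submodule.Quotient.mk (Finsupp.single i 1))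
  map_add' _ _ := rfl
  map_smul' _ _ := rfl

theorem ev_comb {I : Type} (M : Submodule (ZMod 2) (I → ZMod 2))
    (θ : ((I →₀ ZMod 2) ⧸ ann M) →ₗ[ZMod 2] ZMod 2) (n : I →₀ ZMod 2) :
    Finsupp.linearCombination (ZMod 2) (ev M θ) n = θ (Submodule.Quotient.mk n) := by
  induction n using Finsupp.induction_linear with
  | zero => simp
  | add f g hf hg => rw [map_add, hf, hg, Submodule.Quotient.mk_add, map_add]
  | single a k =>
    rw [Finsupp.linearCombination_single]
    have : (Finsupp.single a k : I →₀ ZMod 2) = k • Finsupp.single a 1 := by simp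
    rw [this, Submodule.Quotient.mk_smul, map_smul]
    rfl

theorem ev_mem {I : Type} (M : Submodule (ZMod 2) (I → ZMod 2))
    (hM : IsClosed (M : Set (I → ZMod 2)))
    (θ : ((I →₀ ZMod 2) ⧸ ann M) →ₗ[ZMod 2] ZMod 2) : ev M θ ∈ M := by
  refine duality M hM _ fun n hn => ?_
  rw [ev_comb, (Submodule.Quotient.mk_eq_zero _).mpr hn, map_zero]

theorem ev_injective {I : Type} (M : Submodule (ZMod 2) (I → ZMod 2)) :
    Function.Injective (ev M) := by
  rw [← LinearMap.ker_eq_bot, LinearMap.ker_eq_bot']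
  intro θ hθ
  ext n
  have := ev_comb M θ (Finsupp.single n 1)
  rw [hθ] at this
  simp only [LinearMap.comp_apply]
  simpa using this.symm

theorem exists_dense {I : Type} [Infinite I] (hI : #I ≤ 𝔠) (M : Submodule (ZMod 2) (I → ZMod 2))
    (hM : IsClosed (M : Set (I → ZMod 2))) :
    ∃ δ : ℕ → (I → ZMod 2), (∀ k, δ k ∈ M) ∧ (M : Set (I → ZMod 2)) ⊆ closure (Set.range δ) := by
  classical
  let X := (I →₀ ZMod 2) ⧸ ann M
  let b := Module.Basis.ofVectorSpace (ZMod 2) X
  have hcard : #(Module.Basis.ofVectorSpaceIndex (ZMod 2) X) ≤ #ℝ := by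
    refine (mk_subtype_le _).trans ((mk_le_of_surjective (Submodule.Quotient.mk_surjective _)).trans ?_)
    rw [mk_finsupp_of_infinite, mk_real]
    exact max_le hI (by simpa using (nat_lt_continuum 2).le)
  obtain ⟨e⟩ := Cardinal.le_def _ _ |>.mp hcard
  obtain ⟨S, hS, hsep⟩ := Separate.exists_functionals b e
  have : Countable S := hS.to_subtype
  let G : Submodule (ZMod 2) (I → ZMod 2) :=
    Submodule.span (ZMod 2) (Set.range fun θ : S => ev M θ)
  have hGM : G ≤ M := by
    rw [Submodule.span_le]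
    rintro _ ⟨θ, rfl⟩
    exact ev_mem M hM θ
  have hGc : (G : Set (I → ZMod 2)).Countable := by
    have : Countable G := by infer_instance
    exact Set.countable_coe_iff.mp this
  obtain ⟨δ, hδ⟩ := hGc.exists_eq_range ⟨0, G.zero_mem⟩
  refine ⟨δ, fun k => hGM (by rw [← SetLike.mem_coe, hδ]; exact ⟨k, rfl⟩), ?_⟩
  rw [← hδ]
  intro x hx
  have hxc : x ∈ G.topologicalClosure := by
    refine duality _ (Submodule.isClosed_topologicalClosure _) x fun n hn => ?_
    have hn' : n ∈ ann M := by
      by_contra hnY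
      have hne : (Submodule.Quotient.mk n : X) ≠ 0 := by
        rw [Ne, Submodule.Quotient.mk_eq_zero]; exact hnY
      obtain ⟨θ, hθ, hθn⟩ := hsep _ hne
      apply hθn
      rw [← ev_comb]
      apply hn
      apply Submodule.le_topologicalClosure
      exact Submodule.subset_span ⟨⟨θ, hθ⟩, rfl⟩
    exact hn' x hx
  exact hxc

theorem exists_null {I : Type} [Infinite I] (M : Submodule (ZMod 2) (I → ZMod 2))
    (hM : IsClosed (M : Set (I → ZMod 2))) (hI : #I = ℵ₁)
    (hX : Uncountable ((I →₀ ZMod 2) ⧸ ann M)) :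
    ∃ N : ℕ → Submodule (ZMod 2) (I → ZMod 2), (∀ l, N l ≤ M) ∧
      (∀ l, #(I → ZMod 2) ≤ Module.rank (ZMod 2) (N l)) ∧
      ∀ i, ∃ l₀, ∀ l, l₀ ≤ l → ∀ x ∈ N l, x i = 0 := by
  classical
  let X := (I →₀ ZMod 2) ⧸ ann M
  let b := Module.Basis.ofVectorSpace (ZMod 2) X
  let β := Module.Basis.ofVectorSpaceIndex (ZMod 2) X
  have hβ : Uncountable β := by
    by_contra hc
    rw [not_uncountable_iff] at hc
    have : Countable X := by
      have : Countable (β →₀ ZMod 2) := inferInstance
      exact b.repr.toEquiv.injective.countable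
    exact (not_countable (α := X)) this
  have hββ : #β = #(β × ℕ) := by
    rw [mk_prod, lift_id, lift_id, mk_nat, mul_aleph0_eq (aleph0_le_mk β)]
  obtain ⟨e⟩ := Cardinal.eq.mp hββ
  let T : ℕ → ((β → ZMod 2) →ₗ[ZMod 2] (I → ZMod 2)) := fun l =>
    (ev M) ∘ₗ (b.constr (ZMod 2)).toLinearMap ∘ₗ
      (LinearMap.pi fun j : β => if (e j).2 = l then LinearMap.proj (e j).1 else 0)
  refine ⟨fun l => LinearMap.range (T l), ?_, ?_, ?_⟩
  · rintro l _ ⟨g, rfl⟩
    simp only [T, LinearMap.comp_apply]
    exact ev_mem M hM _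
  · intro l
    have hinj : Function.Injective (T l) := by
      refine (ev_injective M).comp ((b.constr (ZMod 2)).injective.comp ?_)
      intro g g' hgg
      ext j
      have h1 := congrFun hgg (e.symm (j, l))
      simpa using h1
    have h2 : #(I → ZMod 2) ≤ #(β → ZMod 2) := by
      have h3 : #I ≤ #β := by
        rw [hI, ← succ_aleph0, Order.succ_le_iff]
        exact aleph0_lt_mk
      rw [← power_def, ← power_def]
      exact power_le_power_left (by simp) h3
    calc #(I → ZMod 2) ≤ #(β → ZMod 2) := h2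
      _ = Module.rank (ZMod 2) (β → ZMod 2) := rank_fun_infinite.symm
      _ = Module.rank (ZMod 2) (LinearMap.range (T l)) := (rank_range_of_injective _ hinj).symm
  · intro i
    let s := (b.repr (Submodule.Quotient.mk (Finsupp.single i 1))).support
    refine ⟨(s.sup fun j => (e j).2) + 1, fun l hl x hx => ?_⟩
    obtain ⟨g, rfl⟩ := hx
    change (b.constr (ZMod 2)) (fun j : β => (if (e j).2 = l then
      (LinearMap.proj (e j).1 : (β → ZMod 2) →ₗ[ZMod 2] ZMod 2) else 0) g)
      (Submodule.Quotient.mk (Finsupp.single i 1)) = 0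
    rw [Module.Basis.constr_apply, Finsupp.sum]
    refine Finset.sum_eq_zero fun j hj => ?_
    have h4 : (e j).2 ≠ l := by
      have := Finset.le_sup (f := fun j => (e j).2) hj
      have h5 : (e j).2 ≤ s.sup fun j => (e j).2 := this
      omega
    rw [if_neg h4]
    simp

end Pool.Agent.Helper332.Boolean
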