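import Mathlib
import Pool.Agent.Helper332.Boolean

set_option autoImplicit false

namespace Pool.Agent.Helper332.Boolean

open Cardinal TopologicalSpace

/-- A closed subspace with uncountable dual. -/
def Big {I : Type} (M : Submodule (ZMod 2) (I → ZMod 2)) : Prop :=
  IsClosed (M : Set (I → ZMod 2)) ∧ Uncountable ((I →₀ ZMod 2) ⧸ ann M)

theorem card_big {I : Type} [Infinite I] :
    #{M : Submodule (ZMod 2) (I → ZMod 2) // Big M} ≤ #(I → ZMod 2) := by
  let F : {M : Submodule (ZMod 2) (I → ZMod 2) // Big M} → Set (I →₀ ZMod 2) := fun M => ann M.1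
  have hF : Function.Injective F := by
    have key : ∀ M M' : {M : Submodule (ZMod 2) (I → ZMod 2) // Big M},
        F M = F M' → M.1 ≤ M'.1 := by
      intro M M' h x hx
      refine duality M'.1 M'.2.1 x fun n hn => ?_
      have : n ∈ F M := by rw [h]; exact hn
      exact this x hx
    intro M M' h
    exact Subtype.ext (le_antisymm (key M M' h) (key M' M h.symm))
  have h1 : #(I →₀ ZMod 2) = #I := by
    rw [mk_finsupp_of_infinite, max_eq_left]
    exact (lt_aleph0_of_finite (ZMod 2)).le.trans (aleph0_le_mk I)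
  calc #{M : Submodule (ZMod 2) (I → ZMod 2) // Big M} ≤ #(Set (I →₀ ZMod 2)) :=
        mk_le_of_injective hF
    _ = 2 ^ #I := by rw [mk_set, h1]
    _ = #(ZMod 2) ^ #I := by simp
    _ = #(I → ZMod 2) := by rw [← power_def]

/-- The finitely supported functions. -/
def fin (I : Type) : Submodule (ZMod 2) (I → ZMod 2) where
  carrier := {x | {i | x i ≠ 0}.Finite}
  zero_mem' := by simp
  add_mem' := by
    intro a b ha hb
    refine (Set.Finite.union ha hb).subset ?_
    intro i hi
    by_contra hcon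
    simp only [Set.mem_union, not_or] at hcon
    obtain ⟨h1, h2⟩ := hcon
    have h1' : a i = 0 := not_not.mp h1
    have h2' : b i = 0 := not_not.mp h2
    exact hi (by simp [h1', h2'])
  smul_mem' := by
    intro c a ha
    refine Set.Finite.subset ha ?_
    intro i hi h
    exact hi (by simp [h])

theorem rank_fin (I : Type) [Infinite I] : Module.rank (ZMod 2) (fin I) < #(I → ZMod 2) := by
  classical
  have h1 : #(I →₀ ZMod 2) = #I := by
    rw [mk_finsupp_of_infinite, max_eq_left]
    exact (lt_aleph0_of_finite (ZMod 2)).le.trans (aleph0_le_mk I)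
  have h2 : #(fin I) ≤ #(I →₀ ZMod 2) := by
    refine mk_le_of_injective (f := fun x : fin I => Finsupp.ofSupportFinite x.1 x.2) ?_
    intro x y hxy
    apply Subtype.ext
    have h3 : (Finsupp.ofSupportFinite x.1 x.2 : I → ZMod 2) = Finsupp.ofSupportFinite y.1 y.2 :=
      congrArg _ hxy
    rw [Finsupp.ofSupportFinite_coe, Finsupp.ofSupportFinite_coe] at h3
    exact h3
  calc Module.rank (ZMod 2) (fin I) ≤ #(fin I) := rank_le_card _ _
    _ ≤ #I := h2.trans h1.le
    _ < 2 ^ #I := cantor _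
    _ = #(ZMod 2) ^ #I := by simp
    _ = #(I → ZMod 2) := by rw [← power_def]

/-- Functions vanishing on a set. -/
def van {I : Type} (S : Set I) : Submodule (ZMod 2) (I → ZMod 2) where
  carrier := {x | ∀ i ∈ S, x i = 0}
  zero_mem' := by intro i _; rfl
  add_mem' := by
    intro a b ha hb i hi
    simp [ha i hi, hb i hi]
  smul_mem' := by
    intro c a ha i hi
    simp [ha i hi]

theorem rank_van {I : Type} (hI : #I = ℵ₁) (S : Set I) (hS : S.Countable) :
    #(I → ZMod 2) ≤ Module.rank (ZMod 2) (van S) := by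
  classical
  have hinf : Infinite I := by
    rw [← aleph0_le_mk_iff, hI]; exact aleph0_lt_aleph_one.le
  have h1 : #(Sᶜ : Set I) = #I := by
    refine mk_compl_of_infinite S (lt_of_le_of_lt (mk_le_aleph0_iff.mpr hS.to_subtype) ?_)
    rw [hI]; exact aleph0_lt_aleph_one
  have hinf2 : Infinite (Sᶜ : Set I) := by
    rw [← aleph0_le_mk_iff, h1]; exact aleph0_le_mk I
  let T : ((Sᶜ : Set I) → ZMod 2) →ₗ[ZMod 2] van S :=
    { toFun := fun g => ⟨fun i => if h : i ∈ S then 0 else g ⟨i, h⟩, by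
        intro i hi
        simp [hi]⟩
      map_add' := by
        intro a b
        ext i
        by_cases h : i ∈ S
        · simp [h]
        · simp [h]
      map_smul' := by
        intro c a
        ext i
        by_cases h : i ∈ S
        · simp [h]
        · simp [h] }
  have hT : Function.Injective T := by
    intro g g' hgg
    ext ⟨i, hi⟩
    have h2 := congrFun (congrArg Subtype.val hgg) i
    simp only [T, LinearMap.coe_mk, AddHom.coe_mk] at h2
    have hi' : i ∉ S := hi
    rw [dif_neg hi', dif_neg hi'] at h2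
    exact h2
  calc #(I → ZMod 2) = #((Sᶜ : Set I) → ZMod 2) := by
        rw [← power_def, ← power_def, h1]
    _ = Module.rank (ZMod 2) ((Sᶜ : Set I) → ZMod 2) := rank_fun_infinite.symm
    _ ≤ _ := LinearMap.rank_le_of_injective T hT

/-- The two key properties of the subgroups that we construct. -/
structure Good {I : Type} (W : Submodule (ZMod 2) (I → ZMod 2)) : Prop where
  dense : ∀ M : Submodule (ZMod 2) (I → ZMod 2), Big M →
    ∃ D : Set (I → ZMod 2), D.Countable ∧ D ⊆ W ∧ D ⊆ M ∧ (M : Set (I → ZMod 2)) ⊆ closure D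
  full : ∀ (S : Set I), S.Countable → ∀ z : I → ZMod 2, ∃ w ∈ W, ∀ i ∈ S, w i = z i

/-- The closed subspaces with uncountable dual. -/
abbrev BigM (I : Type) : Type := {M : Submodule (ZMod 2) (I → ZMod 2) // Big M}

/-- The tasks met in the recursion. -/
abbrev Task (I : Type) : Type :=
  ((BigM I × (ℕ × ℕ)) ⊕ ({S : Set I // S.Countable} × (I → ZMod 2))) × Bool

theorem card_task {I : Type} [Infinite I] : #(Task I) ≤ #(I → ZMod 2) := by
  have hc : ℵ₀ ≤ #(I → ZMod 2) := by
    have : Infinite (I → ZMod 2) := Pi.infinite_of_left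
    exact aleph0_le_mk _
  have h1 : #(BigM I) ≤ #(I → ZMod 2) := card_big
  have h2 : #{S : Set I // S.Countable} ≤ #(I → ZMod 2) := by
    refine (mk_subtype_le _).trans ?_
    rw [mk_set, ← power_def]
    simp
  have h3 : #(ℕ × ℕ) ≤ #(I → ZMod 2) := by
    rw [mk_denumerable]; exact hc
  have h4 : #Bool ≤ #(I → ZMod 2) := (lt_aleph0_of_finite Bool).le.trans hc
  have hmul : #(I → ZMod 2) * #(I → ZMod 2) = #(I → ZMod 2) := mul_eq_self hc
  have hadd : #(I → ZMod 2) + #(I → ZMod 2) = #(I → ZMod 2) := add_eq_self hc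
  have h5 : #(BigM I × (ℕ × ℕ)) ≤ #(I → ZMod 2) := by
    rw [mk_prod, lift_id, lift_id]
    exact (mul_le_mul' h1 h3).trans hmul.le
  have h6 : #({S : Set I // S.Countable} × (I → ZMod 2)) ≤ #(I → ZMod 2) := by
    rw [mk_prod, lift_id, lift_id]
    exact (mul_le_mul' h2 le_rfl).trans hmul.le
  rw [mk_prod, lift_id, lift_id, mk_sum, lift_id, lift_id]
  exact (mul_le_mul' ((add_le_add h5 h6).trans hadd.le) h4).trans hmul.le

/-- The base points of the tasks. -/
def taskD {I : Type} (δ : BigM I → ℕ → (I → ZMod 2)) (t : Task I) : I → ZMod 2 :=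
  Sum.elim (fun x : BigM I × (ℕ × ℕ) => δ x.1 x.2.1) (fun x => x.2) t.1

/-- The directions of the tasks. -/
def taskN {I : Type} (N : BigM I → ℕ → Submodule (ZMod 2) (I → ZMod 2)) (t : Task I) :
    Submodule (ZMod 2) (I → ZMod 2) :=
  Sum.elim (fun x : BigM I × (ℕ × ℕ) => N x.1 x.2.2) (fun x => van x.1.1) t.1

theorem exists_v {I : Type} (hI : #I = ℵ₁) (δ : BigM I → ℕ → (I → ZMod 2))
    (N : BigM I → ℕ → Submodule (ZMod 2) (I → ZMod 2))
    (hNr : ∀ M l, #(I → ZMod 2) ≤ Module.rank (ZMod 2) (N M l)) :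
    ∃ v : Task I → (I → ZMod 2),
      (∀ M k l b, v (Sum.inl (M, (k, l)), b) - δ M k ∈ N M l) ∧
      (∀ S z b, v (Sum.inr (S, z), b) - z ∈ van S.1) ∧
      LinearIndependent (ZMod 2) (fun t => (fin I).mkQ (v t)) := by
  have hinf : Infinite I := by
    rw [← aleph0_le_mk_iff, hI]; exact aleph0_lt_aleph_one.le
  have hc : ℵ₀ ≤ #(I → ZMod 2) := by
    have : Infinite (I → ZMod 2) := Pi.infinite_of_left
    exact aleph0_le_mk _
  obtain ⟨v, hv, hvind⟩ := Selection.exists_selection (#(I → ZMod 2)) hc card_task (fin I)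
    (rank_fin I) (taskD δ) (taskN N) (by
      rintro ⟨x | x, b⟩
      · exact hNr x.1 x.2.2
      · exact rank_van hI x.1.1 x.1.2)
  exact ⟨v, fun M k l b => hv (Sum.inl (M, (k, l)), b), fun S z b => hv (Sum.inr (S, z), b), hvind⟩

/-- Two good subgroups meeting exactly in the finitely supported functions. -/
theorem exists_good {I : Type} (hI : #I = ℵ₁) :
    ∃ G H : Submodule (ZMod 2) (I → ZMod 2), Good G ∧ Good H ∧ G ⊓ H = fin I := by
  classical
  have hinf : Infinite I := by
    rw [← aleph0_le_mk_iff, hI]; exact aleph0_lt_aleph_one.le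
  have hIc : #I ≤ 𝔠 := by rw [hI]; exact aleph_one_le_continuum
  -- dense sequences and null subspaces
  have hδ : ∀ M : BigM I, ∃ δ : ℕ → (I → ZMod 2), (∀ k, δ k ∈ M.1) ∧
        (M.1 : Set (I → ZMod 2)) ⊆ closure (Set.range δ) := fun M => exists_dense hIc M.1 M.2.1
  choose δ hδM hδd using hδ
  have hN : ∀ M : BigM I, ∃ N : ℕ → Submodule (ZMod 2) (I → ZMod 2), (∀ l, N l ≤ M.1) ∧
      (∀ l, #(I → ZMod 2) ≤ Module.rank (ZMod 2) (N l)) ∧
      ∀ i, ∃ l₀, ∀ l, l₀ ≤ l → ∀ x ∈ N l, x i = 0 :=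
    fun M => exists_null M.1 M.2.1 hI M.2.2
  choose N hNM hNr hNz using hN
  obtain ⟨v, hv1, hv2, hvind⟩ := exists_v hI δ N hNr
  let G : Bool → Submodule (ZMod 2) (I → ZMod 2) := fun b =>
    (Submodule.span (ZMod 2) ((fun t => (fin I).mkQ (v t)) '' {t | t.2 = b})).comap (fin I).mkQ
  have hvG : ∀ (x : (BigM I × (ℕ × ℕ)) ⊕ ({S : Set I // S.Countable} × (I → ZMod 2))) (b : Bool),
      v (x, b) ∈ G b := by
    intro x b
    rw [Submodule.mem_comap]
    exact Submodule.subset_span ⟨(x, b), rfl, rfl⟩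
  have hgood : ∀ b, Good (G b) := by
    intro b
    constructor
    · intro M hM
      have hs : ∀ p : ℕ × ℕ, v (Sum.inl (⟨M, hM⟩, (p.1, p.2)), b) - δ ⟨M, hM⟩ p.1
          ∈ N ⟨M, hM⟩ p.2 := fun p => hv1 ⟨M, hM⟩ p.1 p.2 b
      refine ⟨Set.range fun p : ℕ × ℕ => v (Sum.inl (⟨M, hM⟩, (p.1, p.2)), b),
        Set.countable_range _, ?_, ?_, ?_⟩
      · rintro _ ⟨p, rfl⟩
        exact hvG _ _
      · rintro _ ⟨p, rfl⟩
        have h1 := hNM ⟨M, hM⟩ p.2 (hs p)
        have h2 := M.add_mem h1 (hδM ⟨M, hM⟩ p.1)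
        rw [sub_add_cancel] at h2
        exact h2
      · refine (hδd ⟨M, hM⟩).trans (closure_minimal ?_ isClosed_closure)
        rintro _ ⟨k, rfl⟩
        refine mem_closure_of_tendsto
          (f := fun l : ℕ => v (Sum.inl (⟨M, hM⟩, (k, l)), b)) (b := Filter.atTop) ?_
          (Filter.Eventually.of_forall fun l => ⟨(k, l), rfl⟩)
        rw [tendsto_pi_nhds]
        intro i
        obtain ⟨l₀, hl₀⟩ := hNz ⟨M, hM⟩ i
        refine tendsto_const_nhds.congr' ?_
        filter_upwards [Filter.eventually_ge_atTop l₀] with l hl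
        have h3 := hl₀ l hl _ (hs (k, l))
        rw [Pi.sub_apply] at h3
        exact (sub_eq_zero.mp h3).symm
    · intro S hS z
      refine ⟨v (Sum.inr (⟨S, hS⟩, z), b), hvG _ _, ?_⟩
      intro i hi
      have h2 := hv2 ⟨S, hS⟩ z b i hi
      rw [Pi.sub_apply] at h2
      exact sub_eq_zero.mp h2
  refine ⟨G false, G true, hgood _, hgood _, ?_⟩
  have hdis : Disjoint (Submodule.span (ZMod 2) ((fun t => (fin I).mkQ (v t)) '' {t | t.2 = false}))
      (Submodule.span (ZMod 2) ((fun t => (fin I).mkQ (v t)) '' {t | t.2 = true})) := by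
    refine hvind.disjoint_span_image ?_
    rw [Set.disjoint_left]
    intro t h1 h2
    have h1' : t.2 = false := h1
    have h2' : t.2 = true := h2
    rw [h1'] at h2'
    exact absurd h2' (by simp)
  simp only [G]
  rw [← Submodule.comap_inf, hdis.eq_bot, Submodule.comap_bot, Submodule.ker_mkQ]

end Pool.Agent.Helper332.Boolean
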