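import Mathlib
import Pool.Agent.Helper332.Boolean2

set_option autoImplicit false

namespace Pool.Agent.Helper332.Boolean

open Cardinal TopologicalSpace

theorem separable_of_inducing {X Y : Type*} [TopologicalSpace X] [TopologicalSpace Y] (j : Y → X)
    (hj : Topology.IsInducing j) (hinj : Function.Injective j) (D : Set X) (hD : D.Countable)
    (h1 : D ⊆ Set.range j) (h2 : Set.range j ⊆ closure D) : SeparableSpace Y := by
  refine ⟨⟨j ⁻¹' D, hD.preimage hinj, ?_⟩⟩
  rw [hj.dense_iff]
  intro x
  rw [Set.image_preimage_eq_of_subset h1]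
  exact h2 ⟨x, rfl⟩

/-- Finite sums of coordinates are continuous. -/
theorem continuous_comb {I : Type} (n : I →₀ ZMod 2) :
    Continuous fun x : I → ZMod 2 => Finsupp.linearCombination (ZMod 2) x n := by
  have : (fun x : I → ZMod 2 => Finsupp.linearCombination (ZMod 2) x n)
      = fun x => ∑ a ∈ n.support, n a • x a := by
    ext x
    rw [Finsupp.linearCombination_apply, Finsupp.sum]
  rw [this]
  refine continuous_finsetSum _ fun a _ => ?_
  exact (continuous_of_discreteTopology (f := fun y : ZMod 2 => n a • y)).comp (continuous_apply a)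

theorem good_separable {I : Type} {W : Submodule (ZMod 2) (I → ZMod 2)} (hW : Good W)
    (K : AddSubgroup W) (hK : IsClosed (K : Set W)) : SeparableSpace K := by
  classical
  let K' : AddSubgroup (I → ZMod 2) := K.map W.subtype.toAddMonoidHom
  let M₀ : AddSubgroup (I → ZMod 2) := K'.topologicalClosure
  let M : Submodule (ZMod 2) (I → ZMod 2) := AddSubgroup.toZModSubmodule 2 M₀
  have hMM₀ : (M : Set (I → ZMod 2)) = M₀ := rfl
  have hMc : IsClosed (M : Set (I → ZMod 2)) := K'.isClosed_topologicalClosure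
  have hK'M : (K' : Set (I → ZMod 2)) ⊆ M := K'.le_topologicalClosure
  have hmem : ∀ x ∈ M, x ∈ W → x ∈ K' := by
    intro x hxM hxW
    have h1 : (⟨x, hxW⟩ : W) ∈ closure (K : Set W) := by
      rw [Topology.IsInducing.subtypeVal.closure_eq_preimage_closure_image]
      exact hxM
    rw [hK.closure_eq] at h1
    exact ⟨⟨x, hxW⟩, h1, rfl⟩
  have hind : Topology.IsInducing (fun k : K => ((k : W) : I → ZMod 2)) :=
    Topology.IsInducing.subtypeVal.comp Topology.IsInducing.subtypeVal
  by_cases hM : Big M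
  · obtain ⟨D, hD, hDW, hDM, hMD⟩ := hW.dense M hM
    refine separable_of_inducing (fun k : K => ((k : W) : I → ZMod 2)) hind
      (Subtype.val_injective.comp Subtype.val_injective) D hD ?_ ?_
    · intro d hd
      obtain ⟨y, hy, rfl⟩ := hmem d (hDM hd) (hDW hd)
      exact ⟨⟨y, hy⟩, rfl⟩
    · rintro _ ⟨k, rfl⟩
      exact hMD (hK'M ⟨k, k.2, rfl⟩)
  · have hX : Countable ((I →₀ ZMod 2) ⧸ ann M) := by
      by_contra hc
      exact hM ⟨hMc, not_countable_iff.mp hc⟩
    let J : K → (((I →₀ ZMod 2) ⧸ ann M) → ZMod 2) := fun k q =>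
      Finsupp.linearCombination (ZMod 2) ((k : W) : I → ZMod 2) (Quotient.out q)
    let Ψ : (((I →₀ ZMod 2) ⧸ ann M) → ZMod 2) → (I → ZMod 2) := fun f i =>
      f (Submodule.Quotient.mk (Finsupp.single i 1))
    have hΨ : Continuous Ψ := continuous_pi fun i => continuous_apply _
    have hJ : Continuous J := continuous_pi fun q =>
      (continuous_comb (Quotient.out q)).comp hind.continuous
    have hΨJ : Ψ ∘ J = fun k : K => ((k : W) : I → ZMod 2) := by
      ext k i
      have hkM : ((k : W) : I → ZMod 2) ∈ M := hK'M ⟨k, k.2, rfl⟩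
      have h1 : Quotient.out (Submodule.Quotient.mk (Finsupp.single i 1) : (I →₀ ZMod 2) ⧸ ann M)
          - Finsupp.single i 1 ∈ ann M := by
        rw [← Submodule.Quotient.eq]
        exact Quotient.out_eq' _
      have h2 := h1 _ hkM
      rw [map_sub, sub_eq_zero] at h2
      change Finsupp.linearCombination (ZMod 2) ((k : W) : I → ZMod 2) (Quotient.out
        (Submodule.Quotient.mk (Finsupp.single i 1) : (I →₀ ZMod 2) ⧸ ann M)) = _
      rw [h2]
      simp
    have hJi : Topology.IsInducing J := by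
      refine Topology.IsInducing.of_comp hJ hΨ ?_
      rw [hΨJ]
      exact hind
    have : SecondCountableTopology K := hJi.secondCountableTopology
    infer_instance

theorem good_pseudocompact {I : Type} {W : Submodule (ZMod 2) (I → ZMod 2)} (hW : Good W)
    (f : W → ℝ) (hf : Continuous f) : ∃ C, ∀ x, |f x| ≤ C := by
  classical
  by_contra hcon
  push Not at hcon
  have hx : ∀ n : ℕ, ∃ x : W, (n : ℝ) < |f x| := fun n => hcon n
  choose x hx using hx
  -- basic neighbourhoods
  have hbasic : ∀ (y : W) (U : Set W), IsOpen U → y ∈ U → ∃ F : Finset I,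
      ∀ z : W, (∀ i ∈ F, (z : I → ZMod 2) i = (y : I → ZMod 2) i) → z ∈ U := by
    intro y U hU hyU
    obtain ⟨V, hV, rfl⟩ := isOpen_induced_iff.mp hU
    obtain ⟨F, u, hu, hsub⟩ := isOpen_pi_iff.mp hV y hyU
    refine ⟨F, fun z hz => hsub ?_⟩
    intro i hi
    have := hz i hi
    change (z : I → ZMod 2) i ∈ u i
    rw [this]
    exact (hu i hi).2
  have hF : ∀ n : ℕ, ∃ F : Finset I, ∀ z : W,
      (∀ i ∈ F, (z : I → ZMod 2) i = (x n : I → ZMod 2) i) → (n : ℝ) < |f z| := by
    intro n
    exact hbasic (x n) {z | (n : ℝ) < |f z|} (isOpen_lt continuous_const hf.abs) (hx n)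
  choose F hF using hF
  let S : Set I := ⋃ n, (F n : Set I)
  have hS : S.Countable := Set.countable_iUnion fun n => (F n).countable_toSet
  -- a cluster point along an ultrafilter
  let u : Ultrafilter (I → ZMod 2) := (Filter.hyperfilter ℕ).map fun n => (x n : I → ZMod 2)
  obtain ⟨z, hz⟩ : ∃ z, (u : Filter (I → ZMod 2)) ≤ nhds z := by
    obtain ⟨z, -, hz⟩ := isCompact_univ.ultrafilter_le_nhds u (by simp)
    exact ⟨z, hz⟩
  have hzt : Filter.Tendsto (fun n => (x n : I → ZMod 2)) (Filter.hyperfilter ℕ) (nhds z) := hz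
  obtain ⟨g, hgW, hgz⟩ := hW.full S hS z
  obtain ⟨E, hE⟩ := hbasic ⟨g, hgW⟩ {y | |f y| < |f ⟨g, hgW⟩| + 1}
    (isOpen_lt hf.abs continuous_const) (by simp)
  have h1 : ∀ᶠ n in (Filter.hyperfilter ℕ : Filter ℕ), ∀ i ∈ E, (x n : I → ZMod 2) i = z i := by
    rw [Filter.eventually_all_finset]
    intro i _
    have h2 : Filter.Tendsto (fun n => (x n : I → ZMod 2) i) (Filter.hyperfilter ℕ) (nhds (z i)) :=
      (tendsto_pi_nhds.mp hzt) i
    rw [nhds_discrete] at h2
    exact h2 (Set.mem_singleton _)
  have h2 : ∀ᶠ n : ℕ in (Filter.hyperfilter ℕ : Filter ℕ), |f ⟨g, hgW⟩| + 1 ≤ (n : ℝ) := by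
    have h3 : ∀ᶠ n : ℕ in (Filter.atTop : Filter ℕ), |f ⟨g, hgW⟩| + 1 ≤ (n : ℝ) :=
      tendsto_natCast_atTop_atTop.eventually_ge_atTop _
    exact Nat.hyperfilter_le_atTop h3
  obtain ⟨n, hn1, hn2⟩ := (h1.and h2).exists
  let z' : I → ZMod 2 := fun i => if i ∈ F n then (x n : I → ZMod 2) i else g i
  obtain ⟨y, hyW, hy⟩ := hW.full ((F n ∪ E : Finset I) : Set I) (Finset.countable_toSet _) z'
  have hyF : (n : ℝ) < |f ⟨y, hyW⟩| := by
    apply hF n
    intro i hi
    change y i = _
    rw [hy i (by simp [hi])]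
    simp [z', hi]
  have hyE : |f ⟨y, hyW⟩| < |f ⟨g, hgW⟩| + 1 := by
    apply hE
    intro i hi
    change y i = g i
    rw [hy i (by simp [hi])]
    by_cases hiF : i ∈ F n
    · simp only [z', hiF, if_true]
      rw [hn1 i hi, hgz i (Set.mem_iUnion.2 ⟨n, hiF⟩)]
    · simp [z', hiF]
  linarith

/-- The functions with at most `n` nonzero values. -/
def ball (I : Type) (n : ℕ) : Set (I → ZMod 2) :=
  {x | ∀ T : Finset I, (∀ i ∈ T, x i ≠ 0) → T.card ≤ n}

theorem isClosed_ball (I : Type) (n : ℕ) : IsClosed (ball I n) := by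
  have : ball I n = ⋂ T : {T : Finset I // n < T.card}, ⋃ i ∈ T.1, {x : I → ZMod 2 | x i = 0} := by
    ext x
    simp only [ball, Set.mem_ofPred_eq, Set.mem_iInter, Set.mem_iUnion, Subtype.forall]
    constructor
    · intro h T hT
      by_contra hcon
      push Not at hcon
      exact absurd (h T hcon) (not_le.mpr hT)
    · intro h T hT
      by_contra hcon
      obtain ⟨i, hi, hxi⟩ := h T (not_le.mp hcon)
      exact hT i hi hxi
  rw [this]
  refine isClosed_iInter fun T => ?_
  refine T.1.finite_toSet.isClosed_biUnion fun i _ => ?_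
  exact isClosed_eq (continuous_apply i) continuous_const

theorem ball_subset (I : Type) (n : ℕ) : ball I n ⊆ fin I := by
  intro x hx
  change {i | x i ≠ 0}.Finite
  by_contra hinf
  obtain ⟨T, hT, hTc⟩ := Set.Infinite.exists_subset_card_eq hinf (n + 1)
  have := hx T (fun i hi => hT hi)
  omega

theorem mem_ball_of_mem_fin {I : Type} {x : I → ZMod 2} (hx : x ∈ fin I) : ∃ n, x ∈ ball I n := by
  have hx' : {i | x i ≠ 0}.Finite := hx
  refine ⟨hx'.toFinset.card, fun T hT => Finset.card_le_card fun i hi => ?_⟩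
  rw [Set.Finite.mem_toFinset]
  exact hT i hi

/-- Statement (A) holds outright. -/
theorem statement_A :
    ∃ (G : Type) (_ : AddCommGroup G) (_ : TopologicalSpace G)
      (H : Type) (_ : AddCommGroup H) (_ : TopologicalSpace H),
      (IsTopologicalAddGroup G ∧ T2Space G ∧ (∀ f : G → ℝ, Continuous f → ∃ C, ∀ x, |f x| ≤ C) ∧
        ∀ K : AddSubgroup G, IsClosed (K : Set G) → SeparableSpace K) ∧
      (IsTopologicalAddGroup H ∧ T2Space H ∧ (∀ f : H → ℝ, Continuous f → ∃ C, ∀ x, |f x| ≤ C) ∧
        ∀ K : AddSubgroup H, IsClosed (K : Set H) → SeparableSpace K) ∧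
      ∃ L : AddSubgroup (G × H), IsClosed (L : Set (G × H)) ∧ IsSigmaCompact (L : Set (G × H)) ∧
        ¬ SeparableSpace L := by
  classical
  let I : Type := (ℵ₁ : Cardinal.{0}).out
  have hI : #I = ℵ₁ := mk_out _
  have hunc : Uncountable I := by
    rw [← aleph0_lt_mk_iff, hI]; exact aleph0_lt_aleph_one
  obtain ⟨G, H, hG, hH, hGH⟩ := exists_good hI
  have htg : IsTopologicalAddGroup (I → ZMod 2) := by
    have : IsTopologicalAddGroup (ZMod 2) := inferInstance
    infer_instance
  refine ⟨G, inferInstance, inferInstance, H, inferInstance, inferInstance,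
    ⟨inferInstance, inferInstance, good_pseudocompact hG, good_separable hG⟩,
    ⟨inferInstance, inferInstance, good_pseudocompact hH, good_separable hH⟩, ?_⟩
  have hfG : ∀ x ∈ fin I, x ∈ G := fun x hx => by rw [← hGH] at hx; exact hx.1
  have hfH : ∀ x ∈ fin I, x ∈ H := fun x hx => by rw [← hGH] at hx; exact hx.2
  let L : AddSubgroup (G × H) :=
    { carrier := {p | (p.1 : I → ZMod 2) = (p.2 : I → ZMod 2)}
      zero_mem' := rfl
      add_mem' := by
        intro a b ha hb
        have ha' : (a.1 : I → ZMod 2) = a.2 := ha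
        have hb' : (b.1 : I → ZMod 2) = b.2 := hb
        change ((a.1 + b.1 : G) : I → ZMod 2) = ((a.2 + b.2 : H) : I → ZMod 2)
        rw [Submodule.coe_add, Submodule.coe_add, ha', hb']
      neg_mem' := by
        intro a ha
        have ha' : (a.1 : I → ZMod 2) = a.2 := ha
        change ((-a.1 : G) : I → ZMod 2) = ((-a.2 : H) : I → ZMod 2)
        rw [Submodule.coe_neg, Submodule.coe_neg, ha'] }
  refine ⟨L, ?_, ?_, ?_⟩
  · exact isClosed_eq (continuous_subtype_val.comp continuous_fst)
      (continuous_subtype_val.comp continuous_snd)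
  · let φ : ∀ n : ℕ, ball I n → G × H := fun n x =>
      (⟨x, hfG x (ball_subset I n x.2)⟩, ⟨x, hfH x (ball_subset I n x.2)⟩)
    have hφ : ∀ n, Continuous (φ n) := fun n =>
      (Continuous.subtype_mk continuous_subtype_val _).prodMk
        (Continuous.subtype_mk continuous_subtype_val _)
    refine ⟨fun n => Set.range (φ n), fun n => ?_, ?_⟩
    · have : CompactSpace (ball I n) := isCompact_iff_compactSpace.mp (isClosed_ball I n).isCompact
      exact isCompact_range (hφ n)
    · ext p
      rw [Set.mem_iUnion]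
      constructor
      · rintro ⟨n, x, rfl⟩
        rfl
      · intro hp
        have hp' : (p.1 : I → ZMod 2) = (p.2 : I → ZMod 2) := hp
        have hfin : (p.1 : I → ZMod 2) ∈ fin I := by
          rw [← hGH]
          exact ⟨p.1.2, by rw [hp']; exact p.2.2⟩
        obtain ⟨n, hn⟩ := mem_ball_of_mem_fin hfin
        refine ⟨n, ⟨_, hn⟩, ?_⟩
        exact Prod.ext (Subtype.ext rfl) (Subtype.ext hp')
  · intro hsep
    obtain ⟨D, hD, hDd⟩ := exists_countable_dense L
    have hfin : ∀ x : L, {i | ((x : G × H).1 : I → ZMod 2) i ≠ 0}.Finite := by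
      intro x
      have hx : ((x : G × H).1 : I → ZMod 2) = ((x : G × H).2 : I → ZMod 2) := x.2
      have : ((x : G × H).1 : I → ZMod 2) ∈ fin I := by
        rw [← hGH]
        exact ⟨(x : G × H).1.2, by rw [hx]; exact (x : G × H).2.2⟩
      exact this
    have hT : (⋃ x ∈ D, {i | ((x : G × H).1 : I → ZMod 2) i ≠ 0}).Countable :=
      hD.biUnion fun x _ => (hfin x).countable
    obtain ⟨i, hi⟩ : ∃ i, i ∉ (⋃ x ∈ D, {i | ((x : G × H).1 : I → ZMod 2) i ≠ 0}) := by
      by_contra hcon
      push Not at hcon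
      have : (Set.univ : Set I).Countable := hT.mono fun i _ => hcon i
      exact not_countable (α := I) (Set.countable_univ_iff.mp this)
    have hcl : IsClosed {x : L | ((x : G × H).1 : I → ZMod 2) i = 0} :=
      isClosed_eq ((continuous_apply _).comp (continuous_subtype_val.comp
        (continuous_fst.comp continuous_subtype_val))) continuous_const
    have hall : ∀ x : L, ((x : G × H).1 : I → ZMod 2) i = 0 := by
      intro x
      refine closure_minimal (fun y hy => ?_) hcl (hDd x)
      by_contra h6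
      exact hi (Set.mem_biUnion hy h6)
    have hs : (Pi.single i 1 : I → ZMod 2) ∈ fin I := by
      change {j | (Pi.single i 1 : I → ZMod 2) j ≠ 0}.Finite
      refine (Set.finite_singleton i).subset ?_
      intro j hj
      by_contra hji
      exact hj (Pi.single_eq_of_ne hji 1)
    have h7 := hall ⟨(⟨_, hfG _ hs⟩, ⟨_, hfH _ hs⟩), rfl⟩
    simp at h7

end Pool.Agent.Helper332.Boolean
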