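import Mathlib

set_option autoImplicit false

namespace Pool.Agent.Helper332.CC

/-- A finite family is independent modulo a subspace. -/
def IndepMod {V ι : Type*} [AddCommGroup V] [Module (ZMod 2) V] (X : Submodule (ZMod 2) V)
    (K : Finset ι) (g : ι → V) : Prop :=
  ∀ c : ι → ZMod 2, ∑ j ∈ K, c j • g j ∈ X → ∀ j ∈ K, c j = 0

theorem zmod2_eq_one {a : ZMod 2} (h : a ≠ 0) : a = 1 := by
  revert h; revert a; decide

variable {V ι : Type*} [AddCommGroup V] [Module (ZMod 2) V]

theorem IndepMod.mono {X : Submodule (ZMod 2) V} {K K' : Finset ι} {g : ι → V}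
    (h : IndepMod X K g) (hK : K' ⊆ K) : IndepMod X K' g := by
  classical
  intro c hc j hj
  have h1 := h (fun i => if i ∈ K' then c i else 0) (by
    have : ∑ i ∈ K, (if i ∈ K' then c i else 0) • g i = ∑ i ∈ K', c i • g i := by
      rw [← Finset.sum_subset hK]
      · exact Finset.sum_congr rfl fun i hi => by simp [hi]
      · intro i _ hi; simp [hi]
    rw [this]; exact hc) j (hK hj)
  simpa [hj] using h1

theorem IndepMod.anti {X Y : Submodule (ZMod 2) V} {K : Finset ι} {g : ι → V}
    (h : IndepMod Y K g) (hXY : X ≤ Y) : IndepMod X K g :=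
  fun c hc => h c (hXY hc)

theorem indepMod_insert [DecidableEq ι] {X X' : Submodule (ZMod 2) V} {K : Finset ι} {j : ι}
    {g : ι → V} (hj : j ∉ K) (h : IndepMod X' K g) (hX : X ≤ X') (hg : g j ∈ X') (hgX : g j ∉ X) :
    IndepMod X (insert j K) g := by
  intro c hc
  rw [Finset.sum_insert hj] at hc
  have h1 : ∑ i ∈ K, c i • g i ∈ X' := by
    have h2 := X'.sub_mem (hX hc) (X'.smul_mem (c j) hg)
    simpa using h2
  have h3 := h c h1
  have h4 : ∑ i ∈ K, c i • g i = 0 := Finset.sum_eq_zero fun i hi => by rw [h3 i hi, zero_smul]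
  rw [h4, add_zero] at hc
  have h5 : c j = 0 := by
    by_contra hne
    rw [zmod2_eq_one hne, one_smul] at hc
    exact hgX hc
  intro i hi
  rcases Finset.mem_insert.mp hi with rfl | hi
  · exact h5
  · exact h3 i hi

theorem partition_step [DecidableEq ι] {P : Finset ι} {j : ι} {g : ι → V}
    {X Y : Submodule (ZMod 2) V} {κ : V →ₗ[ZMod 2] ZMod 2} {x y : V} (hj : j ∉ P)
    (hκj : κ (g j) = 1) (hκ : ∀ i ∈ P, κ (g i) = 0) (hxy : g j = x + y) (hx : x ∈ X)
    (hy : y ∈ Y) (hd : Disjoint X Y) (hκx : κ x ≠ 0)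
    (IH : ∀ X Y : Submodule (ZMod 2) V, Disjoint X Y → ∃ K₁ K₂ : Finset ι, K₁ ⊆ P ∧ K₂ ⊆ P ∧
      K₁ ∪ K₂ = P ∧ IndepMod X K₁ g ∧ IndepMod Y K₂ g) :
    ∃ K₁ K₂ : Finset ι, K₁ ⊆ insert j P ∧ K₂ ⊆ insert j P ∧
      K₁ ∪ K₂ = insert j P ∧ IndepMod X K₁ g ∧ IndepMod Y K₂ g := by
  have hκx1 := zmod2_eq_one hκx
  let X' : Submodule (ZMod 2) V := X ⊓ LinearMap.ker κ
  let Y' : Submodule (ZMod 2) V := (Y ⊔ Submodule.span (ZMod 2) {g j}) ⊓ LinearMap.ker κ
  have hd' : Disjoint X' Y' := by
    rw [Submodule.disjoint_def]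
    rintro z ⟨hzX, hzκ⟩ ⟨hzY, -⟩
    obtain ⟨y', hy', v, hv, rfl⟩ := Submodule.mem_sup.mp hzY
    obtain ⟨c, rfl⟩ := Submodule.mem_span_singleton.mp hv
    -- y' + c (x + y) ∈ X, so y' + c y ∈ X ∩ Y
    have h1 : y' + c • y ∈ X := by
      have h2 := X.sub_mem hzX (X.smul_mem c hx)
      have h3 : y' + c • g j - c • x = y' + c • y := by rw [hxy, smul_add]; abel
      rwa [h3] at h2
    have h2 : y' + c • y ∈ Y := Y.add_mem hy' (Y.smul_mem c hy)
    have h3 : y' + c • y = 0 := Submodule.disjoint_def.mp hd _ h1 h2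
    have h4 : y' + c • g j = c • x := by
      rw [hxy, smul_add]
      calc y' + (c • x + c • y) = c • x + (y' + c • y) := by abel
        _ = c • x := by rw [h3, add_zero]
    have h5 : κ (y' + c • g j) = 0 := hzκ
    rw [h4, map_smul, hκx1, smul_eq_mul, mul_one] at h5
    rw [h4, h5, zero_smul]
  obtain ⟨K₁, K₂, hK₁, hK₂, hK, h₁, h₂⟩ := IH X' Y' hd'
  have hker : ∀ K ⊆ P, ∀ c : ι → ZMod 2, ∑ i ∈ K, c i • g i ∈ LinearMap.ker κ := by
    intro K hKP c
    refine Submodule.sum_mem _ fun i hi => Submodule.smul_mem _ _ ?_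
    exact hκ i (hKP hi)
  refine ⟨K₁, insert j K₂, hK₁.trans (Finset.subset_insert _ _), Finset.insert_subset_insert _ hK₂,
    by rw [Finset.union_insert, hK], ?_, ?_⟩
  · intro c hc
    exact h₁ c ⟨hc, hker K₁ hK₁ c⟩
  · have hjK₂ : j ∉ K₂ := fun h => hj (hK₂ h)
    intro c hc
    rw [Finset.sum_insert hjK₂] at hc
    have h3 : ∑ i ∈ K₂, c i • g i ∈ Y' := by
      refine ⟨?_, hker K₂ hK₂ c⟩
      rw [SetLike.mem_coe, Submodule.mem_sup]
      refine ⟨_, hc, - (c j • g j), Submodule.neg_mem _ (Submodule.smul_mem _ _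
        (Submodule.mem_span_singleton_self _)), by abel⟩
    have h4 := h₂ c h3
    have h5 : ∑ i ∈ K₂, c i • g i = 0 := Finset.sum_eq_zero fun i hi => by rw [h4 i hi, zero_smul]
    rw [h5, add_zero] at hc
    have h6 : c j = 0 := by
      by_contra hne
      rw [zmod2_eq_one hne, one_smul] at hc
      -- g j ∈ Y, so x ∈ X ∩ Y
      have h7 : x ∈ Y := by
        have := Y.sub_mem hc hy
        rwa [hxy, add_sub_cancel_right] at this
      have h8 := Submodule.disjoint_def.mp hd x hx h7
      rw [h8, map_zero] at hκx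
      exact hκx rfl
    intro i hi
    rcases Finset.mem_insert.mp hi with rfl | hi
    · exact h6
    · exact h4 i hi

/-- Partition of an independent family into two parts, independent modulo two disjoint
subspaces. -/
theorem exists_partition [DecidableEq ι] (P : Finset ι) (g : ι → V) (hP : IndepMod ⊥ P g) :
    ∀ X Y : Submodule (ZMod 2) V, Disjoint X Y → ∃ K₁ K₂ : Finset ι, K₁ ⊆ P ∧ K₂ ⊆ P ∧
      K₁ ∪ K₂ = P ∧ IndepMod X K₁ g ∧ IndepMod Y K₂ g := by
  induction P using Finset.induction_on with
  | empty =>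
    intro X Y _
    exact ⟨∅, ∅, by simp, by simp, by simp, fun c _ j hj => by simp at hj,
      fun c _ j hj => by simp at hj⟩
  | insert j P hj IH =>
    have hP' : IndepMod ⊥ P g := hP.mono (Finset.subset_insert _ _)
    specialize IH hP'
    intro X Y hd
    have hnot : g j ∉ Submodule.span (ZMod 2) (g '' (P : Set ι)) := by
      intro hmem
      obtain ⟨l, hl, hsum⟩ := (Finsupp.mem_span_image_iff_linearCombination (ZMod 2)).mp hmem
      rw [Finsupp.mem_supported] at hl
      have h1 : ∑ i ∈ P, l i • g i = g j := by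
        rw [← hsum, Finsupp.linearCombination_apply, Finsupp.sum]
        symm
        refine Finset.sum_subset (by exact_mod_cast hl) fun i _ hi => ?_
        rw [Finsupp.notMem_support_iff.mp hi, zero_smul]
      have h2 := hP (fun i => if i = j then 1 else l i) (by
        rw [Finset.sum_insert hj]
        have h3 : ∑ i ∈ P, (if i = j then (1 : ZMod 2) else l i) • g i = ∑ i ∈ P, l i • g i := by
          refine Finset.sum_congr rfl fun i hi => ?_
          have : i ≠ j := fun h => hj (h ▸ hi)
          simp [this]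
        rw [h3, h1]
        simp only [if_true, one_smul, Submodule.mem_bot]
        have h4 : (2 : ZMod 2) • g j = 0 := by
          have : (2 : ZMod 2) = 0 := by decide
          rw [this, zero_smul]
        rwa [two_smul] at h4) j (Finset.mem_insert_self _ _)
      simp at h2
    obtain ⟨κ, hκj, hκP⟩ := Submodule.exists_le_ker_of_notMem hnot
    have hκj1 := zmod2_eq_one hκj
    have hκ : ∀ i ∈ P, κ (g i) = 0 := fun i hi =>
      hκP (Submodule.subset_span ⟨i, by exact_mod_cast hi, rfl⟩)
    by_cases hXY : g j ∈ X ⊔ Y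
    · obtain ⟨x, hx, y, hy, hxy⟩ := Submodule.mem_sup.mp hXY
      by_cases hκx : κ x = 0
      · have hκy : κ y ≠ 0 := by
          rw [← hxy, map_add, hκx, zero_add] at hκj
          exact hκj
        obtain ⟨K₁, K₂, h1, h2, h3, h4, h5⟩ := partition_step (X := Y) (Y := X) (x := y) (y := x) hj
          hκj1 hκ (by rw [← hxy, add_comm]) hy hx hd.symm hκy IH
        exact ⟨K₂, K₁, h2, h1, by rw [Finset.union_comm, h3], h5, h4⟩
      · exact partition_step hj hκj1 hκ hxy.symm hx hy hd hκx IH
    · have hd' : Disjoint (X ⊔ Submodule.span (ZMod 2) {g j}) Y := by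
        rw [Submodule.disjoint_def]
        intro z hz hzY
        obtain ⟨x, hx, v, hv, rfl⟩ := Submodule.mem_sup.mp hz
        obtain ⟨c, rfl⟩ := Submodule.mem_span_singleton.mp hv
        by_cases hc : c = 0
        · subst hc
          rw [zero_smul, add_zero] at hzY ⊢
          exact Submodule.disjoint_def.mp hd x hx hzY
        · exfalso
          rw [zmod2_eq_one hc, one_smul] at hzY
          apply hXY
          rw [Submodule.mem_sup]
          exact ⟨-x, X.neg_mem hx, _, hzY, by abel⟩
      obtain ⟨K₁, K₂, hK₁, hK₂, hK, h₁, h₂⟩ := IH _ _ hd'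
      refine ⟨insert j K₁, K₂, Finset.insert_subset_insert _ hK₁,
        hK₂.trans (Finset.subset_insert _ _), by rw [Finset.insert_union, hK], ?_, h₂⟩
      refine indepMod_insert (fun h => hj (hK₁ h)) h₁ le_sup_left
        ((le_sup_right : _ ≤ X ⊔ _) (Submodule.mem_span_singleton_self _)) ?_
      intro h
      exact hXY ((le_sup_left : X ≤ X ⊔ Y) h)

/-- Discarding few elements keeps independence modulo a larger subspace. -/
theorem exists_discard [DecidableEq ι] (A : Submodule (ZMod 2) V) (g : ι → V) (S : Finset V) :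
    ∀ K : Finset ι, IndepMod A K g → ∃ K' ⊆ K, (K \ K').card ≤ S.card ∧
      IndepMod (A ⊔ Submodule.span (ZMod 2) (S : Set V)) K' g := by
  classical
  induction S using Finset.induction_on with
  | empty =>
    intro K hK
    refine ⟨K, subset_rfl, by simp, ?_⟩
    simpa using hK
  | insert s S hs IH =>
    intro K hK
    obtain ⟨K₁, hK₁, hcard, hind⟩ := IH K hK
    set B := A ⊔ Submodule.span (ZMod 2) (S : Set V) with hB
    have hB' : A ⊔ Submodule.span (ZMod 2) ((insert s S : Finset V) : Set V)
        = B ⊔ Submodule.span (ZMod 2) {s} := by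
      rw [Finset.coe_insert, Submodule.span_insert, hB, sup_assoc, sup_comm (Submodule.span _ {s})]
    rw [hB']
    by_cases h : IndepMod (B ⊔ Submodule.span (ZMod 2) {s}) K₁ g
    · refine ⟨K₁, hK₁, hcard.trans (Finset.card_le_card (Finset.subset_insert _ _)), h⟩
    · unfold IndepMod at h
      push Not at h
      obtain ⟨c, hc, k₀, hk₀, hck₀⟩ := h
      obtain ⟨b, hb, v, hv, hbv⟩ := Submodule.mem_sup.mp hc
      obtain ⟨l, rfl⟩ := Submodule.mem_span_singleton.mp hv
      have hl : l ≠ 0 := by
        rintro rfl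
        rw [zero_smul, add_zero] at hbv
        rw [← hbv] at hc
        exact hck₀ (hind c (by rw [← hbv]; exact hb) k₀ hk₀)
      have hl1 := zmod2_eq_one hl
      subst hl1
      rw [one_smul] at hbv
      refine ⟨K₁.erase k₀, (Finset.erase_subset _ _).trans hK₁, ?_, ?_⟩
      · have h1 : K \ K₁.erase k₀ ⊆ insert k₀ (K \ K₁) := by
          intro i hi
          simp only [Finset.mem_sdiff, Finset.mem_erase, not_and, Finset.mem_insert] at hi ⊢
          by_cases hik : i = k₀
          · exact Or.inl hik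
          · exact Or.inr ⟨hi.1, hi.2 hik⟩
        calc (K \ K₁.erase k₀).card ≤ (insert k₀ (K \ K₁)).card := Finset.card_le_card h1
          _ ≤ (K \ K₁).card + 1 := Finset.card_insert_le _ _
          _ ≤ S.card + 1 := by omega
          _ = (insert s S).card := (Finset.card_insert_of_notMem hs).symm
      · intro d hd j hj
        obtain ⟨b', hb', v', hv', hbv'⟩ := Submodule.mem_sup.mp hd
        obtain ⟨l', rfl⟩ := Submodule.mem_span_singleton.mp hv'
        have hjK : j ∈ K₁ := Finset.mem_of_mem_erase hj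
        have hjk : j ≠ k₀ := Finset.ne_of_mem_erase hj
        -- extend d by zero at k₀ and subtract l' times c
        have h2 : ∑ i ∈ K₁, ((if i = k₀ then 0 else d i) - l' * c i) • g i ∈ B := by
          have h3 : ∑ i ∈ K₁, ((if i = k₀ then 0 else d i) - l' * c i) • g i
              = b' - l' • b := by
            have h4 : ∑ i ∈ K₁, (if i = k₀ then (0 : ZMod 2) else d i) • g i
                = ∑ i ∈ K₁.erase k₀, d i • g i := by
              rw [← Finset.add_sum_erase _ _ hk₀]
              simp only [if_true, zero_smul, zero_add]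
              refine Finset.sum_congr rfl fun i hi => ?_
              simp [Finset.ne_of_mem_erase hi]
            simp_rw [sub_smul, mul_smul]
            rw [Finset.sum_sub_distrib, ← Finset.smul_sum, h4, ← hbv, ← hbv', smul_add]
            abel
          rw [h3]
          exact B.sub_mem hb' (B.smul_mem _ hb)
        have h5 := hind _ h2
        have h6 := h5 k₀ hk₀
        simp only [if_true, zero_sub, neg_eq_zero, mul_eq_zero, hck₀, or_false] at h6
        have h7 := h5 j hjK
        simpa [hjk, h6] using h7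

end Pool.Agent.Helper332.CC
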