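import Pool.Agent.Helper332.CC1

set_option autoImplicit false

namespace Pool.Agent.Helper332.CC

open Submodule

variable {V : Type*} [AddCommGroup V] [Module (ZMod 2) V]

/-- A choice function is valid for W when the chosen vectors are independent modulo W. -/
def Valid (h : ℕ × Bool → V) (W : Submodule (ZMod 2) V) (c : ℕ → Bool) : Prop :=
  ∀ l : ℕ × Bool →₀ ZMod 2, (∀ i, l i ≠ 0 → c i.1 = i.2) →
    Finsupp.linearCombination (ZMod 2) h l ∈ W → l = 0

variable {h : ℕ × Bool → V}

theorem span_finite (F : Finset V) : ((span (ZMod 2) (F : Set V) : Submodule (ZMod 2) V) : Set V).Finite := by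
  have h1 : Module.Finite (ZMod 2) (span (ZMod 2) (F : Set V)) :=
    Module.Finite.span_of_finite (ZMod 2) F.finite_toSet
  have h2 : Finite (span (ZMod 2) (F : Set V)) := Module.finite_of_finite (ZMod 2)
  exact Set.toFinite _

theorem exists_valid_cofinite (hh : LinearIndependent (ZMod 2) h) (F : Finset V) (c : ℕ → Bool)
    (hc : Valid h (span (ZMod 2) (F : Set V)) c) (t : Bool) :
    ∃ c', Valid h (span (ZMod 2) (F : Set V)) c' ∧ {n | c' n ≠ t}.Finite := by
  classical
  have hL : {l : ℕ × Bool →₀ ZMod 2 | Finsupp.linearCombination (ZMod 2) h l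
      ∈ span (ZMod 2) (F : Set V)}.Finite :=
    (span_finite F).preimage (Set.injOn_of_injective hh)
  set L := {l : ℕ × Bool →₀ ZMod 2 | Finsupp.linearCombination (ZMod 2) h l
      ∈ span (ZMod 2) (F : Set V)} with hLdef
  let N : Set ℕ := ⋃ l ∈ L, ((l.support.image Prod.fst : Finset ℕ) : Set ℕ)
  have hN : N.Finite := hL.biUnion fun l _ => Finset.finite_toSet _
  refine ⟨fun n => if n ∈ N then c n else t, ?_, ?_⟩
  · intro l hl hlW
    refine hc l ?_ hlW
    intro i hi
    have h1 : i.1 ∈ N := by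
      refine Set.mem_biUnion (show l ∈ L from hlW) ?_
      simp only [Finset.coe_image, Set.mem_image, Finset.mem_coe, Finsupp.mem_support_iff]
      exact ⟨i, hi, rfl⟩
    have h2 := hl i hi
    simpa [h1] using h2
  · refine hN.subset ?_
    intro n hn
    by_contra h
    apply hn
    simp [h]

theorem exists_valid_card (hh : LinearIndependent (ZMod 2) h) (F : Finset V) (c : ℕ → Bool)
    (hc : Valid h (span (ZMod 2) (F : Set V)) c) (t : Bool) :
    ∃ c', Valid h (span (ZMod 2) (F : Set V)) c' ∧ ∃ B : Finset ℕ, (∀ n, c' n ≠ t ↔ n ∈ B) ∧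
      B.card ≤ F.card := by
  classical
  let p : ℕ → Prop := fun k => ∃ c', Valid h (span (ZMod 2) (F : Set V)) c' ∧
    ∃ B : Finset ℕ, (∀ n, c' n ≠ t ↔ n ∈ B) ∧ B.card = k
  have hp : ∃ k, p k := by
    obtain ⟨c', hc', hfin⟩ := exists_valid_cofinite hh F c hc t
    exact ⟨_, c', hc', hfin.toFinset, fun n => by simp, rfl⟩
  obtain ⟨c', hc', B, hB, hBk⟩ := Nat.find_spec hp
  refine ⟨c', hc', B, hB, ?_⟩
  have hmin : ∀ n ∈ B, ∃ l : ℕ × Bool →₀ ZMod 2,
      (∀ i, l i ≠ 0 → Function.update c' n t i.1 = i.2) ∧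
      Finsupp.linearCombination (ZMod 2) h l ∈ span (ZMod 2) (F : Set V) ∧ l ≠ 0 := by
    intro n hn
    have h1 : ¬ Valid h (span (ZMod 2) (F : Set V)) (Function.update c' n t) := by
      intro hval
      refine Nat.find_min hp (m := (B.erase n).card) ?_ ⟨_, hval, B.erase n, ?_, rfl⟩
      · rw [← hBk]
        exact Finset.card_erase_lt_of_mem hn
      · intro m
        by_cases hm : m = n
        · subst hm; simp
        · rw [Function.update_of_ne hm, hB m]
          simp [hm]
    unfold Valid at h1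
    push Not at h1
    exact h1
  choose w hw1 hw2 hw3 using hmin
  have hdiag : ∀ n (hn : n ∈ B), w n hn (n, t) = 1 := by
    intro n hn
    apply zmod2_eq_one
    intro h0
    apply hw3 n hn
    refine hc' _ ?_ (hw2 n hn)
    intro i hi
    have h1 := hw1 n hn i hi
    by_cases hin : i.1 = n
    · exfalso
      rw [hin, Function.update_self] at h1
      apply hi
      have : i = (n, t) := Prod.ext hin h1.symm
      rw [this]; exact h0
    · rwa [Function.update_of_ne hin] at h1
  have hoff : ∀ n (hn : n ∈ B), ∀ m ∈ B, m ≠ n → w n hn (m, t) = 0 := by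
    intro n hn m hm hmn
    by_contra h0
    have h1 := hw1 n hn (m, t) h0
    simp only at h1
    rw [Function.update_of_ne hmn] at h1
    exact (hB m).mpr hm h1
  have hli : LinearIndependent (ZMod 2) (fun n : B => w n.1 n.2) := by
    rw [Fintype.linearIndependent_iff]
    intro a ha n
    have h1 := DFunLike.congr_fun ha (n.1, t)
    rw [Finsupp.finsetSum_apply, Finset.sum_eq_single n] at h1
    · simpa [hdiag n.1 n.2] using h1
    · intro m _ hmn
      have h2 := hoff m.1 m.2 n.1 n.2 (fun h => hmn (Subtype.ext h).symm)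
      simp [h2]
    · intro hn; exact absurd (Finset.mem_univ _) hn
  have hli2 := hli.map' (Finsupp.linearCombination (ZMod 2) h) (LinearMap.ker_eq_bot.mpr hh)
  have hle := linearIndependent_le_span' _ hli2 (F : Set V) (by
    rintro _ ⟨n, rfl⟩
    exact hw2 n.1 n.2)
  simpa using hle

theorem valid_step (hh : LinearIndependent (ZMod 2) h) (F : Finset V) (c : ℕ → Bool)
    (hc : Valid h (span (ZMod 2) (F : Set V)) c) (t : Bool) {ι : Type*} [DecidableEq ι]
    [DecidableEq V] (K : Finset ι) (g : ι → V)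
    (hK : IndepMod (span (ZMod 2) (Set.range fun n => h (n, t))) K g) :
    ∃ K' ⊆ K, (K \ K').card ≤ 2 * F.card ∧
      ∃ c', Valid h (span (ZMod 2) ((F ∪ K'.image g : Finset V) : Set V)) c' := by
  obtain ⟨c', hc', B, hB, hBF⟩ := exists_valid_card hh F c hc t
  set S : Finset V := F ∪ B.image (fun n => h (n, !t)) with hS
  have hScard : S.card ≤ 2 * F.card := by
    calc S.card ≤ F.card + (B.image (fun n => h (n, !t))).card := Finset.card_union_le _ _
      _ ≤ F.card + B.card := by gcongr; exact Finset.card_image_le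
      _ ≤ 2 * F.card := by omega
  obtain ⟨K', hK', hcard, hind⟩ := exists_discard _ g S K hK
  refine ⟨K', hK', hcard.trans hScard, c', ?_⟩
  intro l hl hlW
  have hmem : Finsupp.linearCombination (ZMod 2) h l
      ∈ span (ZMod 2) (Set.range fun n => h (n, t)) ⊔ span (ZMod 2) (S : Set V) := by
    rw [Finsupp.linearCombination_apply, Finsupp.sum]
    refine Submodule.sum_mem _ fun i hi => Submodule.smul_mem _ _ ?_
    rw [Finsupp.mem_support_iff] at hi
    have h1 := hl i hi
    by_cases hit : i.2 = t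
    · refine Submodule.mem_sup_left (subset_span ⟨i.1, ?_⟩)
      show h (i.1, t) = h i
      rw [← hit]
    · refine Submodule.mem_sup_right (subset_span ?_)
      have h2 : i.1 ∈ B := by
        rw [← hB, h1]; exact hit
      have h3 : i = (i.1, !t) := by
        refine Prod.ext rfl ?_
        show i.2 = !t
        revert hit
        cases i.2 <;> cases t <;> simp
      rw [hS, Finset.coe_union]
      right
      rw [Finset.coe_image]
      refine ⟨i.1, by exact_mod_cast h2, ?_⟩
      show h (i.1, !t) = h i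
      rw [← h3]
  rw [Finset.coe_union, span_union] at hlW
  obtain ⟨w, hw, v, hv, hwv⟩ := Submodule.mem_sup.mp hlW
  rw [Finset.coe_image] at hv
  obtain ⟨a, ha⟩ : ∃ a : ι → ZMod 2, ∑ i ∈ K', a i • g i = v := by
    obtain ⟨a, ha⟩ := Submodule.mem_span_image_finset_iff_exists_fun (ZMod 2) |>.mp hv
    refine ⟨fun i => if hi : i ∈ K' then a ⟨i, hi⟩ else 0, ?_⟩
    rw [← ha, ← Finset.sum_coe_sort]
    refine Finset.sum_congr rfl fun i _ => ?_
    simp
  have h4 : ∑ i ∈ K', a i • g i ∈ span (ZMod 2) (Set.range fun n => h (n, t)) ⊔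
      span (ZMod 2) (S : Set V) := by
    rw [ha]
    have h5 : v = Finsupp.linearCombination (ZMod 2) h l - w := by rw [← hwv]; abel
    rw [h5]
    refine Submodule.sub_mem _ hmem (Submodule.mem_sup_right (span_mono ?_ hw))
    rw [hS, Finset.coe_union]
    exact Set.subset_union_left
  have h6 := hind a h4
  have h7 : v = 0 := by
    rw [← ha]
    exact Finset.sum_eq_zero fun i hi => by rw [h6 i hi, zero_smul]
  rw [h7, add_zero] at hwv
  exact hc' l hl (by rw [← hwv]; exact hw)

theorem valid_bot (hh : LinearIndependent (ZMod 2) h) (c : ℕ → Bool) :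
    Valid h (span (ZMod 2) ((∅ : Finset V) : Set V)) c := by
  intro l _ hl
  rw [Finset.coe_empty, span_empty, mem_bot] at hl
  exact linearIndependent_iff.mp hh l hl

theorem isClosed_valid (W : Submodule (ZMod 2) V) : IsClosed {c : ℕ → Bool | Valid h W c} := by
  have h1 : {c : ℕ → Bool | Valid h W c}ᶜ = ⋃ l ∈ {l : ℕ × Bool →₀ ZMod 2 |
      Finsupp.linearCombination (ZMod 2) h l ∈ W ∧ l ≠ 0}, ⋂ i ∈ l.support,
      {c : ℕ → Bool | c i.1 = i.2} := by
    ext c
    simp only [Set.mem_compl_iff, Set.mem_ofPred_eq, Set.mem_iUnion, Set.mem_iInter, Valid,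
      Finsupp.mem_support_iff, exists_prop]
    push Not
    constructor
    · rintro ⟨l, h1, h2, h3⟩
      exact ⟨l, ⟨h2, h3⟩, h1⟩
    · rintro ⟨l, ⟨h2, h3⟩, h1⟩
      exact ⟨l, h1, h2, h3⟩
  rw [← isOpen_compl_iff, h1]
  refine isOpen_biUnion fun l _ => ?_
  refine isOpen_biInter_finset fun i _ => ?_
  have h2 : IsOpen ((fun c : ℕ → Bool => c i.1) ⁻¹' {i.2}) :=
    (isOpen_discrete _).preimage (continuous_apply i.1)
  exact h2

/-- The block process. -/
theorem block_process (hh : LinearIndependent (ZMod 2) h) (g : ℕ → ℕ → V) (τ : ℕ → Bool)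
    (K : ℕ → Finset ℕ)
    (hK : ∀ m, IndepMod (span (ZMod 2) (Set.range fun n => h (n, τ m))) (K m) (g m)) :
    ∃ K' : ℕ → Finset ℕ, (∀ m, K' m ⊆ K m) ∧
      (∀ m, (K m \ K' m).card ≤ 2 * ∑ i ∈ Finset.range m, (K i).card) ∧
      ∃ c, Valid h (span (ZMod 2) (⋃ m, g m '' (K' m : Set ℕ))) c := by
  classical
  have step : ∀ (m : ℕ) (st : {F : Finset V // ∃ c, Valid h (span (ZMod 2) (F : Set V)) c}),
      ∃ K' ⊆ K m, (K m \ K').card ≤ 2 * st.1.card ∧
      ∃ c', Valid h (span (ZMod 2) ((st.1 ∪ K'.image (g m) : Finset V) : Set V)) c' := by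
    intro m st
    obtain ⟨c, hc⟩ := st.2
    exact valid_step hh st.1 c hc (τ m) (K m) (g m) (hK m)
  choose κ hκ1 hκ2 hκ3 using step
  let st : ℕ → {F : Finset V // ∃ c, Valid h (span (ZMod 2) (F : Set V)) c} := fun m =>
    Nat.rec ⟨∅, fun _ => true, valid_bot hh _⟩ (fun m s => ⟨s.1 ∪ (κ m s).image (g m), hκ3 m s⟩) m
  have hst : ∀ m, (st (m+1)).1 = (st m).1 ∪ (κ m (st m)).image (g m) := fun m => rfl
  have hcard : ∀ m, (st m).1.card ≤ ∑ i ∈ Finset.range m, (K i).card := by
    intro m
    induction m with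
    | zero => simp [st]
    | succ m ih =>
      rw [hst, Finset.sum_range_succ]
      refine (Finset.card_union_le _ _).trans ?_
      gcongr
      exact Finset.card_image_le.trans (Finset.card_le_card (hκ1 _ _))
  have hmono : Monotone (fun m => ((st m).1 : Set V)) := by
    refine monotone_nat_of_le_succ fun m => ?_
    rw [hst, Finset.coe_union]
    exact Set.subset_union_left
  refine ⟨fun m => κ m (st m), fun m => hκ1 _ _, fun m => (hκ2 m (st m)).trans ?_, ?_⟩
  · gcongr
    exact hcard m
  · have hC : ∀ m, IsClosed {c : ℕ → Bool | Valid h (span (ZMod 2) ((st m).1 : Set V)) c} :=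
      fun m => isClosed_valid _
    have hne : (⋂ m, {c : ℕ → Bool | Valid h (span (ZMod 2) ((st m).1 : Set V)) c}).Nonempty := by
      refine IsCompact.nonempty_iInter_of_sequence_nonempty_isCompact_isClosed _ ?_ ?_ ?_ hC
      · intro m c hc l hl hlW
        exact hc l hl (span_mono (hmono (Nat.le_succ m)) hlW)
      · intro m
        exact (st m).2
      · exact (hC 0).isCompact
    obtain ⟨c, hc⟩ := hne
    refine ⟨c, ?_⟩
    intro l hl hlW
    have h1 : (⋃ m, g m '' (κ m (st m) : Set ℕ)) ⊆ ⋃ m, ((st m).1 : Set V) := by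
      refine Set.iUnion_subset fun m => ?_
      refine Set.Subset.trans ?_ (Set.subset_iUnion _ (m+1))
      rw [hst, Finset.coe_union, Finset.coe_image]
      exact Set.subset_union_right
    have h2 := span_mono (R := ZMod 2) h1 hlW
    rw [span_iUnion] at h2
    rw [Submodule.mem_iSup_of_directed _ (Monotone.directed_le fun a b hab =>
      span_mono (hmono hab))] at h2
    obtain ⟨m, hm⟩ := h2
    exact Set.mem_iInter.mp hc m l hl hm

theorem exists_functional {W : Submodule (ZMod 2) V} {c : ℕ → Bool} (hc : Valid h W c) :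
    ∃ φ : V →ₗ[ZMod 2] ZMod 2, (∀ w ∈ W, φ w = 0) ∧ ∀ n, φ (h (n, c n)) = 1 := by
  classical
  let Θ : (ℕ →₀ ZMod 2) →ₗ[ZMod 2] V ⧸ W :=
    Finsupp.linearCombination (ZMod 2) (fun n => W.mkQ (h (n, c n)))
  have hker : LinearMap.ker Θ = ⊥ := by
    rw [LinearMap.ker_eq_bot']
    intro l hl
    have h1 : Finsupp.linearCombination (ZMod 2) (fun n => h (n, c n)) l ∈ W := by
      have h2 : W.mkQ (Finsupp.linearCombination (ZMod 2) (fun n => h (n, c n)) l) = 0 := by
        rw [← hl]
        show _ = Finsupp.linearCombination (ZMod 2) (fun n => W.mkQ (h (n, c n))) l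
        rw [Finsupp.linearCombination_apply, Finsupp.linearCombination_apply, map_finsuppSum]
        rfl
      rwa [Submodule.mkQ_apply, Submodule.Quotient.mk_eq_zero] at h2
    let e : ℕ ↪ ℕ × Bool := ⟨fun n => (n, c n), fun a b hab => (Prod.ext_iff.mp hab).1⟩
    have h3 := hc (l.embDomain e) (by
      intro i hi
      by_cases hie : i ∈ Set.range e
      · obtain ⟨n, rfl⟩ := hie; rfl
      · exact absurd (Finsupp.embDomain_of_notMem_range _ _ _ hie) hi) (by
      rw [Finsupp.linearCombination_embDomain]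
      exact h1)
    exact Finsupp.embDomain_eq_zero.mp h3
  obtain ⟨ρ, hρ⟩ := LinearMap.exists_leftInverse_of_injective Θ hker
  refine ⟨(Finsupp.linearCombination (ZMod 2) (fun _ : ℕ => (1 : ZMod 2))) ∘ₗ ρ ∘ₗ W.mkQ, ?_, ?_⟩
  · intro w hw
    have : W.mkQ w = 0 := by rwa [Submodule.mkQ_apply, Submodule.Quotient.mk_eq_zero]
    simp only [LinearMap.comp_apply, this, map_zero]
  · intro n
    have h1 : W.mkQ (h (n, c n)) = Θ (Finsupp.single n 1) := by
      simp [Θ, Finsupp.linearCombination_single]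
    have h2 : ρ (Θ (Finsupp.single n 1)) = Finsupp.single n 1 := by
      have := LinearMap.congr_fun hρ (Finsupp.single n 1)
      simpa using this
    simp only [LinearMap.comp_apply, h1, h2, Finsupp.linearCombination_single]
    simp

end Pool.Agent.Helper332.CC
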