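import Pool.Agent.Helper332.CC2

set_option autoImplicit false

namespace Pool.Agent.Helper332.CC

open Cardinal Filter

/-- Terms: base points and formal limits of sequences of finite sums. -/
inductive Term : Type
  | base (n : ℕ) : Term
  | lim (s : ℕ → Finset ℕ) (f : ℕ → Term) : Term

/-- Arities of the two kinds of terms. -/
def Arity : ℕ ⊕ (ℕ → Finset ℕ) → Type := Sum.elim (fun _ => Empty) (fun _ => ℕ)

/-- Encoding of terms as well founded trees. -/
def toW : Term → WType Arity
  | .base n => ⟨Sum.inl n, fun e => (e : Empty).elim⟩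
  | .lim s f => ⟨Sum.inr s, fun i => toW (f i)⟩

theorem toW_injective : Function.Injective toW := by
  intro t
  induction t with
  | base n =>
    intro t' h
    cases t' with
    | base m =>
      simp only [toW, WType.mk.injEq, Sum.inl.injEq] at h
      rw [h.1]
    | lim s f => simp [toW] at h
  | lim s f ih =>
    intro t' h
    cases t' with
    | base m => simp [toW] at h
    | lim s' f' =>
      simp only [toW, WType.mk.injEq, Sum.inr.injEq] at h
      obtain ⟨rfl, h2⟩ := h
      congr 1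
      funext i
      exact ih i (congrFun (eq_of_heq h2) i)

theorem mk_term_le : #Term ≤ 𝔠 := by
  have h1 : #Term ≤ #(WType Arity) := Cardinal.mk_le_of_injective toW_injective
  refine h1.trans (WType.cardinalMk_le_of_le ?_)
  have h2 : ∀ a : ℕ ⊕ (ℕ → Finset ℕ), 𝔠 ^ #(Arity a) ≤ 𝔠 := by
    rintro (n | s)
    · show 𝔠 ^ #Empty ≤ 𝔠
      simpa using (Cardinal.nat_lt_continuum 1).le
    · show 𝔠 ^ #ℕ ≤ 𝔠
      simp
  calc (Cardinal.sum fun a : ℕ ⊕ (ℕ → Finset ℕ) => 𝔠 ^ #(Arity a))
      ≤ Cardinal.sum fun _ : ℕ ⊕ (ℕ → Finset ℕ) => 𝔠 := Cardinal.sum_le_sum _ _ h2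
    _ = #(ℕ ⊕ (ℕ → Finset ℕ)) * 𝔠 := by rw [Cardinal.sum_const']
    _ ≤ 𝔠 * 𝔠 := by
        gcongr
        simp
    _ = 𝔠 := by simp

theorem exists_embedding_term : ∃ j : Term → (ℕ → Bool), Function.Injective j := by
  have h1 : #Term ≤ #(ℕ → Bool) := by
    refine mk_term_le.trans ?_
    simp
  obtain ⟨e⟩ := h1
  exact ⟨e, e.injective⟩

/-- Code of an initial segment. -/
def code (x : ℕ → Bool) (n : ℕ) : ℕ := Encodable.encode (List.ofFn (fun i : Fin n => x i))

theorem code_eq {x y : ℕ → Bool} {n m : ℕ} (h : code x n = code y m) :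
    n = m ∧ ∀ i < n, x i = y i := by
  have h1 := Encodable.encode_injective h
  have h2 : n = m := by simpa using congrArg List.length h1
  subst h2
  refine ⟨rfl, fun i hi => ?_⟩
  have h3 := List.ofFn_injective h1
  exact congrFun h3 ⟨i, hi⟩

theorem infinite_range_code (x : ℕ → Bool) : (Set.range (code x)).Infinite :=
  Set.infinite_range_of_injective fun _ _ h => (code_eq h).1

theorem finite_inter_code {x y : ℕ → Bool} (hxy : x ≠ y) :
    (Set.range (code x) ∩ Set.range (code y)).Finite := by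
  obtain ⟨i, hi⟩ := Function.ne_iff.mp hxy
  refine ((Finset.range (i+1)).finite_toSet.image (code x)).subset ?_
  rintro _ ⟨⟨n, rfl⟩, m, hm⟩
  refine ⟨n, ?_, rfl⟩
  simp only [Finset.coe_range, Set.mem_Iio]
  by_contra h
  push Not at h
  exact hi ((code_eq hm.symm).2 i (by omega))

/-- Left ends of the blocks. -/
def bs : ℕ → ℕ
  | 0 => 0
  | m + 1 => bs m + (m + 1) * (bs m + 1)

/-- The blocks. -/
def P (m : ℕ) : Finset ℕ := Finset.Ico (bs m) (bs (m + 1))

theorem card_P (m : ℕ) : (P m).card = (m + 1) * (bs m + 1) := by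
  unfold P
  rw [Nat.card_Ico]
  show bs m + (m + 1) * (bs m + 1) - bs m = _
  omega

theorem bs_strictMono : StrictMono bs := by
  refine strictMono_nat_of_lt_succ fun m => ?_
  show bs m < bs m + (m + 1) * (bs m + 1)
  have : 0 < (m + 1) * (bs m + 1) := by positivity
  omega

theorem P_disjoint {k m m' : ℕ} (h : k ∈ P m) (h' : k ∈ P m') : m = m' := by
  unfold P at h h'
  rw [Finset.mem_Ico] at h h'
  rcases lt_trichotomy m m' with hlt | heq | hlt
  · have := bs_strictMono.monotone (show m + 1 ≤ m' from hlt)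
    omega
  · exact heq
  · have := bs_strictMono.monotone (show m' + 1 ≤ m from hlt)
    omega

theorem sum_card_P (m : ℕ) : ∑ i ∈ Finset.range m, (P i).card = bs m := by
  induction m with
  | zero => simp [bs]
  | succ m ih =>
    rw [Finset.sum_range_succ, ih, card_P]
    rfl

/-- Sets missing only few points of each block. -/
def Big (X : Set ℕ) : Prop :=
  ∃ L : ℕ, ∀ m, ∀ F : Finset ℕ, F ⊆ P m → (∀ k ∈ F, k ∉ X) → F.card ≤ L * (bs m + 1)

theorem Big.mono {X Y : Set ℕ} (h : Big X) (hXY : X ⊆ Y) : Big Y := by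
  obtain ⟨L, hL⟩ := h
  exact ⟨L, fun m F hF hk => hL m F hF fun k hkF hkX => hk k hkF (hXY hkX)⟩

theorem Big.inter {X Y : Set ℕ} (hX : Big X) (hY : Big Y) : Big (X ∩ Y) := by
  classical
  obtain ⟨L, hL⟩ := hX
  obtain ⟨L', hL'⟩ := hY
  refine ⟨L + L', fun m F hF hk => ?_⟩
  have h1 := hL m (F.filter (· ∉ X)) ((Finset.filter_subset _ _).trans hF)
    (fun k hk' => (Finset.mem_filter.mp hk').2)
  have h2 := hL' m (F.filter (· ∉ Y)) ((Finset.filter_subset _ _).trans hF)
    (fun k hk' => (Finset.mem_filter.mp hk').2)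
  have h3 : F ⊆ F.filter (· ∉ X) ∪ F.filter (· ∉ Y) := by
    intro k hkF
    rw [Finset.mem_union, Finset.mem_filter, Finset.mem_filter]
    by_cases hkX : k ∈ X
    · right
      exact ⟨hkF, fun hkY => hk k hkF ⟨hkX, hkY⟩⟩
    · left
      exact ⟨hkF, hkX⟩
  calc F.card ≤ _ := Finset.card_le_card h3
    _ ≤ _ := Finset.card_union_le _ _
    _ ≤ L * (bs m + 1) + L' * (bs m + 1) := by omega
    _ = (L + L') * (bs m + 1) := by ring

theorem Big.of_finite_compl {X : Set ℕ} (h : Xᶜ.Finite) : Big X := by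
  refine ⟨h.toFinset.card, fun m F _ hk => ?_⟩
  calc F.card ≤ h.toFinset.card := Finset.card_le_card fun k hkF => by
        simpa using hk k hkF
    _ ≤ h.toFinset.card * (bs m + 1) := Nat.le_mul_of_pos_right _ (by omega)

/-- The filter of big sets. -/
def bigFilter : Filter ℕ where
  sets := {X | Big X}
  univ_sets := Big.of_finite_compl (by simp)
  sets_of_superset := fun h hXY => Big.mono h hXY
  inter_sets := fun hX hY => Big.inter hX hY

theorem neBot_bigFilter {A : Set ℕ} (hA : A.Infinite) :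
    (bigFilter ⊓ 𝓟 {k | ∃ m ∈ A, k ∈ P m}).NeBot := by
  rw [inf_principal_neBot_iff]
  rintro X ⟨L, hL⟩
  obtain ⟨m, hmA, hm⟩ := hA.exists_gt L
  by_contra hne
  have h1 := hL m (P m) subset_rfl (fun k hk hkX => hne ⟨k, hkX, m, hmA, hk⟩)
  rw [card_P] at h1
  have h2 : L * (bs m + 1) < (m + 1) * (bs m + 1) := Nat.mul_lt_mul_of_pos_right (by omega) (by omega)
  omega

/-- The system of ultrafilters used in the construction. -/
theorem exists_ultrafilters : ∃ (p : Term → Ultrafilter ℕ) (A : Term → Set ℕ),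
    (∀ t X, Big X → X ∈ p t) ∧ (∀ t, {k | ∃ m ∈ A t, k ∈ P m} ∈ p t) ∧
    ∀ t t', t ≠ t' → (A t ∩ A t').Finite := by
  obtain ⟨j, hj⟩ := exists_embedding_term
  have hne : ∀ t, (bigFilter ⊓ 𝓟 {k | ∃ m ∈ Set.range (code (j t)), k ∈ P m}).NeBot :=
    fun t => neBot_bigFilter (infinite_range_code _)
  refine ⟨fun t => @Ultrafilter.of _ _ (hne t), fun t => Set.range (code (j t)), ?_, ?_, ?_⟩
  · intro t X hX
    have h1 := @Ultrafilter.of_le _ _ (hne t)
    exact h1 (mem_inf_of_left hX)
  · intro t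
    have h1 := @Ultrafilter.of_le _ _ (hne t)
    exact h1 (mem_inf_of_right (mem_principal_self _))
  · intro t t' htt'
    exact finite_inter_code (fun h => htt' (hj h))

/-- The set of subterms of a term. -/
def sub : Term → Set Term
  | .base n => {.base n}
  | .lim s f => insert (.lim s f) (⋃ i, sub (f i))

theorem self_mem_sub (t : Term) : t ∈ sub t := by
  cases t with
  | base n => exact rfl
  | lim s f => exact Set.mem_insert _ _

theorem countable_sub (t : Term) : (sub t).Countable := by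
  induction t with
  | base n => exact Set.countable_singleton _
  | lim s f ih => exact (Set.countable_iUnion ih).insert _

theorem closed_sub (t : Term) : ∀ s f, Term.lim s f ∈ sub t → ∀ i, f i ∈ sub t := by
  induction t with
  | base n =>
    intro s f h
    simp only [sub, Set.mem_singleton_iff] at h
    cases h
  | lim s' f' ih =>
    intro s f h i
    rcases h with h | h
    · cases h
      exact Or.inr (Set.mem_iUnion.mpr ⟨i, self_mem_sub _⟩)
    · obtain ⟨j, hj⟩ := Set.mem_iUnion.mp h
      exact Or.inr (Set.mem_iUnion.mpr ⟨j, ih j s f hj i⟩)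

theorem ne_lim (t : Term) : ∀ s f, t = Term.lim s f → ∀ i, f i ≠ t := by
  induction t with
  | base n => intro s f h; cases h
  | lim s' f' ih =>
    intro s f h i hi
    have h2 : s' = s ∧ f' = f := by simpa using h
    obtain ⟨rfl, rfl⟩ := h2
    exact ih i s' f' hi i rfl

end Pool.Agent.Helper332.CC
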