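import Pool.Agent.Helper332.CC3

set_option autoImplicit false

namespace Pool.Agent.Helper332.CC

open Filter Submodule

/-- The Boolean vector space on the set of terms. -/
abbrev E : Type := Term →₀ ZMod 2

/-- The n-th finite sum. -/
noncomputable def Fs (s : ℕ → Finset ℕ) (f : ℕ → Term) (n : ℕ) : E :=
  ∑ i ∈ s n, Finsupp.single (f i) 1

/-- The sequence of finite sums is independent. -/
def Good (s : ℕ → Finset ℕ) (f : ℕ → Term) : Prop := LinearIndependent (ZMod 2) (Fs s f)

/-- Linear extension of a function on terms. -/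
noncomputable def ev (ψ : Term → ZMod 2) : E →ₗ[ZMod 2] ZMod 2 :=
  Finsupp.linearCombination (ZMod 2) ψ

theorem ev_single (ψ : Term → ZMod 2) (t : Term) : ev ψ (Finsupp.single t 1) = ψ t := by
  simp [ev, Finsupp.linearCombination_single]

theorem ev_Fs (ψ : Term → ZMod 2) (s : ℕ → Finset ℕ) (f : ℕ → Term) (n : ℕ) :
    ev ψ (Fs s f n) = ∑ i ∈ s n, ψ (f i) := by
  simp [Fs, ev_single]

/-- The system of ultrafilters. -/
noncomputable def p : Term → Ultrafilter ℕ := exists_ultrafilters.choose

/-- The almost disjoint family. -/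
noncomputable def A : Term → Set ℕ := exists_ultrafilters.choose_spec.choose

theorem big_mem_p (t : Term) {X : Set ℕ} (hX : Big X) : X ∈ p t :=
  exists_ultrafilters.choose_spec.choose_spec.1 t X hX

theorem A_mem_p (t : Term) : {k | ∃ m ∈ A t, k ∈ P m} ∈ p t :=
  exists_ultrafilters.choose_spec.choose_spec.2.1 t

theorem A_inter {t t' : Term} (h : t ≠ t') : (A t ∩ A t').Finite :=
  exists_ultrafilters.choose_spec.choose_spec.2.2 t t' h

/-- The admissible functions. -/
def Psi : Set (Term → ZMod 2) :=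
  {ψ | ∀ s f, Good s f → ∀ᶠ n in (p (.lim s f) : Filter ℕ), ev ψ (Fs s f n) = ψ (.lim s f)}

open Classical in
/-- Recursive extension of a functional. -/
noncomputable def val (D : Set Term) (φ : E →ₗ[ZMod 2] ZMod 2) : Term → ZMod 2
  | .base n => φ (Finsupp.single (.base n) 1)
  | .lim s f => if Term.lim s f ∈ D then φ (Finsupp.single (.lim s f) 1) else
      if (∀ᶠ n in (p (.lim s f) : Filter ℕ), ∑ i ∈ s n, val D φ (f i) = 1) then 1 else 0

theorem val_of_mem (D : Set Term) (φ : E →ₗ[ZMod 2] ZMod 2) {t : Term} (ht : t ∈ D) :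
    val D φ t = φ (Finsupp.single t 1) := by
  cases t with
  | base n => simp [val]
  | lim s f => simp [val, ht]

theorem ev_val (D : Set Term) (φ : E →ₗ[ZMod 2] ZMod 2) (v : E) (hv : ∀ t ∈ v.support, t ∈ D) :
    ev (val D φ) v = φ v := by
  unfold ev
  rw [Finsupp.linearCombination_apply]
  conv_rhs => rw [← Finsupp.sum_single v, map_finsuppSum]
  refine Finsupp.sum_congr fun t ht => ?_
  rw [val_of_mem D φ (hv t ht), ← map_smul, Finsupp.smul_single, smul_eq_mul, mul_one]

theorem val_mem_Psi (D : Set Term) (hD : ∀ s f, Term.lim s f ∈ D → ∀ i, f i ∈ D)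
    (φ : E →ₗ[ZMod 2] ZMod 2)
    (hφ : ∀ s f, Term.lim s f ∈ D → Good s f → ∀ᶠ n in (p (.lim s f) : Filter ℕ),
      φ (Fs s f n) = φ (Finsupp.single (.lim s f) 1)) : val D φ ∈ Psi := by
  intro s f hsf
  by_cases hmem : Term.lim s f ∈ D
  · rw [val_of_mem D φ hmem]
    filter_upwards [hφ s f hmem hsf] with n hn
    rw [← hn, ev_Fs, Fs, map_sum]
    exact Finset.sum_congr rfl fun i _ => val_of_mem D φ (hD s f hmem i)
  · simp_rw [ev_Fs]
    by_cases h1 : ∀ᶠ n in (p (.lim s f) : Filter ℕ), ∑ i ∈ s n, val D φ (f i) = 1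
    · have h2 : val D φ (.lim s f) = 1 := by
        simp only [val, hmem, if_false]
        rw [if_pos h1]
      rw [h2]
      exact h1
    · have h2 : val D φ (.lim s f) = 0 := by
        simp only [val, hmem, if_false]
        rw [if_neg h1]
      rw [h2]
      have h3 := Ultrafilter.eventually_not.mpr h1
      filter_upwards [h3] with n hn
      by_contra h4
      exact hn (zmod2_eq_one h4)

/-- Good terms. -/
def GoodT : Term → Prop
  | .base _ => False
  | .lim s f => Good s f

/-- The relations attached to a term. -/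
noncomputable def gT : Term → ℕ → E
  | .base _ => fun _ => 0
  | .lim s f => fun k => Fs s f k + Finsupp.single (.lim s f) 1

theorem indep_gT (t : Term) (ht : GoodT t) (K : Finset ℕ) : IndepMod ⊥ K (gT t) := by
  cases t with
  | base n => exact ht.elim
  | lim s f =>
    intro c hc
    rw [Submodule.mem_bot] at hc
    simp only [gT, smul_add, Finset.sum_add_distrib] at hc
    have h1 : ∀ k, Fs s f k (.lim s f) = 0 := by
      intro k
      simp only [Fs, Finsupp.finsetSum_apply]
      refine Finset.sum_eq_zero fun i _ => ?_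
      rw [Finsupp.single_eq_of_ne]
      exact (ne_lim _ s f rfl i).symm
    have h2 : ∑ k ∈ K, c k = 0 := by
      have h3 := DFunLike.congr_fun hc (.lim s f)
      simpa [Finsupp.finsetSum_apply, h1] using h3
    have h4 : ∑ k ∈ K, c k • (Finsupp.single (Term.lim s f) (1 : ZMod 2)) = 0 := by
      rw [← Finset.sum_smul, h2, zero_smul]
    rw [h4, add_zero] at hc
    exact linearIndependent_iff'.mp ht K c hc

theorem exists_functional_D (h : ℕ × Bool → E) (hh : LinearIndependent (ZMod 2) h)
    (D : Set Term) (hDc : D.Countable) :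
    ∃ φ : E →ₗ[ZMod 2] ZMod 2, (∀ s f, Term.lim s f ∈ D → Good s f →
      ∀ᶠ n in (p (.lim s f) : Filter ℕ), φ (Fs s f n) = φ (Finsupp.single (.lim s f) 1)) ∧
      ∃ c : ℕ → Bool, ∀ n, φ (h (n, c n)) = 1 := by
  classical
  let D' : Set Term := {t | t ∈ D ∧ GoodT t}
  have hD'c : D'.Countable := hDc.mono fun t ht => ht.1
  obtain ⟨e, he⟩ := Set.countable_iff_exists_injOn.mp hD'c
  let A' : Term → Set ℕ := fun t => {m | m ∈ A t ∧ ∀ t' ∈ D', e t' < e t → m ∉ A t'}
  have hA' : ∀ t ∈ D', {k | ∃ m ∈ A' t, k ∈ P m} ∈ p t := by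
    intro t ht
    have hfin : (⋃ t' ∈ {t' | t' ∈ D' ∧ e t' < e t}, ⋃ m ∈ A t ∩ A t', (P m : Set ℕ)).Finite := by
      refine Set.Finite.biUnion ?_ ?_
      · refine Set.Finite.of_finite_image (f := e) ?_ (he.mono fun t' ht' => ht'.1)
        refine (Set.finite_Iio (e t)).subset ?_
        rintro _ ⟨t', ht', rfl⟩
        exact ht'.2
      · rintro t' ht'
        refine (A_inter ?_).biUnion fun m _ => Finset.finite_toSet _
        rintro rfl
        exact lt_irrefl _ ht'.2
    have h1 : (⋃ t' ∈ {t' | t' ∈ D' ∧ e t' < e t}, ⋃ m ∈ A t ∩ A t', (P m : Set ℕ))ᶜ ∈ p t :=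
      big_mem_p t (Big.of_finite_compl (by rwa [compl_compl]))
    filter_upwards [A_mem_p t, h1] with k hk hk'
    obtain ⟨m, hm, hkm⟩ := hk
    refine ⟨m, ⟨hm, ?_⟩, hkm⟩
    intro t' ht' hlt hmt'
    apply hk'
    exact Set.mem_biUnion (show t' ∈ {t' | t' ∈ D' ∧ e t' < e t} from ⟨ht', hlt⟩)
      (Set.mem_biUnion (show m ∈ A t ∩ A t' from ⟨hm, hmt'⟩) (by exact_mod_cast hkm))
  have hown : ∀ m : ℕ, ∃ o : Term, ∀ t ∈ D', m ∈ A' t → o = t := by
    intro m
    by_cases hex : ∃ t ∈ D', m ∈ A' t
    · obtain ⟨t₀, ht₀, hm₀⟩ := hex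
      refine ⟨t₀, fun t ht hm => ?_⟩
      by_contra hne
      rcases lt_trichotomy (e t₀) (e t) with hlt | heq | hlt
      · exact hm.2 t₀ ht₀ hlt hm₀.1
      · exact hne (he ht₀ ht heq)
      · exact hm₀.2 t ht hlt hm.1
    · exact ⟨.base 0, fun t ht hm => absurd ⟨t, ht, hm⟩ hex⟩
  choose own hown using hown
  -- the partition of blocks
  have hdisj : Disjoint (span (ZMod 2) (Set.range fun n => h (n, false)))
      (span (ZMod 2) (Set.range fun n => h (n, true))) := by
    have h1 : (Set.range fun n => h (n, false)) = h '' {i | i.2 = false} := by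
      ext v; constructor
      · rintro ⟨n, rfl⟩; exact ⟨(n, false), rfl, rfl⟩
      · rintro ⟨⟨n, b⟩, hb, rfl⟩
        simp only [Set.mem_ofPred_eq] at hb
        subst hb
        exact ⟨n, rfl⟩
    have h2 : (Set.range fun n => h (n, true)) = h '' {i | i.2 = true} := by
      ext v; constructor
      · rintro ⟨n, rfl⟩; exact ⟨(n, true), rfl, rfl⟩
      · rintro ⟨⟨n, b⟩, hb, rfl⟩
        simp only [Set.mem_ofPred_eq] at hb
        subst hb
        exact ⟨n, rfl⟩
    rw [h1, h2]
    refine hh.disjoint_span_image ?_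
    rw [Set.disjoint_left]
    intro i hi hi'
    simp only [Set.mem_ofPred_eq] at hi hi'
    rw [hi] at hi'
    cases hi'
  have hpart : ∀ (t : Term) (m : ℕ), ∃ K : Bool → Finset ℕ, (GoodT t →
      (∀ b, K b ⊆ P m) ∧ K false ∪ K true = P m ∧
      ∀ b, IndepMod (span (ZMod 2) (Set.range fun n => h (n, b))) (K b) (gT t)) := by
    intro t m
    by_cases ht : GoodT t
    · obtain ⟨K₁, K₂, h1, h2, h3, h4, h5⟩ := exists_partition (P m) (gT t) (indep_gT t ht (P m))
        _ _ hdisj
      refine ⟨fun b => match b with | false => K₁ | true => K₂, fun _ => ⟨?_, h3, ?_⟩⟩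
      · rintro (_ | _)
        · exact h1
        · exact h2
      · rintro (_ | _)
        · exact h4
        · exact h5
    · exact ⟨fun _ => ∅, fun h => absurd h ht⟩
  choose K hK using hpart
  have htype : ∀ t : Term, ∃ b : Bool, t ∈ D' → {k | ∃ m ∈ A' t, k ∈ K t m b} ∈ p t := by
    intro t
    by_cases ht : t ∈ D'
    · have h1 : {k | ∃ m ∈ A' t, k ∈ K t m false} ∪ {k | ∃ m ∈ A' t, k ∈ K t m true} ∈ p t := by
        filter_upwards [hA' t ht] with k hk
        obtain ⟨m, hm, hkm⟩ := hk
        rw [← (hK t m ht.2).2.1, Finset.mem_union] at hkm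
        rcases hkm with hkm | hkm
        · exact Or.inl ⟨m, hm, hkm⟩
        · exact Or.inr ⟨m, hm, hkm⟩
      rcases Ultrafilter.union_mem_iff.mp h1 with h2 | h2
      · exact ⟨false, fun _ => h2⟩
      · exact ⟨true, fun _ => h2⟩
    · exact ⟨true, fun h => absurd h ht⟩
  choose τ hτ using htype
  let KK : ℕ → Finset ℕ := fun m => if own m ∈ D' then K (own m) m (τ (own m)) else ∅
  have hKKind : ∀ m, IndepMod (span (ZMod 2) (Set.range fun n => h (n, τ (own m)))) (KK m)
      (gT (own m)) := by
    intro m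
    by_cases hm : own m ∈ D'
    · simp only [KK, hm, if_true]
      exact (hK (own m) m hm.2).2.2 _
    · simp only [KK, hm, if_false]
      intro c _ j hj
      exact absurd hj (Finset.notMem_empty j)
  have hKKsub : ∀ m, KK m ⊆ P m := by
    intro m
    by_cases hm : own m ∈ D'
    · simp only [KK, hm, if_true]
      exact (hK (own m) m hm.2).1 _
    · simp only [KK, hm, if_false]
      exact Finset.empty_subset _
  obtain ⟨K', hK'sub, hK'card, c, hc⟩ := block_process hh (fun m => gT (own m))
    (fun m => τ (own m)) KK hKKind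
  obtain ⟨φ, hφW, hφh⟩ := exists_functional hc
  refine ⟨φ, ?_, c, hφh⟩
  intro s f hD hgood
  have ht : Term.lim s f ∈ D' := ⟨hD, hgood⟩
  have hbig : Big {k | ∀ m, k ∈ P m → k ∉ KK m \ K' m} := by
    refine ⟨2, fun m F hF hk => ?_⟩
    have h1 : F ⊆ KK m \ K' m := by
      intro k hkF
      have h2 := hk k hkF
      simp only [Set.mem_ofPred_eq] at h2
      push Not at h2
      obtain ⟨m', hm', hk'⟩ := h2
      have h3 := P_disjoint hm' (hF hkF)
      subst h3
      exact hk'
    calc F.card ≤ _ := Finset.card_le_card h1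
      _ ≤ 2 * ∑ i ∈ Finset.range m, (KK i).card := hK'card m
      _ ≤ 2 * ∑ i ∈ Finset.range m, (P i).card := by
          gcongr with i _
          exact hKKsub i
      _ = 2 * bs m := by rw [sum_card_P]
      _ ≤ 2 * (bs m + 1) := by omega
  filter_upwards [hτ _ ht, big_mem_p (Term.lim s f) hbig] with k hk hk'
  obtain ⟨m, hm, hkm⟩ := hk
  have hom : own m = Term.lim s f := hown m _ ht hm
  have hkK : k ∈ KK m := by
    simp only [KK, hom, ht, if_true]
    exact hkm
  have hkK' : k ∈ K' m := by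
    by_contra hnot
    exact hk' m (hKKsub m hkK) (Finset.mem_sdiff.mpr ⟨hkK, hnot⟩)
  have h1 : φ (gT (own m) k) = 0 := by
    refine hφW _ (subset_span ?_)
    exact Set.mem_iUnion.mpr ⟨m, k, by exact_mod_cast hkK', rfl⟩
  rw [hom] at h1
  simp only [gT, map_add] at h1
  have h2 : ∀ a b : ZMod 2, a + b = 0 → a = b := by decide
  exact h2 _ _ h1

theorem exists_psi (u w : E) : ∃ ψ ∈ Psi, ∃ n₀ : ℕ, ∀ n ≥ n₀,
    ev ψ (Finsupp.single (.base (2 * n)) 1 + u) ≠ 0 ∨
    ev ψ (Finsupp.single (.base (2 * n + 1)) 1 + w) ≠ 0 := by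
  classical
  -- a bound for the base terms occurring in u and w
  obtain ⟨n₀, hn₀⟩ : ∃ n₀ : ℕ, ∀ n ≥ n₀, Term.base n ∉ u.support ∪ w.support := by
    have hfin : {n : ℕ | Term.base n ∈ u.support ∪ w.support}.Finite :=
      ((u.support ∪ w.support).finite_toSet).preimage (f := Term.base) (by
        intro a _ b _ hab
        simpa using hab)
    obtain ⟨N, hN⟩ := hfin.bddAbove
    exact ⟨N + 1, fun n hn hmem => by
      have := hN hmem
      omega⟩
  let x : ℕ × Bool → ℕ := fun i => 2 * (i.1 + n₀) + i.2.toNat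
  have hx : Function.Injective x := by
    rintro ⟨n, b⟩ ⟨m, b'⟩ hxx
    simp only [x] at hxx
    cases b <;> cases b' <;> simp at hxx ⊢ <;> omega
  have hxn : ∀ i, n₀ ≤ x i := by
    intro i
    simp only [x]
    omega
  let y : ℕ × Bool → E := fun i => if i.2 then w else u
  have hy : ∀ i j, y i (.base (x j)) = 0 := by
    intro i j
    have h1 := hn₀ (x j) (hxn j)
    simp only [Finset.mem_union, Finsupp.mem_support_iff, not_or, not_not] at h1
    simp only [y]
    split_ifs
    · exact h1.2
    · exact h1.1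
  let h : ℕ × Bool → E := fun i => Finsupp.single (.base (x i)) 1 + y i
  have hh : LinearIndependent (ZMod 2) h := by
    rw [linearIndependent_iff']
    intro s g hg i hi
    have h1 := DFunLike.congr_fun hg (.base (x i))
    rw [Finsupp.finsetSum_apply, Finset.sum_eq_single i] at h1
    · simpa [h, hy] using h1
    · intro j _ hji
      have h2 : Term.base (x i) ≠ Term.base (x j) := by
        intro h3
        exact hji (hx (by simpa using h3)).symm
      simp [h, hy, Finsupp.single_eq_of_ne h2]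
    · intro h2; exact absurd hi h2
  let D : Set Term := (⋃ n, sub (.base n)) ∪ ⋃ t ∈ (u.support ∪ w.support : Finset Term), sub t
  have hDc : D.Countable := (Set.countable_iUnion fun n => countable_sub _).union
    ((Finset.countable_toSet _).biUnion fun t _ => countable_sub t)
  have hDcl : ∀ s f, Term.lim s f ∈ D → ∀ i, f i ∈ D := by
    rintro s f (hsf | hsf) i
    · obtain ⟨n, hn⟩ := Set.mem_iUnion.mp hsf
      exact Or.inl (Set.mem_iUnion.mpr ⟨n, closed_sub _ s f hn i⟩)
    · obtain ⟨t, ht, hts⟩ := Set.mem_iUnion₂.mp hsf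
      exact Or.inr (Set.mem_iUnion₂.mpr ⟨t, ht, closed_sub _ s f hts i⟩)
  have hDb : ∀ n, Term.base n ∈ D := fun n => Or.inl (Set.mem_iUnion.mpr ⟨n, self_mem_sub _⟩)
  have hDs : ∀ t ∈ u.support ∪ w.support, t ∈ D := fun t ht =>
    Or.inr (Set.mem_iUnion₂.mpr ⟨t, ht, self_mem_sub _⟩)
  obtain ⟨φ, hφ, c, hc⟩ := exists_functional_D h hh D hDc
  refine ⟨val D φ, val_mem_Psi D hDcl φ hφ, n₀, ?_⟩
  have hval : ∀ i, ev (val D φ) (h i) = φ (h i) := by
    intro i
    refine ev_val D φ _ fun t ht => ?_
    have h1 := Finsupp.support_add ht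
    rw [Finset.mem_union] at h1
    rcases h1 with h1 | h1
    · have h2 := Finsupp.support_single_subset h1
      rw [Finset.mem_singleton] at h2
      rw [h2]
      exact hDb _
    · apply hDs
      rw [Finset.mem_union]
      simp only [y] at h1
      split_ifs at h1
      · exact Or.inr h1
      · exact Or.inl h1
  intro n hn
  have h1 := hc (n - n₀)
  rw [← hval] at h1
  cases hcn : c (n - n₀) with
  | false =>
    left
    rw [hcn] at h1
    have h2 : h (n - n₀, false) = Finsupp.single (.base (2 * n)) 1 + u := by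
      simp only [h, x, y]
      simp [Nat.sub_add_cancel hn]
    rw [h2] at h1
    rw [h1]
    decide
  | true =>
    right
    rw [hcn] at h1
    have h2 : h (n - n₀, true) = Finsupp.single (.base (2 * n + 1)) 1 + w := by
      simp only [h, x, y]
      simp [Nat.sub_add_cancel hn]
    rw [h2] at h1
    rw [h1]
    decide

end Pool.Agent.Helper332.CC
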