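import Pool.Agent.Helper332.CC4

set_option autoImplicit false

namespace Pool.Agent.Helper332.CC

open Filter Submodule Topology

/-- Evaluation of vectors at all admissible functions. -/
noncomputable def Φ : E →ₗ[ZMod 2] (Psi → ZMod 2) := LinearMap.pi (fun ψ => ev ψ.1)

theorem Φ_apply (v : E) (ψ : Psi) : Φ v ψ = ev ψ.1 v := rfl

/-- The group. -/
noncomputable def GG : AddSubgroup (Psi → ZMod 2) := (LinearMap.range Φ).toAddSubgroup

/-- The element of the group given by a vector. -/
noncomputable def toG (v : E) : GG := ⟨Φ v, ⟨v, rfl⟩⟩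

theorem toG_surjective : Function.Surjective toG := by
  rintro ⟨g, v, rfl⟩
  exact ⟨v, rfl⟩

theorem p_le_cofinite (t : Term) : (p t : Filter ℕ) ≤ cofinite := by
  intro X hX
  exact big_mem_p t (Big.of_finite_compl hX)

theorem exists_subseq (y : ℕ → E) (hy : (Set.range y).Infinite) :
    ∃ σ : ℕ → ℕ, Function.Injective σ ∧ LinearIndependent (ZMod 2) (y ∘ σ) := by
  obtain ⟨b, hb, hspan, hli⟩ := exists_linearIndependent (ZMod 2) (Set.range y)
  have hbinf : b.Infinite := by
    intro hfin
    apply hy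
    have h1 : ((span (ZMod 2) b : Submodule (ZMod 2) E) : Set E).Finite := by
      have := span_finite hfin.toFinset
      rwa [hfin.coe_toFinset] at this
    refine h1.subset ?_
    rw [hspan]
    exact subset_span
  let e := hbinf.natEmbedding
  have h1 : ∀ n, ∃ k, y k = (e n).1 := fun n => hb (e n).2
  choose σ hσ using h1
  have h2 : y ∘ σ = fun n => (e n).1 := funext hσ
  have h3 : LinearIndependent (ZMod 2) (y ∘ σ) := by
    rw [h2]
    exact hli.comp e e.injective
  refine ⟨σ, ?_, h3⟩
  intro m n hmn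
  exact h3.injective (by simp [hmn])

theorem exists_presentation (z : ℕ → E) : ∃ s f, ∀ n, Fs s f n = z n := by
  classical
  have hc : (insert (Term.base 0) (⋃ n, ((z n).support : Set Term))).Countable :=
    (Set.countable_iUnion fun n => Finset.countable_toSet _).insert _
  obtain ⟨f, hf⟩ := hc.exists_eq_range ⟨_, Set.mem_insert _ _⟩
  have hf' : ∀ n, ∀ u ∈ (z n).support, f (Function.invFun f u) = u := by
    intro n u hu
    apply Function.invFun_eq
    have h1 : u ∈ Set.range f := by
      rw [← hf]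
      exact Or.inr (Set.mem_iUnion.mpr ⟨n, by exact_mod_cast hu⟩)
    exact h1
  refine ⟨fun n => (z n).support.image (Function.invFun f), f, fun n => ?_⟩
  unfold Fs
  rw [Finset.sum_image]
  · conv_rhs => rw [← Finsupp.sum_single (z n), Finsupp.sum]
    refine Finset.sum_congr rfl fun u hu => ?_
    rw [hf' n u hu, zmod2_eq_one (Finsupp.mem_support_iff.mp hu)]
  · intro u hu v hv huv
    rw [← hf' n u (by exact_mod_cast hu), huv, hf' n v (by exact_mod_cast hv)]

theorem tendsto_toG {s : ℕ → Finset ℕ} {f : ℕ → Term} (h : Good s f) :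
    Tendsto (fun n => toG (Fs s f n)) (p (.lim s f) : Filter ℕ)
      (𝓝 (toG (Finsupp.single (.lim s f) 1))) := by
  rw [tendsto_subtype_rng, tendsto_pi_nhds]
  intro ψ
  refine tendsto_const_nhds.congr' ?_
  filter_upwards [ψ.2 s f h] with n hn
  show ev ψ.1 (Finsupp.single (.lim s f) 1) = ev ψ.1 (Fs s f n)
  rw [hn, ev_single]

theorem countablyCompact_GG : CountablyCompactSpace GG := by
  refine ⟨isCountablyCompact_iff_seq_clusterPt.mpr fun x _ => ?_⟩
  choose y hy using fun n => toG_surjective (x n)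
  by_cases hfin : (Set.range y).Finite
  · have h1 : (Set.range x).Finite := by
      have : x = toG ∘ y := funext fun n => (hy n).symm
      rw [this, Set.range_comp]
      exact hfin.image _
    obtain ⟨a, _, ha⟩ := h1.isCompact.exists_mapClusterPt (f := atTop) (u := x) (by
      rw [le_principal_iff, mem_map]
      exact Filter.univ_mem' fun n => ⟨n, rfl⟩)
    exact ⟨a, Set.mem_univ _, ha⟩
  · obtain ⟨σ, hσ, hli⟩ := exists_subseq y hfin
    obtain ⟨s, f, hsf⟩ := exists_presentation (y ∘ σ)
    have hgood : Good s f := by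
      have : Fs s f = y ∘ σ := funext hsf
      unfold Good
      rw [this]; exact hli
    refine ⟨toG (Finsupp.single (.lim s f) 1), Set.mem_univ _, ?_⟩
    have h1 := tendsto_toG hgood
    have h2 : (fun n => toG (Fs s f n)) = x ∘ σ := by
      funext n
      rw [hsf]
      exact hy (σ n)
    rw [h2] at h1
    refine h1.mapClusterPt.of_comp ?_
    rw [← Nat.cofinite_eq_atTop]
    exact (hσ.tendsto_cofinite).mono_left (p_le_cofinite _)

theorem not_countablyCompact_sq : ¬ CountablyCompactSpace (GG × GG) := by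
  intro hcc
  obtain ⟨⟨g₁, g₂⟩, -, hg⟩ := isCountablyCompact_iff_seq_clusterPt.mp
    hcc.isCountablyCompact_univ (fun n : ℕ =>
      ((toG (Finsupp.single (.base (2 * n)) 1), toG (Finsupp.single (.base (2 * n + 1)) 1)) :
        GG × GG)) (by simp)
  obtain ⟨u, rfl⟩ := toG_surjective g₁
  obtain ⟨w, rfl⟩ := toG_surjective g₂
  obtain ⟨ψ, hψ, n₀, hn₀⟩ := exists_psi u w
  let ψ' : Psi := ⟨ψ, hψ⟩
  have hc : Continuous (fun z : GG × GG => (z.1.1 ψ', z.2.1 ψ')) := by
    refine Continuous.prodMk ?_ ?_
    · exact (continuous_apply ψ').comp (continuous_subtype_val.comp continuous_fst)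
    · exact (continuous_apply ψ').comp (continuous_subtype_val.comp continuous_snd)
  have hU : (fun z : GG × GG => (z.1.1 ψ', z.2.1 ψ')) ⁻¹' {(ev ψ u, ev ψ w)} ∈
      𝓝 (toG u, toG w) :=
    ((isOpen_discrete _).preimage hc).mem_nhds rfl
  have hfreq := (mapClusterPt_iff_frequently.mp hg) _ hU
  obtain ⟨n, hn, hn'⟩ := (hfreq.and_eventually (eventually_ge_atTop n₀)).exists
  have h1 : (ev ψ (Finsupp.single (.base (2 * n)) 1), ev ψ (Finsupp.single (.base (2 * n + 1)) 1))
      = (ev ψ u, ev ψ w) := hn
  rw [Prod.mk.injEq] at h1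
  have h2 : ∀ a : ZMod 2, a + a = 0 := by decide
  rcases hn₀ n hn' with h3 | h3
  · apply h3
    rw [map_add, h1.1, h2]
  · apply h3
    rw [map_add, h1.2, h2]

end Pool.Agent.Helper332.CC
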