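import Mathlib

set_option autoImplicit false

namespace Pool.Agent.Helper332.Duality

open MeasureTheory Set

/-- `mFourier n y` is the value of the character `y ↦ ∑ n i • y i` on the circle. -/
theorem mFourier_eq {d : Type*} [Fintype d] (n : d → ℤ) (y : d → UnitAddCircle) :
    UnitAddTorus.mFourier n y = (AddCircle.toCircle (∑ i, n i • y i) : ℂ) := by
  classical
  have h : ∀ s : Finset d, (∏ i ∈ s, fourier (n i) (y i) : ℂ)
      = (AddCircle.toCircle (∑ i ∈ s, n i • y i) : ℂ) := by
    intro s
    induction s using Finset.induction_on with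
    | empty => simp
    | insert a s ha ih =>
      rw [Finset.prod_insert ha, Finset.sum_insert ha, ih, AddCircle.toCircle_add, fourier_apply]
      simp
  exact h Finset.univ

theorem fin_duality {d : Type*} [Fintype d] (M : AddSubgroup (d → UnitAddCircle))
    (hM : IsClosed (M : Set (d → UnitAddCircle))) (x : d → UnitAddCircle)
    (hx : ∀ n : d → ℤ, (∀ m ∈ M, ∑ i, n i • m i = 0) → ∑ i, n i • x i = 0) : x ∈ M := by
  classical
  by_contra hxM
  have : CompactSpace M := isCompact_iff_compactSpace.mp hM.isCompact
  let μ : Measure M := Measure.addHaarMeasure ⊤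
  have hprob : IsProbabilityMeasure μ := ⟨by
    have := Measure.addHaarMeasure_self (K₀ := (⊤ : TopologicalSpace.PositiveCompacts M))
    simpa [μ] using this⟩
  -- the two functionals agree on characters
  have hchar : ∀ n : d → ℤ, ∫ m : M, UnitAddTorus.mFourier n (x + (m : d → UnitAddCircle)) ∂μ
      = ∫ m : M, UnitAddTorus.mFourier n (m : d → UnitAddCircle) ∂μ := by
    intro n
    have hmul : ∀ m : d → UnitAddCircle, UnitAddTorus.mFourier n (x + m)
        = UnitAddTorus.mFourier n x * UnitAddTorus.mFourier n m := by
      intro m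
      rw [mFourier_eq, mFourier_eq, mFourier_eq, ← Circle.coe_mul, ← AddCircle.toCircle_add,
        ← Finset.sum_add_distrib]
      simp [smul_add]
    simp_rw [hmul, integral_const_mul]
    by_cases h : ∀ m ∈ M, ∑ i, n i • m i = 0
    · rw [mFourier_eq n x, hx n h]
      simp
    · push Not at h
      obtain ⟨m₀, hm₀, hne⟩ := h
      have hzero : ∫ m : M, UnitAddTorus.mFourier n (m : d → UnitAddCircle) ∂μ = 0 := by
        have hinv : ∫ m : M, UnitAddTorus.mFourier n (((⟨m₀, hm₀⟩ : M) + m : M) :
            d → UnitAddCircle) ∂μ = ∫ m : M, UnitAddTorus.mFourier n (m : d → UnitAddCircle) ∂μ :=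
          integral_add_left_eq_self (μ := μ)
            (fun m : M => UnitAddTorus.mFourier n (m : d → UnitAddCircle)) (⟨m₀, hm₀⟩ : M)
        have hmul' : ∀ m : M, UnitAddTorus.mFourier n (((⟨m₀, hm₀⟩ : M) + m : M) :
            d → UnitAddCircle) = UnitAddTorus.mFourier n m₀
              * UnitAddTorus.mFourier n (m : d → UnitAddCircle) := by
          intro m
          rw [AddSubgroup.coe_add, mFourier_eq, mFourier_eq, mFourier_eq, ← Circle.coe_mul,
            ← AddCircle.toCircle_add, ← Finset.sum_add_distrib]
          simp [smul_add]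
        simp_rw [hmul', integral_const_mul] at hinv
        have hne' : UnitAddTorus.mFourier n m₀ ≠ 1 := by
          rw [mFourier_eq]
          intro h1
          apply hne
          have : AddCircle.toCircle (∑ i, n i • m₀ i)
              = AddCircle.toCircle (0 : UnitAddCircle) := by
            rw [AddCircle.toCircle_zero]
            exact Circle.ext (by simpa using h1)
          exact AddCircle.injective_toCircle one_ne_zero this
        have : (UnitAddTorus.mFourier n m₀ - 1)
            * ∫ m : M, UnitAddTorus.mFourier n (m : d → UnitAddCircle) ∂μ = 0 := by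
          rw [sub_mul, hinv, one_mul, sub_self]
        rcases mul_eq_zero.mp this with h | h
        · exact absurd (sub_eq_zero.mp h) hne'
        · exact h
      rw [hzero, mul_zero]
  have hint : ∀ F : C(d → UnitAddCircle, ℂ), Integrable (fun m : M => F (m : d → UnitAddCircle)) μ := by
    intro F
    refine Integrable.mono' (integrable_const ‖F‖) ?_ (Filter.Eventually.of_forall fun m => F.norm_coe_le_norm _)
    exact (F.continuous.comp continuous_subtype_val).aestronglyMeasurable
  have hint' : ∀ F : C(d → UnitAddCircle, ℂ),
      Integrable (fun m : M => F (x + (m : d → UnitAddCircle))) μ := by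
    intro F
    refine Integrable.mono' (integrable_const ‖F‖) ?_ (Filter.Eventually.of_forall fun m => F.norm_coe_le_norm _)
    exact (F.continuous.comp (continuous_const.add continuous_subtype_val)).aestronglyMeasurable
  -- hence on the span
  have hspan : ∀ F ∈ Submodule.span ℂ (range (UnitAddTorus.mFourier (d := d))),
      ∫ m : M, F (x + (m : d → UnitAddCircle)) ∂μ = ∫ m : M, F (m : d → UnitAddCircle) ∂μ := by
    intro F hF
    induction hF using Submodule.span_induction with
    | mem F hF =>
      obtain ⟨n, rfl⟩ := hF
      exact hchar n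
    | zero => simp
    | add F G _ _ hF hG =>
      simp only [ContinuousMap.add_apply]
      rw [integral_add (hint' F) (hint' G), integral_add (hint F) (hint G), hF, hG]
    | smul c F _ hF =>
      simp only [ContinuousMap.smul_apply]
      rw [integral_smul, integral_smul, hF]
  -- hence everywhere
  have hall : ∀ F : C(d → UnitAddCircle, ℂ),
      ∫ m : M, F (x + (m : d → UnitAddCircle)) ∂μ = ∫ m : M, F (m : d → UnitAddCircle) ∂μ := by
    intro F
    rw [← sub_eq_zero, ← norm_le_zero_iff]
    refine le_of_forall_pos_le_add fun ε hε => ?_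
    have hF : F ∈ closure (Submodule.span ℂ (range (UnitAddTorus.mFourier (d := d))) :
        Set C(d → UnitAddCircle, ℂ)) := by
      have := UnitAddTorus.span_mFourier_closure_eq_top (d := d)
      have h2 : F ∈ (Submodule.span ℂ (range (UnitAddTorus.mFourier (d := d)))).topologicalClosure := by
        rw [this]; trivial
      exact h2
    obtain ⟨P, hP, hdist⟩ := Metric.mem_closure_iff.mp hF (ε / 2) (by positivity)
    have h1 : ‖∫ m : M, (F (x + (m : d → UnitAddCircle)) - P (x + (m : d → UnitAddCircle))) ∂μ‖
        ≤ ε / 2 := by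
      have := norm_integral_le_of_norm_le_const (μ := μ) (C := ε / 2)
        (f := fun m : M => F (x + (m : d → UnitAddCircle)) - P (x + (m : d → UnitAddCircle)))
        (Filter.Eventually.of_forall fun m => by
          rw [← ContinuousMap.sub_apply]
          refine ((F - P).norm_coe_le_norm _).trans ?_
          rw [← dist_eq_norm]; exact hdist.le)
      simpa using this
    have h2 : ‖∫ m : M, (F (m : d → UnitAddCircle) - P (m : d → UnitAddCircle)) ∂μ‖
        ≤ ε / 2 := by
      have := norm_integral_le_of_norm_le_const (μ := μ) (C := ε / 2)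
        (f := fun m : M => F (m : d → UnitAddCircle) - P (m : d → UnitAddCircle))
        (Filter.Eventually.of_forall fun m => by
          rw [← ContinuousMap.sub_apply]
          refine ((F - P).norm_coe_le_norm _).trans ?_
          rw [← dist_eq_norm]; exact hdist.le)
      simpa using this
    rw [integral_sub (hint' F) (hint' P)] at h1
    rw [integral_sub (hint F) (hint P)] at h2
    have h3 := hspan P hP
    have h4 : (∫ m : M, F (x + (m : d → UnitAddCircle)) ∂μ - ∫ m : M, F (m : d → UnitAddCircle) ∂μ)
        = (∫ m : M, F (x + (m : d → UnitAddCircle)) ∂μ - ∫ m : M, P (x + (m : d → UnitAddCircle)) ∂μ)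
          - (∫ m : M, F (m : d → UnitAddCircle) ∂μ - ∫ m : M, P (m : d → UnitAddCircle) ∂μ) := by
      rw [h3]; ring
    rw [h4]
    calc _ ≤ _ := norm_sub_le _ _
      _ ≤ ε / 2 + ε / 2 := add_le_add h1 h2
      _ = 0 + ε := by ring
  -- Urysohn
  have hcl : IsClosed ((fun m => x + m) '' (M : Set (d → UnitAddCircle))) :=
    (Homeomorph.addLeft x).isClosedMap _ hM
  have hdisj : Disjoint (M : Set (d → UnitAddCircle))
      ((fun m => x + m) '' (M : Set (d → UnitAddCircle))) := by
    rw [Set.disjoint_left]
    rintro _ hm ⟨m', hm', rfl⟩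
    apply hxM
    have := M.sub_mem hm hm'
    simpa using this
  obtain ⟨f, hf0, hf1, -⟩ := exists_continuous_zero_one_of_isClosed hM hcl hdisj
  let F : C(d → UnitAddCircle, ℂ) := ⟨fun y => (f y : ℂ), by fun_prop⟩
  have h1 := hall F
  have h2 : ∫ m : M, F (m : d → UnitAddCircle) ∂μ = 0 := by
    have : ∀ m : M, F (m : d → UnitAddCircle) = 0 := fun m => by
      have := hf0 m.2
      simp only [Pi.zero_apply] at this
      simp [F, this]
    simp [this]
  have h3 : ∫ m : M, F (x + (m : d → UnitAddCircle)) ∂μ = 1 := by
    have : ∀ m : M, F (x + (m : d → UnitAddCircle)) = 1 := fun m => by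
      have := hf1 ⟨(m : d → UnitAddCircle), m.2, rfl⟩
      simp only [Pi.one_apply] at this
      simp [F, this]
    simp [this]
  rw [h2, h3] at h1
  exact one_ne_zero h1

/-- Closed subgroups of an arbitrary torus are determined by the characters vanishing on them. -/
theorem duality {A : Type*} (M : AddSubgroup (A → UnitAddCircle))
    (hM : IsClosed (M : Set (A → UnitAddCircle))) (x : A → UnitAddCircle)
    (hx : ∀ n : A →₀ ℤ, (∀ m ∈ M, Finsupp.linearCombination ℤ m n = 0) →
      Finsupp.linearCombination ℤ x n = 0) : x ∈ M := by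
  classical
  by_contra hxM
  have hop : IsOpen (M : Set (A → UnitAddCircle))ᶜ := hM.isOpen_compl
  obtain ⟨F, u, hu, hsub⟩ := isOpen_pi_iff.mp hop x hxM
  let π : (A → UnitAddCircle) →+ (F → UnitAddCircle) :=
    { toFun := fun m i => m i
      map_zero' := rfl
      map_add' := fun _ _ => rfl }
  have hπ : Continuous π := continuous_pi fun i => continuous_apply _
  have hcl : IsClosed ((M.map π : AddSubgroup (F → UnitAddCircle)) : Set (F → UnitAddCircle)) := by
    rw [AddSubgroup.coe_map]
    exact (hM.isCompact.image hπ).isClosed
  have hnot : π x ∉ M.map π := by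
    rintro ⟨m, hm, hmx⟩
    refine hsub ?_ hm
    intro i hi
    have : m i = x i := congrFun hmx ⟨i, hi⟩
    rw [this]
    exact (hu i hi).2
  apply hnot
  refine fin_duality _ hcl _ ?_
  intro n hn
  let n' : A →₀ ℤ := ∑ i : F, Finsupp.single (i : A) (n i)
  have hval : ∀ m : A → UnitAddCircle, Finsupp.linearCombination ℤ m n' = ∑ i : F, n i • m i := by
    intro m
    simp [n', map_sum, Finsupp.linearCombination_single]
  have := hx n' (fun m hm => by
    rw [hval]
    exact hn (π m) ⟨m, hm, rfl⟩)
  rw [hval] at this
  exact this

end Pool.Agent.Helper332.Duality
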