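import Mathlib

set_option autoImplicit false

namespace Pool.Agent.Helper332.FA

open Topology Set

/-- the coinduced topology on the image of a topological group under a surjective homomorphism is a
group topology and the homomorphism is open -/
theorem coinduced_group {G H : Type} [AddCommGroup G] [AddCommGroup H] (tG : TopologicalSpace G)
    (hG : @IsTopologicalAddGroup G tG _) (φ : G →+ H) (hs : Function.Surjective φ) :
    @IsOpenMap G H tG (TopologicalSpace.coinduced φ tG) φ ∧
      @IsTopologicalAddGroup H (TopologicalSpace.coinduced φ tG) _ := by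
  letI : TopologicalSpace G := tG
  haveI : IsTopologicalAddGroup G := hG
  letI tH : TopologicalSpace H := TopologicalSpace.coinduced φ tG
  have hq : IsQuotientMap φ := ⟨⟨rfl⟩, hs⟩
  have hopen : IsOpenMap φ := by
    intro U hU
    rw [← hq.isOpen_preimage]
    have : φ ⁻¹' (φ '' U) = ⋃ k ∈ {k : G | φ k = 0}, (fun x => k + x) '' U := by
      ext x
      simp only [mem_preimage, mem_image, mem_iUnion, Set.mem_ofPred_eq, exists_prop]
      constructor
      · rintro ⟨u, hu, hux⟩
        refine ⟨x - u, ?_, u, hu, ?_⟩
        · rw [map_sub, hux, sub_self]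
        · abel
      · rintro ⟨k, hk, u, hu, rfl⟩
        exact ⟨u, hu, by rw [map_add, hk, zero_add]⟩
    rw [this]
    exact isOpen_biUnion fun k _ => isOpenMap_add_left k U hU
  have hoq : IsOpenQuotientMap φ := ⟨hs, hq.continuous, hopen⟩
  refine ⟨hopen, ?_⟩
  have hoq2 : IsOpenQuotientMap (Prod.map φ φ) := hoq.prodMap hoq
  refine @IsTopologicalAddGroup.mk H _ _ ⟨?_⟩ ⟨?_⟩
  · rw [hoq2.isQuotientMap.continuous_iff]
    have : (fun p : H × H => p.1 + p.2) ∘ Prod.map φ φ = φ ∘ fun p : G × G => p.1 + p.2 := by
      ext p
      simp [map_add]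
    rw [this]
    exact hq.continuous.comp continuous_add
  · rw [hq.continuous_iff]
    have : (fun a : H => -a) ∘ φ = φ ∘ fun a : G => -a := by
      ext p
      simp [map_neg]
    rw [this]
    exact hq.continuous.comp continuous_neg

theorem faTop_group (X : Type) [TopologicalSpace X] :
    @IsTopologicalAddGroup (FreeAbelianGroup X)
      (sInf {t : TopologicalSpace (FreeAbelianGroup X) |
              @IsTopologicalAddGroup (FreeAbelianGroup X) t _ ∧
              @Continuous X (FreeAbelianGroup X) _ t FreeAbelianGroup.of}) _ :=
  topologicalAddGroup_sInf fun _ ht => ht.1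

theorem continuous_of (X : Type) [tX : TopologicalSpace X] :
    @Continuous X (FreeAbelianGroup X) tX
      (sInf {t : TopologicalSpace (FreeAbelianGroup X) |
              @IsTopologicalAddGroup (FreeAbelianGroup X) t _ ∧
              @Continuous X (FreeAbelianGroup X) _ t FreeAbelianGroup.of}) FreeAbelianGroup.of :=
  continuous_sInf_rng.2 fun _ ht => ht.2

theorem map_surj {X Y : Type} {q : X → Y} (hs : Function.Surjective q) :
    Function.Surjective (FreeAbelianGroup.map q) := by
  intro y
  induction y using FreeAbelianGroup.induction_on with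
  | zero => exact ⟨0, map_zero _⟩
  | of y =>
    obtain ⟨x, rfl⟩ := hs y
    exact ⟨FreeAbelianGroup.of x, by simp [FreeAbelianGroup.map_of_apply]⟩
  | neg y ih =>
    obtain ⟨x, hx⟩ := ih
    exact ⟨-x, by rw [map_neg, hx]⟩
  | add a b iha ihb =>
    obtain ⟨x, hx⟩ := iha
    obtain ⟨y, hy⟩ := ihb
    exact ⟨x + y, by rw [map_add, hx, hy]⟩

/-- A quotient map of spaces induces an open continuous surjective homomorphism of free abelian
topological groups. -/
theorem quotient_open {X Y : Type} [tX : TopologicalSpace X] [tY : TopologicalSpace Y] (q : X → Y)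
    (hq : IsQuotientMap q) :
    Function.Surjective (FreeAbelianGroup.map q) ∧
    @Continuous (FreeAbelianGroup X) (FreeAbelianGroup Y)
            (sInf {t : TopologicalSpace (FreeAbelianGroup X) |
              @IsTopologicalAddGroup (FreeAbelianGroup X) t _ ∧
              @Continuous X (FreeAbelianGroup X) _ t FreeAbelianGroup.of})
            (sInf {t : TopologicalSpace (FreeAbelianGroup Y) |
              @IsTopologicalAddGroup (FreeAbelianGroup Y) t _ ∧
              @Continuous Y (FreeAbelianGroup Y) _ t FreeAbelianGroup.of})
            (FreeAbelianGroup.map q) ∧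
    @IsOpenMap (FreeAbelianGroup X) (FreeAbelianGroup Y)
            (sInf {t : TopologicalSpace (FreeAbelianGroup X) |
              @IsTopologicalAddGroup (FreeAbelianGroup X) t _ ∧
              @Continuous X (FreeAbelianGroup X) _ t FreeAbelianGroup.of})
            (sInf {t : TopologicalSpace (FreeAbelianGroup Y) |
              @IsTopologicalAddGroup (FreeAbelianGroup Y) t _ ∧
              @Continuous Y (FreeAbelianGroup Y) _ t FreeAbelianGroup.of})
            (FreeAbelianGroup.map q) := by
  have hs := map_surj hq.surjective
  have key : (FreeAbelianGroup.map q) ∘ (FreeAbelianGroup.of : X → FreeAbelianGroup X) =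
      FreeAbelianGroup.of ∘ q := by
    ext x
    simp [FreeAbelianGroup.map_of_apply]
  set TX := (sInf {t : TopologicalSpace (FreeAbelianGroup X) |
              @IsTopologicalAddGroup (FreeAbelianGroup X) t _ ∧
              @Continuous X (FreeAbelianGroup X) _ t FreeAbelianGroup.of}) with hTX
  set TY := (sInf {t : TopologicalSpace (FreeAbelianGroup Y) |
              @IsTopologicalAddGroup (FreeAbelianGroup Y) t _ ∧
              @Continuous Y (FreeAbelianGroup Y) _ t FreeAbelianGroup.of}) with hTY
  have hTXg : @IsTopologicalAddGroup (FreeAbelianGroup X) TX _ := faTop_group X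
  have hTYg : @IsTopologicalAddGroup (FreeAbelianGroup Y) TY _ := faTop_group Y
  have hTXc : @Continuous X (FreeAbelianGroup X) tX TX FreeAbelianGroup.of := continuous_of X
  have hTYc : @Continuous Y (FreeAbelianGroup Y) tY TY FreeAbelianGroup.of := continuous_of Y
  obtain ⟨hop, hgr⟩ := coinduced_group TX hTXg (FreeAbelianGroup.map q) hs
  refine ⟨hs, ?_, ?_⟩
  · -- continuity : TX ≤ induced
    rw [continuous_iff_le_induced]
    refine sInf_le ⟨?_, ?_⟩
    · exact @topologicalAddGroup_induced (FreeAbelianGroup Y) (FreeAbelianGroup X) TY _ hTYg _ _ _ _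
        (FreeAbelianGroup.map q)
    · rw [@continuous_induced_rng (FreeAbelianGroup X) (FreeAbelianGroup Y) X _ _ TY tX]
      have : (⇑(FreeAbelianGroup.map q) ∘ (FreeAbelianGroup.of : X → FreeAbelianGroup X)) =
        FreeAbelianGroup.of ∘ q := key
      rw [this]
      exact @Continuous.comp X Y _ tX tY TY _ _ hTYc hq.continuous
  · have hle : TY ≤ TopologicalSpace.coinduced (FreeAbelianGroup.map q) TX := by
      refine sInf_le ⟨hgr, ?_⟩
      have h1 : @Continuous X (FreeAbelianGroup Y) tX
          (TopologicalSpace.coinduced (FreeAbelianGroup.map q) TX)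
          (FreeAbelianGroup.of ∘ q) := by
        rw [← key]
        exact @Continuous.comp X _ _ tX TX (TopologicalSpace.coinduced (FreeAbelianGroup.map q) TX)
          _ _ (@continuous_coinduced_rng _ _ _ TX) hTXc
      exact (@IsQuotientMap.continuous_iff X Y (FreeAbelianGroup Y) q _ tX tY
        (TopologicalSpace.coinduced (FreeAbelianGroup.map q) TX) hq).2 h1
    intro U hU
    exact hle _ (hop U hU)

end Pool.Agent.Helper332.FA
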