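import Mathlib

set_option autoImplicit false

namespace Pool.Agent.Helper332.FA

open Topology Set

noncomputable section

/-- auxiliary profile -/
def psi (t : ℝ) : ℝ := max (1 - 4 * t) (min (2 * t - 2) 0)

theorem psi_zero : psi 0 = 1 := by
  unfold psi
  rw [min_eq_left (by norm_num), max_eq_left (by norm_num)]; norm_num

theorem psi_half : psi (1 / 2) = -1 := by
  unfold psi
  rw [min_eq_left (by norm_num), max_eq_left (by norm_num)]; norm_num

theorem psi_ge_one {t : ℝ} (h : 1 ≤ t) : psi t = 0 := by
  unfold psi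
  rw [min_eq_right (by linarith), max_eq_right (by linarith)]

theorem psi_le_one {t : ℝ} (h : 0 ≤ t) : psi t ≤ 1 := by
  unfold psi
  refine max_le (by linarith) ((min_le_right _ _).trans zero_le_one)

theorem neg_one_le_psi (t : ℝ) : -1 ≤ psi t := by
  unfold psi
  rcases le_total t (1 / 2) with h | h
  · exact le_max_of_le_left (by linarith)
  · exact le_max_of_le_right (le_min (by linarith) (by norm_num))

theorem abs_psi_le {t : ℝ} (h : 0 ≤ t) : |psi t| ≤ 1 :=
  abs_le.2 ⟨neg_one_le_psi t, psi_le_one h⟩

theorem psi_lip (s t : ℝ) : |psi s - psi t| ≤ 4 * |s - t| := by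
  unfold psi
  refine (abs_max_sub_max_le_max _ _ _ _).trans (max_le ?_ ?_)
  · have : (1 - 4 * s - (1 - 4 * t)) = -(4 * (s - t)) := by ring
    rw [this, abs_neg, abs_mul]
    norm_num
  · refine (abs_min_sub_min_le_max _ _ _ _).trans (max_le ?_ ?_)
    · have : (2 * s - 2 - (2 * t - 2)) = (2 * (s - t)) := by ring
      rw [this, abs_mul]
      have := abs_nonneg (s - t)
      norm_num
      linarith
    · simp

theorem lt_of_psi_pos {t : ℝ} (h : 0 < psi t) : t < 1 / 2 := by
  unfold psi at h
  rcases lt_max_iff.1 h with h | h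
  · linarith
  · have := min_le_right (2 * t - 2) 0
    linarith

theorem lt_of_psi_neg {t : ℝ} (h : psi t < 0) : t < 1 := by
  by_contra hc
  push Not at hc
  rw [psi_ge_one hc] at h
  exact lt_irrefl _ h

variable {M : Type} [PseudoMetricSpace M]

theorem exists_sep (ρ : ℝ) (hρ : 0 < ρ) :
    ∃ D : Set M, (∀ x ∈ D, ∀ y ∈ D, x ≠ y → ρ ≤ dist x y) ∧ ∀ x, ∃ d ∈ D, dist x d < ρ := by
  obtain ⟨m, hm⟩ := zorn_subset {D : Set M | ∀ x ∈ D, ∀ y ∈ D, x ≠ y → ρ ≤ dist x y} (by
    intro c hc hchain
    refine ⟨⋃₀ c, ?_, fun s hs => subset_sUnion_of_mem hs⟩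
    intro x hx y hy hxy
    obtain ⟨s, hs, hxs⟩ := hx
    obtain ⟨t, ht, hyt⟩ := hy
    rcases hchain.total hs ht with h | h
    · exact hc ht x (h hxs) y hyt hxy
    · exact hc hs x hxs y (h hyt) hxy)
  refine ⟨m, hm.1, ?_⟩
  intro x
  by_contra hcon
  push Not at hcon
  have hins : insert x m ∈ {D : Set M | ∀ x ∈ D, ∀ y ∈ D, x ≠ y → ρ ≤ dist x y} := by
    intro a ha b hb hab
    rcases ha with rfl | ha
    · rcases hb with rfl | hb
      · exact absurd rfl hab
      · exact hcon b hb
    · rcases hb with rfl | hb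
      · rw [dist_comm]; exact hcon a ha
      · exact hm.1 a ha b hb hab
  have hxm : x ∈ m := hm.2 hins (subset_insert x m) (mem_insert x m)
  have := hcon x hxm
  rw [dist_self] at this
  linarith

/-- data for the construction -/
structure Data (M : Type) [PseudoMetricSpace M] where
  r0 : ℝ
  r0pos : 0 < r0
  D : ℕ → Set M
  sep : ∀ k, ∀ x ∈ D k, ∀ y ∈ D k, x ≠ y → r0 * (1 / 100000) ^ k ≤ dist x y
  net : ∀ k, ∀ x, ∃ d ∈ D k, dist x d < r0 * (1 / 100000) ^ k

namespace Data

variable (S : Data M)

/-- eta -/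
def eta (k : ℕ) : ℝ := (1 / 100 : ℝ) ^ k

/-- rho -/
def rho (k : ℕ) : ℝ := S.r0 * (1 / 100000 : ℝ) ^ k

theorem eta_pos (k : ℕ) : 0 < eta k := by unfold eta; positivity

theorem rho_pos (k : ℕ) : 0 < S.rho k := by
  unfold rho
  have := S.r0pos
  positivity

/-- sigma -/
def sigma (k : ℕ) (y : M) : ℝ := eta k * psi (Metric.infDist y (S.D k) / (S.rho k / 4))

theorem D_nonempty (x : M) (k : ℕ) : (S.D k).Nonempty := by
  obtain ⟨d, hd, -⟩ := S.net k x
  exact ⟨d, hd⟩

theorem infDist_eq {k : ℕ} {d y : M} (hd : d ∈ S.D k) (h : dist y d ≤ S.rho k / 4) :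
    Metric.infDist y (S.D k) = dist y d := by
  apply le_antisymm (Metric.infDist_le_dist_of_mem hd)
  rw [Metric.le_infDist ⟨d, hd⟩]
  intro d' hd'
  by_cases hne : d = d'
  · rw [hne]
  · have h1 := S.sep k d hd d' hd' hne
    have h2 := dist_triangle d y d'
    rw [dist_comm d y] at h2
    have h3 := S.rho_pos k
    unfold rho at *
    linarith

theorem abs_sigma_le (k : ℕ) (y : M) : |S.sigma k y| ≤ eta k := by
  unfold sigma
  rw [abs_mul, abs_of_pos (eta_pos k)]
  have h := abs_psi_le (t := Metric.infDist y (S.D k) / (S.rho k / 4))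
    (div_nonneg Metric.infDist_nonneg (by have := S.rho_pos k; linarith))
  have := eta_pos k
  nlinarith

theorem sigma_lip (k : ℕ) (x y : M) :
    |S.sigma k x - S.sigma k y| ≤ 16 / S.r0 * (1000 : ℝ) ^ k * dist x y := by
  unfold sigma
  rw [← mul_sub, abs_mul, abs_of_pos (eta_pos k)]
  have h1 := psi_lip (Metric.infDist x (S.D k) / (S.rho k / 4))
    (Metric.infDist y (S.D k) / (S.rho k / 4))
  have hr := S.rho_pos k
  have h2 : |Metric.infDist x (S.D k) / (S.rho k / 4) - Metric.infDist y (S.D k) / (S.rho k / 4)|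
      ≤ dist x y / (S.rho k / 4) := by
    rw [← sub_div, abs_div, abs_of_pos (show 0 < S.rho k / 4 by linarith)]
    apply div_le_div_of_nonneg_right _ (by linarith)
    have h3 : Metric.infDist x (S.D k) ≤ Metric.infDist y (S.D k) + dist x y :=
      Metric.infDist_le_infDist_add_dist
    have h4 : Metric.infDist y (S.D k) ≤ Metric.infDist x (S.D k) + dist y x :=
      Metric.infDist_le_infDist_add_dist
    rw [dist_comm y x] at h4
    rw [abs_le]
    constructor <;> linarith
  have h5 : eta k * (4 * (dist x y / (S.rho k / 4))) = 16 / S.r0 * (1000 : ℝ) ^ k * dist x y := by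
    unfold eta rho
    have hr0 := S.r0pos.ne'
    have : (1000 : ℝ) ^ k = (1 / 100) ^ k / (1 / 100000) ^ k := by
      rw [← div_pow]; norm_num
    rw [this]
    field_simp
    ring
  calc eta k * |psi (Metric.infDist x (S.D k) / (S.rho k / 4)) -
        psi (Metric.infDist y (S.D k) / (S.rho k / 4))|
      ≤ eta k * (4 * (dist x y / (S.rho k / 4))) := by
        apply mul_le_mul_of_nonneg_left _ (eta_pos k).le
        linarith
    _ = _ := h5

theorem summable_eta : Summable eta :=
  summable_geometric_of_lt_one (by norm_num) (by norm_num)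

theorem summable_sigma (y : M) : Summable fun k => S.sigma k y :=
  Summable.of_norm_bounded summable_eta fun k => S.abs_sigma_le k y

theorem continuous_sigma (k : ℕ) : Continuous (S.sigma k) := by
  unfold sigma psi
  have h : Continuous fun y : M => Metric.infDist y (S.D k) := Metric.continuous_infDist_pt _
  fun_prop

/-- the function -/
def f (y : M) : ℝ := ∑' k, S.sigma k y

theorem continuous_f : Continuous S.f :=
  continuous_tsum S.continuous_sigma summable_eta fun k y => S.abs_sigma_le k y

theorem tail_eta (k : ℕ) : ∑' j, eta (j + (k + 1)) = eta k / 99 := by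
  have : ∀ j, eta (j + (k + 1)) = eta (k + 1) * (1 / 100 : ℝ) ^ j := by
    intro j
    unfold eta
    rw [pow_add]; ring
  simp_rw [this]
  rw [tsum_mul_left, tsum_geometric_of_lt_one (by norm_num) (by norm_num)]
  unfold eta
  rw [pow_succ]
  norm_num
  ring

/-- local approximation of `f` -/
theorem approx (k : ℕ) (x y : M) (h : dist x y ≤ 3 * S.rho k) :
    |S.f y - (∑ j ∈ Finset.range k, S.sigma j x + S.sigma k y)| ≤ 1 / 10 * eta k := by
  have h1 : S.f y = ∑ j ∈ Finset.range (k + 1), S.sigma j y + ∑' j, S.sigma (j + (k + 1)) y := by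
    unfold f
    rw [Summable.sum_add_tsum_nat_add (k + 1) (S.summable_sigma y)]
  have h2 : |∑' j, S.sigma (j + (k + 1)) y| ≤ eta k / 99 := by
    rw [← tail_eta k]
    have hs : Summable fun j => eta (j + (k + 1)) := (summable_nat_add_iff (k + 1)).2 summable_eta
    have hb : ∀ j, ‖S.sigma (j + (k + 1)) y‖ ≤ eta (j + (k + 1)) := fun j => S.abs_sigma_le _ y
    exact tsum_of_norm_bounded hs.hasSum hb
  have h3 : |∑ j ∈ Finset.range k, S.sigma j y - ∑ j ∈ Finset.range k, S.sigma j x|
      ≤ 48 / 999 * eta k := by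
    rw [← Finset.sum_sub_distrib]
    have h31 : ∀ j ∈ Finset.range k, |S.sigma j y - S.sigma j x| ≤
        16 / S.r0 * (1000 : ℝ) ^ j * (3 * S.rho k) := by
      intro j _
      have := S.sigma_lip j y x
      refine this.trans ?_
      rw [dist_comm]
      apply mul_le_mul_of_nonneg_left h
      have := S.r0pos
      positivity
    refine (Finset.abs_sum_le_sum_abs _ _).trans ((Finset.sum_le_sum h31).trans ?_)
    rw [← Finset.sum_mul, ← Finset.mul_sum, geom_sum_eq (by norm_num)]
    have hr0 := S.r0pos
    have h32 : (1000 : ℝ) ^ k * (1 / 100000) ^ k = (1 / 100) ^ k := by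
      rw [← mul_pow]; norm_num
    have h33 : 16 / S.r0 * (((1000 : ℝ) ^ k - 1) / (1000 - 1)) * (3 * S.rho k) =
        48 / 999 * ((1000 : ℝ) ^ k * (1 / 100000) ^ k - (1 / 100000) ^ k) := by
      unfold rho
      field_simp
      ring
    rw [h33, h32]
    unfold eta
    have : (0 : ℝ) < (1 / 100000 : ℝ) ^ k := by positivity
    nlinarith
  have h4 : S.f y - (∑ j ∈ Finset.range k, S.sigma j x + S.sigma k y) =
      (∑ j ∈ Finset.range k, S.sigma j y - ∑ j ∈ Finset.range k, S.sigma j x) +
        ∑' j, S.sigma (j + (k + 1)) y := by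
    rw [h1, Finset.sum_range_succ]; ring
  rw [h4]
  have h5 := abs_add_le (∑ j ∈ Finset.range k, S.sigma j y - ∑ j ∈ Finset.range k, S.sigma j x)
    (∑' j, S.sigma (j + (k + 1)) y)
  have := eta_pos k
  linarith

/-- key proposition -/
theorem prop_K [PreconnectedSpace M] (k : ℕ) (x x' x'' : M) (h' : dist x x' ≤ S.rho k)
    (h'' : dist x x'' ≤ S.rho k) (t : ℝ) (ht' : S.f x' < t) (ht'' : t < S.f x'') :
    ∃ y, dist x y ≤ 3 * S.rho k ∧ S.f y = t := by
  by_contra hno
  push Not at hno
  have hr := S.rho_pos k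
  have he := eta_pos k
  set base := ∑ j ∈ Finset.range k, S.sigma j x with hbase
  have hap : ∀ y, dist x y ≤ 3 * S.rho k →
      base + S.sigma k y - 1 / 10 * eta k ≤ S.f y ∧ S.f y ≤ base + S.sigma k y + 1 / 10 * eta k := by
    intro y hy
    have := abs_le.1 (S.approx k x y hy)
    constructor <;> linarith [this.1, this.2]
  have hcf := S.continuous_f
  -- a clopen set is empty or everything
  have hclopen : ∀ (d : M) (r : ℝ), dist x d + r ≤ 3 * S.rho k → ∀ (s : ℝ → ℝ → Prop),
      (IsOpen {y | s (S.f y) t}) →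
      (∀ y, y ∈ closure {y | s (S.f y) t} → S.f y ≠ t → s (S.f y) t) →
      (∀ y, dist y d = r → dist x y ≤ 3 * S.rho k → ¬ s (S.f y) t) →
      ∀ a, dist a d < r → s (S.f a) t → ∀ b, s (S.f b) t := by
    intro d r hdr s hso hsc hbd a had hsa b
    have hcl : IsClopen {y | dist y d < r ∧ s (S.f y) t} := by
      refine ⟨?_, ?_⟩
      · rw [← closure_subset_iff_isClosed]
        intro y hy
        have hy1 : dist y d ≤ r := by
          have : y ∈ closure {y | dist y d ≤ r} :=
            closure_mono (fun z hz => le_of_lt hz.1) hy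
          have hcl0 : IsClosed {y : M | dist y d ≤ r} :=
            isClosed_le (continuous_id.dist continuous_const) continuous_const
          rwa [hcl0.closure_eq] at this
        have hy2 : dist x y ≤ 3 * S.rho k := by
          have := dist_triangle x d y
          rw [dist_comm d y] at this
          linarith
        have hy3 : s (S.f y) t :=
          hsc y (closure_mono (fun z hz => hz.2) hy) (hno y hy2)
        refine ⟨lt_of_le_of_ne hy1 ?_, hy3⟩
        intro heq
        exact hbd y heq hy2 hy3
      · have hop0 : IsOpen {y : M | dist y d < r} :=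
          isOpen_lt (continuous_id.dist continuous_const) continuous_const
        exact hop0.inter hso
    rcases isClopen_iff.1 hcl with h | h
    · exact absurd (show a ∈ {y | dist y d < r ∧ s (S.f y) t} from ⟨had, hsa⟩) (by rw [h]; simp)
    · have : b ∈ {y | dist y d < r ∧ s (S.f y) t} := by rw [h]; exact mem_univ b
      exact this.2
  have hgt := hclopen
  -- value on the sphere of radius rho/8
  have hhalf : ∀ d ∈ S.D k, ∀ y, dist y d = S.rho k / 8 → S.sigma k y = - eta k := by
    intro d hd y hy
    unfold sigma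
    rw [S.infDist_eq hd (by rw [hy]; linarith), hy]
    have : S.rho k / 8 / (S.rho k / 4) = 1 / 2 := by field_simp; norm_num
    rw [this, psi_half]; ring
  have hone : ∀ d ∈ S.D k, ∀ y, dist y d = S.rho k / 4 → S.sigma k y = 0 := by
    intro d hd y hy
    unfold sigma
    rw [S.infDist_eq hd (by rw [hy]), hy]
    have : S.rho k / 4 / (S.rho k / 4) = 1 := by field_simp
    rw [this, psi_ge_one le_rfl]; ring
  have hzero : ∀ d ∈ S.D k, S.sigma k d = eta k := by
    intro d hd
    unfold sigma
    rw [S.infDist_eq hd (by rw [dist_self]; linarith), dist_self, zero_div, psi_zero]; ring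
  have hoGT : IsOpen {y | t < S.f y} := isOpen_lt continuous_const hcf
  have hoLT : IsOpen {y | S.f y < t} := isOpen_lt hcf continuous_const
  have hcGT : ∀ y, y ∈ closure {y | t < S.f y} → S.f y ≠ t → t < S.f y := by
    intro y hy hne
    have hss : {y | t < S.f y} ⊆ {y | t ≤ S.f y} := fun z hz => le_of_lt (show t < S.f z from hz)
    have : y ∈ closure {y | t ≤ S.f y} := closure_mono hss hy
    rw [(isClosed_le continuous_const hcf).closure_eq] at this
    exact lt_of_le_of_ne this hne.symm
  have hcLT : ∀ y, y ∈ closure {y | S.f y < t} → S.f y ≠ t → S.f y < t := by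
    intro y hy hne
    have hss : {y | S.f y < t} ⊆ {y | S.f y ≤ t} := fun z hz => le_of_lt (show S.f z < t from hz)
    have : y ∈ closure {y | S.f y ≤ t} := closure_mono hss hy
    rw [(isClosed_le hcf continuous_const).closure_eq] at this
    exact lt_of_le_of_ne this hne
  have hx'3 : dist x x' ≤ 3 * S.rho k := by linarith
  have hx''3 : dist x x'' ≤ 3 * S.rho k := by linarith
  rcases le_or_gt t (base + 8 / 10 * eta k) with hc | hc
  · rcases le_or_gt (base - 8 / 10 * eta k) t with hc2 | hc2
    · -- case 1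
      obtain ⟨d, hd, hxd⟩ := S.net k x
      have hxd' : dist x d < S.rho k := hxd
      have hfd := hap d (by linarith)
      rw [hzero d hd] at hfd
      have := hclopen d (S.rho k / 8) (by linarith) (fun u v => v < u) hoGT hcGT (by
        intro y hy hy3 hlt
        have := (hap y hy3).2
        rw [hhalf d hd y hy] at this
        linarith) d (by rw [dist_self]; linarith) (by linarith [hfd.1]) x'
      linarith
    · -- case 3 : t small
      have h1 := (hap x' hx'3).1
      have h2 : S.sigma k x' < 0 := by linarith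
      unfold sigma at h2
      have h3 : psi (Metric.infDist x' (S.D k) / (S.rho k / 4)) < 0 := by
        by_contra hcon
        push Not at hcon
        have := mul_nonneg he.le hcon
        linarith
      have h4 := lt_of_psi_neg h3
      rw [div_lt_one (by linarith)] at h4
      obtain ⟨d, hd, hdist⟩ := (Metric.infDist_lt_iff (S.D_nonempty x k)).1 h4
      have hxd : dist x d ≤ S.rho k + S.rho k / 4 := by
        have := dist_triangle x x' d
        linarith
      have := hclopen d (S.rho k / 4) (by linarith) (fun u v => u < v) hoLT hcLT (by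
        intro y hy hy3 hlt
        have := (hap y hy3).1
        rw [hone d hd y hy] at this
        linarith) x' hdist ht' x''
      linarith
  · -- case 2 : t large
    have h1 := (hap x'' hx''3).2
    have h2 : 0 < S.sigma k x'' := by linarith
    unfold sigma at h2
    have h3 : 0 < psi (Metric.infDist x'' (S.D k) / (S.rho k / 4)) := by
      by_contra hcon
      push Not at hcon
      have := mul_nonpos_of_nonneg_of_nonpos he.le hcon
      linarith
    have h4 := lt_of_psi_pos h3
    rw [div_lt_iff₀ (by linarith)] at h4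
    have h5 : Metric.infDist x'' (S.D k) < S.rho k / 8 := by linarith
    obtain ⟨d, hd, hdist⟩ := (Metric.infDist_lt_iff (S.D_nonempty x k)).1 h5
    have hxd : dist x d ≤ S.rho k + S.rho k / 8 := by
      have := dist_triangle x x'' d
      linarith
    have := hclopen d (S.rho k / 8) (by linarith) (fun u v => v < u) hoGT hcGT (by
      intro y hy hy3 hlt
      have := (hap y hy3).2
      rw [hhalf d hd y hy] at this
      linarith) x'' hdist ht'' x'
    linarith

end Data

/-- Metric theorem: on a connected pseudometric space with two points at positive distance there is a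
continuous real function, taking values below `-9/10` and above `9/10`, which is locally Darboux. -/
theorem metric_thm [PreconnectedSpace M] (a b : M) (hab : 0 < dist a b) :
    ∃ f : M → ℝ, Continuous f ∧ (∃ u, f u ≤ -(9 / 10)) ∧ (∃ v, 9 / 10 ≤ f v) ∧
      ∀ x, ∀ ε > 0, ∃ δ > 0, ∀ x', dist x x' < δ → ∀ t, ((f x < t ∧ t < f x') ∨ (f x' < t ∧ t < f x)) →
        ∃ y, dist x y < ε ∧ f y = t := by
  have hD : ∀ k : ℕ, ∃ D : Set M, (∀ x ∈ D, ∀ y ∈ D, x ≠ y → dist a b * (1 / 100000) ^ k ≤ dist x y) ∧
      ∀ x, ∃ d ∈ D, dist x d < dist a b * (1 / 100000) ^ k := fun k =>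
    exists_sep _ (by positivity)
  choose D hD1 hD2 using hD
  let S : Data M := ⟨dist a b, hab, D, hD1, hD2⟩
  have hr0 : S.rho 0 = dist a b := by
    show dist a b * (1 / 100000) ^ 0 = dist a b
    simp
  have he0 : Data.eta 0 = 1 := by unfold Data.eta; simp
  obtain ⟨d, hd, -⟩ := S.net 0 a
  have hap : ∀ y, dist y y ≤ 3 * S.rho 0 → |S.f y - S.sigma 0 y| ≤ 1 / 10 := by
    intro y hy
    have := S.approx 0 y y hy
    simpa [he0] using this
  have hself : ∀ y : M, dist y y ≤ 3 * S.rho 0 := by
    intro y
    rw [dist_self, hr0]; linarith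
  refine ⟨S.f, S.continuous_f, ?_, ?_, ?_⟩
  · -- a point at distance rho/8 from d
    have hex : ∃ z, dist a b / 2 ≤ dist z d := by
      by_contra hcon
      push Not at hcon
      have h1 := hcon a
      have h2 := hcon b
      have h3 := dist_triangle a d b
      rw [dist_comm d b] at h3
      linarith
    obtain ⟨z, hz⟩ := hex
    have hIVT : dist a b / 8 ∈ range (fun y : M => dist y d) := by
      have hc : Continuous fun y : M => dist y d := continuous_id.dist continuous_const
      refine mem_range_of_exists_le_of_exists_ge hc ⟨d, ?_⟩ ⟨z, ?_⟩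
      · show dist d d ≤ _
        rw [dist_self]; linarith
      · show _ ≤ dist z d
        linarith
    obtain ⟨y, hy⟩ := hIVT
    have hy' : dist y d = S.rho 0 / 8 := by rw [hr0]; exact hy
    refine ⟨y, ?_⟩
    have h1 := (abs_le.1 (hap y (hself y))).2
    have h2 : S.sigma 0 y = -1 := by
      unfold Data.sigma
      rw [S.infDist_eq hd (by rw [hy', hr0]; linarith), hy', he0]
      have : S.rho 0 / 8 / (S.rho 0 / 4) = 1 / 2 := by
        rw [hr0]; field_simp; norm_num
      rw [this, psi_half]; ring
    rw [h2] at h1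
    linarith
  · refine ⟨d, ?_⟩
    have h1 := (abs_le.1 (hap d (hself d))).1
    have h2 : S.sigma 0 d = 1 := by
      unfold Data.sigma
      rw [S.infDist_eq hd (by rw [dist_self, hr0]; linarith), dist_self, he0, zero_div, psi_zero]
      ring
    rw [h2] at h1
    linarith
  · intro x ε hε
    obtain ⟨k, hk⟩ : ∃ k : ℕ, 3 * (dist a b * (1 / 100000 : ℝ) ^ k) < ε := by
      obtain ⟨k, hk⟩ := exists_pow_lt_of_lt_one (show 0 < ε / (3 * dist a b) by positivity)
        (show (1 / 100000 : ℝ) < 1 by norm_num)
      refine ⟨k, ?_⟩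
      rw [lt_div_iff₀ (by positivity)] at hk
      linarith
    refine ⟨S.rho k, S.rho_pos k, ?_⟩
    intro x' hx' t ht
    have hsx : dist x x ≤ S.rho k := by rw [dist_self]; exact (S.rho_pos k).le
    have hlt : ∀ y, dist x y ≤ 3 * S.rho k → dist x y < ε := by
      intro y hy
      refine lt_of_le_of_lt hy ?_
      exact hk
    rcases ht with ⟨h1, h2⟩ | ⟨h1, h2⟩
    · obtain ⟨y, hy, hfy⟩ := S.prop_K k x x x' hsx hx'.le t h1 h2
      exact ⟨y, hlt y hy, hfy⟩
    · obtain ⟨y, hy, hfy⟩ := S.prop_K k x x' x hx'.le hsx t h1 h2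
      exact ⟨y, hlt y hy, hfy⟩

end

end Pool.Agent.Helper332.FA
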