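import Pool.Agent.Helper332.FA2

set_option autoImplicit false

namespace Pool.Agent.Helper332.FA

open Topology Set

/-- transfer lemma: local Darboux property gives a quotient map onto an interval -/
theorem transfer {X : Type} [TopologicalSpace X] [PreconnectedSpace X] (f : X → ℝ)
    (hf : Continuous f) (a b : ℝ) (hab : a < b) (ha : ∃ x, f x ≤ a) (hb : ∃ x, b ≤ f x)
    (hLD : ∀ x, a ≤ f x → f x ≤ b → ∀ O ∈ 𝓝 x, ∃ O' ∈ 𝓝 x, ∀ x' ∈ O', ∀ t,
      ((f x < t ∧ t < f x') ∨ (f x' < t ∧ t < f x)) → ∃ y ∈ O, f y = t) :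
    IsQuotientMap (fun x => projIcc a b hab.le (f x)) := by
  have hg : Continuous (fun x => projIcc a b hab.le (f x)) := continuous_projIcc.comp hf
  obtain ⟨u, hu⟩ := ha
  obtain ⟨v, hv⟩ := hb
  have hval : ∀ s : Icc a b, ∀ x, f x = s → projIcc a b hab.le (f x) = s := by
    intro s x hx
    rw [hx]; exact projIcc_val hab.le s
  have hsurj : Function.Surjective (fun x => projIcc a b hab.le (f x)) := by
    intro s
    have : (s : ℝ) ∈ range f :=
      mem_range_of_exists_le_of_exists_ge hf ⟨u, hu.trans s.2.1⟩ ⟨v, s.2.2.trans hv⟩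
    obtain ⟨x, hx⟩ := this
    exact ⟨x, hval s x hx⟩
  rw [isQuotientMap_iff, isCoinducing_iff]
  refine ⟨fun V => ⟨fun hV => ?_, fun hV => hV.preimage hg⟩, hsurj⟩
  rw [Metric.isOpen_iff]
  intro s hs
  -- right
  have hright : ∃ ε > 0, ∀ t : Icc a b, (s : ℝ) ≤ t → (t : ℝ) < s + ε → t ∈ V := by
    rcases lt_or_eq_of_le s.2.2 with hsb | hsb
    · have hex : ∃ x, f x = s ∧ x ∈ closure {y | (s : ℝ) < f y} := by
        by_contra hcon
        push Not at hcon
        have hcl : IsClopen {y | (s : ℝ) < f y} := by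
          refine ⟨?_, isOpen_lt continuous_const hf⟩
          rw [← closure_subset_iff_isClosed]
          intro y hy
          have hss : {y | (s : ℝ) < f y} ⊆ {y | (s : ℝ) ≤ f y} :=
            fun z hz => le_of_lt (show (s : ℝ) < f z from hz)
          have h1 : y ∈ closure {y | (s : ℝ) ≤ f y} := closure_mono hss hy
          rw [(isClosed_le continuous_const hf).closure_eq] at h1
          exact lt_of_le_of_ne h1 (fun h => hcon y h.symm hy)
        rcases isClopen_iff.1 hcl with h | h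
        · have : v ∈ {y | (s : ℝ) < f y} := lt_of_lt_of_le hsb hv
          rw [h] at this
          exact this
        · have : u ∈ {y | (s : ℝ) < f y} := by rw [h]; exact mem_univ u
          exact absurd (lt_of_lt_of_le this hu) (not_lt.2 s.2.1)
      obtain ⟨x, hx, hxc⟩ := hex
      obtain ⟨O', hO', hD⟩ := hLD x (by rw [hx]; exact s.2.1) (by rw [hx]; exact s.2.2)
        ((fun x => projIcc a b hab.le (f x)) ⁻¹' V) (hV.mem_nhds (by
          show projIcc a b hab.le (f x) ∈ V
          rw [hval s x hx]; exact hs))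
      obtain ⟨x', hx'O, hx'⟩ := mem_closure_iff_nhds.1 hxc O' hO'
      have hx'' : (s : ℝ) < f x' := hx'
      refine ⟨f x' - s, by linarith, ?_⟩
      intro t hst hts
      rcases lt_or_eq_of_le hst with h | h
      · obtain ⟨y, hy, hfy⟩ := hD x' hx'O t (Or.inl ⟨by rw [hx]; exact h, by linarith⟩)
        have : projIcc a b hab.le (f y) ∈ V := hy
        rwa [hval t y hfy] at this
      · have : t = s := Subtype.ext h.symm
        rw [this]; exact hs
    · refine ⟨1, one_pos, ?_⟩
      intro t hst _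
      have : t = s := Subtype.ext (le_antisymm (t.2.2.trans hsb.ge) hst)
      rw [this]; exact hs
  -- left
  have hleft : ∃ ε > 0, ∀ t : Icc a b, (t : ℝ) ≤ s → (s : ℝ) - ε < t → t ∈ V := by
    rcases lt_or_eq_of_le s.2.1 with hsa | hsa
    · have hex : ∃ x, f x = s ∧ x ∈ closure {y | f y < (s : ℝ)} := by
        by_contra hcon
        push Not at hcon
        have hcl : IsClopen {y | f y < (s : ℝ)} := by
          refine ⟨?_, isOpen_lt hf continuous_const⟩
          rw [← closure_subset_iff_isClosed]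
          intro y hy
          have hss : {y | f y < (s : ℝ)} ⊆ {y | f y ≤ (s : ℝ)} :=
            fun z hz => le_of_lt (show f z < (s : ℝ) from hz)
          have h1 : y ∈ closure {y | f y ≤ (s : ℝ)} := closure_mono hss hy
          rw [(isClosed_le hf continuous_const).closure_eq] at h1
          exact lt_of_le_of_ne h1 (fun h => hcon y h hy)
        rcases isClopen_iff.1 hcl with h | h
        · have : u ∈ {y | f y < (s : ℝ)} := lt_of_le_of_lt hu hsa
          rw [h] at this
          exact this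
        · have : v ∈ {y | f y < (s : ℝ)} := by rw [h]; exact mem_univ v
          exact absurd (lt_of_le_of_lt hv this) (not_lt.2 s.2.2)
      obtain ⟨x, hx, hxc⟩ := hex
      obtain ⟨O', hO', hD⟩ := hLD x (by rw [hx]; exact s.2.1) (by rw [hx]; exact s.2.2)
        ((fun x => projIcc a b hab.le (f x)) ⁻¹' V) (hV.mem_nhds (by
          show projIcc a b hab.le (f x) ∈ V
          rw [hval s x hx]; exact hs))
      obtain ⟨x', hx'O, hx'⟩ := mem_closure_iff_nhds.1 hxc O' hO'
      have hx'' : f x' < (s : ℝ) := hx'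
      refine ⟨s - f x', by linarith, ?_⟩
      intro t hst hts
      rcases lt_or_eq_of_le hst with h | h
      · obtain ⟨y, hy, hfy⟩ := hD x' hx'O t (Or.inr ⟨by linarith, by rw [hx]; exact h⟩)
        have : projIcc a b hab.le (f y) ∈ V := hy
        rwa [hval t y hfy] at this
      · have : t = s := Subtype.ext h
        rw [this]; exact hs
    · refine ⟨1, one_pos, ?_⟩
      intro t hst _
      have : t = s := Subtype.ext (le_antisymm hst (hsa.ge.trans t.2.1))
      rw [this]; exact hs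
  obtain ⟨ε₁, hε₁, h₁⟩ := hright
  obtain ⟨ε₂, hε₂, h₂⟩ := hleft
  refine ⟨min ε₁ ε₂, lt_min hε₁ hε₂, ?_⟩
  intro t ht
  have ht' : |(t : ℝ) - s| < min ε₁ ε₂ := ht
  have h3 := lt_min_iff.1 ht'
  have h4 := abs_lt.1 h3.1
  have h5 := abs_lt.1 h3.2
  rcases le_total (s : ℝ) t with h | h
  · exact h₁ t h (by linarith)
  · exact h₂ t h (by linarith)

/-- Quotient map onto a subspace of the unit interval -/
def Good (X : Type) [TopologicalSpace X] : Prop :=
  ∃ S : Set ℝ, S ⊆ Icc (0 : ℝ) 1 ∧ S.Infinite ∧ ∃ q : X → S, IsQuotientMap q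

theorem Good.comp {X Z : Type} [TopologicalSpace X] [TopologicalSpace Z] {q : X → Z}
    (hq : IsQuotientMap q) (h : Good Z) : Good X := by
  obtain ⟨S, hS, hSi, g, hg⟩ := h
  exact ⟨S, hS, hSi, g ∘ q, hg.comp hq⟩

theorem good_of_interval {X : Type} [TopologicalSpace X] [PreconnectedSpace X] (f : X → ℝ)
    (hf : Continuous f) (a b : ℝ) (h0a : 0 ≤ a) (hb1 : b ≤ 1) (hab : a < b) (ha : ∃ x, f x ≤ a)
    (hb : ∃ x, b ≤ f x)
    (hLD : ∀ x, a ≤ f x → f x ≤ b → ∀ O ∈ 𝓝 x, ∃ O' ∈ 𝓝 x, ∀ x' ∈ O', ∀ t,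
      ((f x < t ∧ t < f x') ∨ (f x' < t ∧ t < f x)) → ∃ y ∈ O, f y = t) : Good X :=
  ⟨Icc a b, Icc_subset_Icc h0a hb1, Icc_infinite hab, _, transfer f hf a b hab ha hb hLD⟩

/-- continuum case -/
theorem good_of_continuum {Z : Type} [TopologicalSpace Z] [T35Space Z] (K : Set Z)
    (hK : IsCompact K) (hc : IsPreconnected K) (hn : K.Nontrivial) : Good Z := by
  obtain ⟨p, hp, q, hq, hpq⟩ := hn
  obtain ⟨f, hf, hfp, hfq⟩ := CompletelyRegularSpace.completely_regular p {q} isClosed_singleton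
    (by simpa using hpq)
  have hfq' : f q = 1 := hfq rfl
  haveI : CompactSpace K := isCompact_iff_compactSpace.1 hK
  have hcomp : IsQuotientMap (f ∘ (Subtype.val : K → Z)) := by
    have hcont : Continuous (f ∘ (Subtype.val : K → Z)) := hf.comp continuous_subtype_val
    refine IsClosedMap.isQuotientMap hcont.isClosedMap hcont ?_
    intro t
    have hsub : Icc (f p) (f q) ⊆ f '' K := hc.intermediate_value hp hq hf.continuousOn
    obtain ⟨z, hz, hfz⟩ := hsub (show t ∈ Icc (f p) (f q) by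
      rw [hfp, hfq']; exact ⟨unitInterval.nonneg', unitInterval.le_one'⟩)
    exact ⟨⟨z, hz⟩, hfz⟩
  exact ⟨Icc 0 1, subset_rfl, Icc_infinite zero_lt_one, f,
    IsQuotientMap.of_comp continuous_subtype_val hf hcomp⟩

/-- locally connected case, connected space -/
theorem good_of_lc {X : Type} [TopologicalSpace X] [T35Space X] [PreconnectedSpace X] (p p' : X)
    (hne : p ≠ p') (N : Set X) (hN : N ∈ 𝓝 p) [LocallyConnectedSpace N] : Good X := by
  obtain ⟨u, hu, hup, hu1⟩ := CompletelyRegularSpace.completely_regular p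
    (interior N ∩ {p'}ᶜ)ᶜ (by
      rw [isClosed_compl_iff]
      exact isOpen_interior.inter isClosed_singleton.isOpen_compl)
    (by
      rw [mem_compl_iff, not_not]
      exact ⟨mem_interior_iff_mem_nhds.2 hN, hne⟩)
  have hloc : ∀ x ∈ interior N, ∀ O ∈ 𝓝 x, ∃ V ∈ 𝓝 x, V ⊆ O ∧ IsPreconnected V := by
    intro x hx O hO
    have hxN : x ∈ N := interior_subset hx
    have hpre : (Subtype.val : N → X) ⁻¹' O ∈ 𝓝 (⟨x, hxN⟩ : N) :=
      continuous_subtype_val.continuousAt.preimage_mem_nhds hO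
    obtain ⟨V, ⟨hVo, hVm, hVc⟩, hVO⟩ :=
      (LocallyConnectedSpace.open_connected_basis (⟨x, hxN⟩ : N)).mem_iff.1 hpre
    refine ⟨Subtype.val '' V, ?_, ?_, hVc.isPreconnected.image _ continuous_subtype_val.continuousOn⟩
    · have hNx : N ∈ 𝓝 x := mem_interior_iff_mem_nhds.1 hx
      have hmap : Filter.map (Subtype.val : N → X) (𝓝 ⟨x, hxN⟩) = 𝓝 x :=
        map_nhds_subtype_coe_eq_nhds hxN hNx
      rw [← hmap]
      exact Filter.image_mem_map (hVo.mem_nhds hVm)
    · rintro _ ⟨y, hy, rfl⟩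
      exact hVO hy
  refine good_of_interval (fun x => (u x : ℝ)) (continuous_subtype_val.comp hu) (1 / 3) (2 / 3)
    (by norm_num) (by norm_num) (by norm_num) ⟨p, ?_⟩ ⟨p', ?_⟩ ?_
  · show (u p : ℝ) ≤ 1 / 3
    rw [hup]; norm_num
  · show 2 / 3 ≤ (u p' : ℝ)
    have : u p' = 1 := hu1 (by
      rw [mem_compl_iff, mem_inter_iff]
      rintro ⟨-, h⟩
      exact h rfl)
    rw [this]; norm_num
  · intro x hx1 hx2 O hO
    have hxN : x ∈ interior N := by
      by_contra hcon
      have : u x = 1 := hu1 (fun h => hcon h.1)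
      rw [this] at hx2
      norm_num at hx2
    obtain ⟨V, hV, hVO, hVc⟩ := hloc x hxN O hO
    have hxV := mem_of_mem_nhds hV
    refine ⟨V, hV, ?_⟩
    intro x' hx' t ht
    have hcu : ContinuousOn (fun x => (u x : ℝ)) V := (continuous_subtype_val.comp hu).continuousOn
    rcases ht with ⟨h1, h2⟩ | ⟨h1, h2⟩
    · obtain ⟨y, hy, hfy⟩ := hVc.intermediate_value hxV hx' hcu ⟨h1.le, h2.le⟩
      exact ⟨y, hVO hy, hfy⟩
    · obtain ⟨y, hy, hfy⟩ := hVc.intermediate_value hx' hxV hcu ⟨h1.le, h2.le⟩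
      exact ⟨y, hVO hy, hfy⟩

/-- metric theorem for a continuous pseudometric on a connected space -/
theorem metric_thm' {X : Type} [TopologicalSpace X] [PreconnectedSpace X] (D : X → X → ℝ)
    (h0 : ∀ x, D x x = 0) (hc : ∀ x y, D x y = D y x) (ht : ∀ x y z, D x z ≤ D x y + D y z)
    (hcont : ∀ x, ∀ ε > 0, ∀ᶠ y in 𝓝 x, D x y < ε) (a b : X) (hab : 0 < D a b) :
    ∃ f : X → ℝ, Continuous f ∧
      (∀ x, ∀ ε > 0, ∃ δ > 0, ∀ y, D x y < δ → |f y - f x| < ε) ∧
      (∃ u, f u ≤ -(9 / 10)) ∧ (∃ v, 9 / 10 ≤ f v) ∧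
      ∀ x, ∀ ε > 0, ∃ δ > 0, ∀ x', D x x' < δ → ∀ t, ((f x < t ∧ t < f x') ∨ (f x' < t ∧ t < f x)) →
        ∃ y, D x y < ε ∧ f y = t := by
  let m : PseudoMetricSpace X :=
    { dist := D, dist_self := h0, dist_comm := hc, dist_triangle := ht }
  have hid : @Continuous X X _ m.toUniformSpace.toTopologicalSpace id := by
    refine (@continuous_iff_continuousAt X X _ m.toUniformSpace.toTopologicalSpace id).2 ?_
    intro x
    refine (@Metric.tendsto_nhds X X m (𝓝 x) id x).2 ?_
    intro ε hε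
    have := hcont x ε hε
    filter_upwards [this] with y hy
    show D y x < ε
    rw [hc]; exact hy
  have hpre : @PreconnectedSpace X m.toUniformSpace.toTopologicalSpace := by
    refine @PreconnectedSpace.mk X m.toUniformSpace.toTopologicalSpace ?_
    have h1 : IsPreconnected (univ : Set X) := isPreconnected_univ
    have h2 := @IsPreconnected.image X X _ m.toUniformSpace.toTopologicalSpace univ h1 id
      (@Continuous.continuousOn X X _ m.toUniformSpace.toTopologicalSpace _ _ hid)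
    rwa [image_id] at h2
  obtain ⟨f, hf, hu, hv, hD⟩ := @metric_thm X m hpre a b hab
  refine ⟨f, ?_, ?_, hu, hv, hD⟩
  · exact @Continuous.comp X X ℝ _ m.toUniformSpace.toTopologicalSpace _ _ _ hf hid
  · intro x ε hε
    obtain ⟨δ, hδ, h⟩ := (@Metric.continuous_iff X ℝ m _ f).1 hf x ε hε
    refine ⟨δ, hδ, fun y hy => ?_⟩
    have := h y (show D y x < δ by rw [hc]; exact hy)
    rwa [Real.dist_eq] at this

end Pool.Agent.Helper332.FA
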