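import Pool.Agent.Helper332.FA3

set_option autoImplicit false

namespace Pool.Agent.Helper332.FA

open Topology Set

/-- metrizable neighbourhood, connected space -/
theorem good_of_metr {X : Type} [TopologicalSpace X] [T35Space X] [PreconnectedSpace X] (p p' : X)
    (hne : p ≠ p') (N : Set X) (hN : N ∈ 𝓝 p) [TopologicalSpace.MetrizableSpace N] : Good X := by
  classical
  letI : MetricSpace N := TopologicalSpace.metrizableSpaceMetric N
  have hpN : p ∈ N := mem_of_mem_nhds hN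
  -- closed neighbourhood inside the interior
  obtain ⟨F, hF, hFcl, hFN⟩ := exists_mem_nhds_isClosed_subset
    (isOpen_interior.mem_nhds (mem_interior_iff_mem_nhds.2 hN))
  obtain ⟨r, hr, hrF⟩ := Metric.mem_nhds_iff.1
    (show (Subtype.val : N → X) ⁻¹' F ∈ 𝓝 (⟨p, hpN⟩ : N) from
      continuous_subtype_val.continuousAt.preimage_mem_nhds hF)
  set P : N := ⟨p, hpN⟩ with hP
  -- the function omega
  let ω : X → ℝ := fun x => if h : x ∈ N then max 0 (r - dist (⟨x, h⟩ : N) P) else 0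
  have hω0 : ∀ x, 0 ≤ ω x := by
    intro x
    simp only [ω]
    split_ifs with h
    · exact le_max_left _ _
    · exact le_rfl
  have hωN : ∀ x (h : x ∈ N), ω x = max 0 (r - dist (⟨x, h⟩ : N) P) := by
    intro x h
    simp only [ω, dif_pos h]
  have hωn : ∀ x, x ∉ N → ω x = 0 := by
    intro x h
    simp only [ω, dif_neg h]
  have hωF : ∀ x, x ∉ F → ω x = 0 := by
    intro x hx
    by_cases h : x ∈ N
    · rw [hωN x h, max_eq_left]
      by_contra hcon
      push Not at hcon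
      have : (⟨x, h⟩ : N) ∈ Metric.ball P r := by
        rw [Metric.mem_ball]; linarith
      exact hx (hrF this)
    · exact hωn x h
  have hωlip : ∀ x (hx : x ∈ N) y (hy : y ∈ N), ω x ≤ ω y + dist (⟨x, hx⟩ : N) ⟨y, hy⟩ := by
    intro x hx y hy
    rw [hωN x hx, hωN y hy]
    have h1 := dist_triangle (⟨y, hy⟩ : N) ⟨x, hx⟩ P
    rw [dist_comm (⟨y, hy⟩ : N) ⟨x, hx⟩] at h1
    have h2 := le_max_right 0 (r - dist (⟨y, hy⟩ : N) P)
    have h3 := le_max_left 0 (r - dist (⟨y, hy⟩ : N) P)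
    have h4 : (0 : ℝ) ≤ dist (⟨x, hx⟩ : N) ⟨y, hy⟩ := dist_nonneg
    refine max_le ?_ ?_
    · linarith
    · linarith
  let D : X → X → ℝ := fun x y =>
    if h : x ∈ N ∧ y ∈ N then min (dist (⟨x, h.1⟩ : N) ⟨y, h.2⟩) (ω x + ω y) else ω x + ω y
  have hDN : ∀ x (hx : x ∈ N) y (hy : y ∈ N),
      D x y = min (dist (⟨x, hx⟩ : N) ⟨y, hy⟩) (ω x + ω y) := by
    intro x hx y hy
    simp only [D, dif_pos (And.intro hx hy)]
  have hDn : ∀ x y, ¬ (x ∈ N ∧ y ∈ N) → D x y = ω x + ω y := by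
    intro x y h
    simp only [D, dif_neg h]
  have hDle : ∀ x y, D x y ≤ ω x + ω y := by
    intro x y
    by_cases h : x ∈ N ∧ y ∈ N
    · rw [hDN x h.1 y h.2]; exact min_le_right _ _
    · rw [hDn x y h]
  have h0 : ∀ x, D x x = 0 := by
    intro x
    by_cases h : x ∈ N
    · rw [hDN x h x h, dist_self, min_eq_left]
      linarith [hω0 x]
    · rw [hDn x x (fun hh => h hh.1), hωn x h]; ring
  have hc : ∀ x y, D x y = D y x := by
    intro x y
    by_cases h : x ∈ N ∧ y ∈ N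
    · rw [hDN x h.1 y h.2, hDN y h.2 x h.1, dist_comm, add_comm]
    · rw [hDn x y h, hDn y x (fun hh => h hh.symm), add_comm]
  have ht : ∀ x y z, D x z ≤ D x y + D y z := by
    intro x y z
    have hx0 := hω0 x
    have hy0 := hω0 y
    have hz0 := hω0 z
    by_cases hx : x ∈ N
    · by_cases hy : y ∈ N
      · by_cases hz : z ∈ N
        · rw [hDN x hx y hy, hDN y hy z hz, hDN x hx z hz]
          have t1 := dist_triangle (⟨x, hx⟩ : N) ⟨y, hy⟩ ⟨z, hz⟩
          have t2 := hωlip x hx y hy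
          have t3 := hωlip z hz y hy
          rw [dist_comm (⟨z, hz⟩ : N) ⟨y, hy⟩] at t3
          rcases min_choice (dist (⟨x, hx⟩ : N) ⟨y, hy⟩) (ω x + ω y) with e1 | e1 <;>
          rcases min_choice (dist (⟨y, hy⟩ : N) ⟨z, hz⟩) (ω y + ω z) with e2 | e2 <;>
          rw [e1, e2]
          · exact (min_le_left _ _).trans t1
          · exact (min_le_right _ _).trans (by linarith)
          · exact (min_le_right _ _).trans (by linarith)
          · exact (min_le_right _ _).trans (by linarith)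
        · have hz' := hωn z hz
          rw [hDn x z (fun h => hz h.2), hDn y z (fun h => hz h.2), hDN x hx y hy, hz']
          have t2 := hωlip x hx y hy
          rcases min_choice (dist (⟨x, hx⟩ : N) ⟨y, hy⟩) (ω x + ω y) with e1 | e1 <;> rw [e1] <;>
          linarith
      · have hy' := hωn y hy
        rw [hDn x y (fun h => hy h.2), hDn y z (fun h => hy h.1), hy']
        have := hDle x z
        linarith
    · have hx' := hωn x hx
      rw [hDn x z (fun h => hx h.1), hDn x y (fun h => hx h.1), hx']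
      by_cases hyz : y ∈ N ∧ z ∈ N
      · rw [hDN y hyz.1 z hyz.2]
        have t3 := hωlip z hyz.2 y hyz.1
        rw [dist_comm (⟨z, hyz.2⟩ : N) ⟨y, hyz.1⟩] at t3
        rcases min_choice (dist (⟨y, hyz.1⟩ : N) ⟨z, hyz.2⟩) (ω y + ω z) with e1 | e1 <;> rw [e1] <;>
          linarith
      · rw [hDn y z hyz]; linarith
  have hcont : ∀ x, ∀ ε > 0, ∀ᶠ y in 𝓝 x, D x y < ε := by
    intro x ε hε
    by_cases hxF : x ∈ F
    · have hxi : x ∈ interior N := hFN hxF
      have hxN : x ∈ N := interior_subset hxi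
      have hmap : Filter.map (Subtype.val : N → X) (𝓝 ⟨x, hxN⟩) = 𝓝 x :=
        map_nhds_subtype_coe_eq_nhds hxN (mem_interior_iff_mem_nhds.1 hxi)
      rw [← hmap, Filter.eventually_map]
      filter_upwards [Metric.ball_mem_nhds (⟨x, hxN⟩ : N) hε] with y hy
      rw [hDN x hxN y.1 y.2]
      refine lt_of_le_of_lt (min_le_left _ _) ?_
      rw [dist_comm]
      exact hy
    · filter_upwards [hFcl.isOpen_compl.mem_nhds hxF] with y hy
      have h1 := hDle x y
      rw [hωF x hxF, hωF y hy] at h1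
      linarith
  have hωp : ω p = r := by
    rw [hωN p hpN, hP, dist_self, sub_zero, max_eq_right hr.le]
  have hab : 0 < D p p' := by
    by_cases h : p' ∈ N
    · rw [hDN p hpN p' h]
      refine lt_min (dist_pos.2 ?_) (by linarith [hω0 p'])
      intro heq
      exact hne (congrArg Subtype.val heq)
    · rw [hDn p p' (fun hh => h hh.2)]
      linarith [hω0 p']
  obtain ⟨f, hf, hfε, ⟨u, hu⟩, ⟨v, hv⟩, hLD⟩ := metric_thm' D h0 hc ht hcont p p' hab
  -- constancy on the zero set of ω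
  have hconst : ∀ x y, ω x = 0 → ω y = 0 → f x = f y := by
    intro x y hx hy
    by_contra hne'
    have hpos : 0 < |f y - f x| := abs_pos.2 (sub_ne_zero.2 (Ne.symm hne'))
    obtain ⟨δ, hδ, h⟩ := hfε x _ hpos
    have h1 := hDle x y
    rw [hx, hy] at h1
    exact lt_irrefl _ (h y (by linarith))
  -- neighbourhoods at points with ω > 0
  have hnhds : ∀ x, ω x ≠ 0 → ∀ O ∈ 𝓝 x, ∃ ε > 0, ∀ y, D x y < ε → y ∈ O := by
    intro x hx O hO
    have hxN : x ∈ N := by
      by_contra h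
      exact hx (hωn x h)
    have hωx : 0 < ω x := lt_of_le_of_ne (hω0 x) (Ne.symm hx)
    obtain ⟨ε, hε, hεO⟩ := Metric.mem_nhds_iff.1
      (show (Subtype.val : N → X) ⁻¹' O ∈ 𝓝 (⟨x, hxN⟩ : N) from
        continuous_subtype_val.continuousAt.preimage_mem_nhds hO)
    refine ⟨min ε (ω x), lt_min hε hωx, ?_⟩
    intro y hy
    have hy1 := lt_of_lt_of_le hy (min_le_left _ _)
    have hy2 := lt_of_lt_of_le hy (min_le_right _ _)
    have hyN : y ∈ N := by
      by_contra h
      rw [hDn x y (fun hh => h hh.2)] at hy2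
      linarith [hω0 y]
    rw [hDN x hxN y hyN] at hy1 hy2
    rcases min_choice (dist (⟨x, hxN⟩ : N) ⟨y, hyN⟩) (ω x + ω y) with e1 | e1
    · rw [e1] at hy1
      have : (⟨y, hyN⟩ : N) ∈ Metric.ball (⟨x, hxN⟩ : N) ε := by
        rw [Metric.mem_ball, dist_comm]; exact hy1
      exact hεO this
    · rw [e1] at hy2
      linarith [hω0 y]
  have hmain : ∀ g : X → ℝ, Continuous g → (∃ u, g u ≤ -(9 / 10)) → (∃ v, 9 / 10 ≤ g v) →
      (∀ x, ∀ ε > 0, ∃ δ > 0, ∀ x', D x x' < δ → ∀ t,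
        ((g x < t ∧ t < g x') ∨ (g x' < t ∧ t < g x)) → ∃ y, D x y < ε ∧ g y = t) →
      (∀ x, ω x = 0 → ¬ (1 / 10 ≤ g x ∧ g x ≤ 8 / 10)) → Good X := by
    rintro g hg ⟨u, hu⟩ ⟨v, hv⟩ hgD hg0
    refine good_of_interval g hg (1 / 10) (8 / 10) (by norm_num) (by norm_num) (by norm_num)
      ⟨u, by linarith⟩ ⟨v, by linarith⟩ ?_
    intro x hx1 hx2 O hO
    have hωx : ω x ≠ 0 := fun h => hg0 x h ⟨hx1, hx2⟩
    obtain ⟨ε, hε, hεO⟩ := hnhds x hωx O hO
    obtain ⟨δ, hδ, hδD⟩ := hgD x ε hε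
    refine ⟨{y | D x y < δ}, hcont x δ hδ, ?_⟩
    intro x' hx' t ht'
    obtain ⟨y, hy, hgy⟩ := hδD x' hx' t ht'
    exact ⟨y, hεO y hy, hgy⟩
  by_cases hcase : ∃ x0, ω x0 = 0 ∧ 1 / 10 ≤ f x0 ∧ f x0 ≤ 8 / 10
  · obtain ⟨x0, hx0, h1, h2⟩ := hcase
    refine hmain (fun x => - f x) hf.neg ⟨v, by linarith⟩ ⟨u, by linarith⟩ ?_ ?_
    · intro x ε hε
      obtain ⟨δ, hδ, h⟩ := hLD x ε hε
      refine ⟨δ, hδ, ?_⟩
      intro x' hx' t ht'
      obtain ⟨y, hy, hfy⟩ := h x' hx' (-t) (by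
        rcases ht' with ⟨h1, h2⟩ | ⟨h1, h2⟩
        · exact Or.inr ⟨by linarith, by linarith⟩
        · exact Or.inl ⟨by linarith, by linarith⟩)
      exact ⟨y, hy, by simp [hfy]⟩
    · intro x hx ⟨h3, _⟩
      have := hconst x x0 hx hx0
      have h3' : 1 / 10 ≤ - f x := h3
      linarith
  · refine hmain f hf ⟨u, hu⟩ ⟨v, hv⟩ hLD ?_
    intro x hx h
    exact hcase ⟨x, hx, h⟩

end Pool.Agent.Helper332.FA
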