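import Pool.Agent.Helper332.FA4
import Pool.Agent.Helper332.FA1

set_option autoImplicit false

namespace Pool.Agent.Helper332.FA

open Topology Set

/-- an infinite family of clopen sets gives an infinite disjoint sequence -/
theorem exists_disjoint_clopen {Z : Type} [TopologicalSpace Z] (h : {U : Set Z | IsClopen U}.Infinite) :
    ∃ U : ℕ → Set Z, (∀ n, IsClopen (U n)) ∧ (∀ n, (U n).Nonempty) ∧
      ∀ m n, m ≠ n → Disjoint (U m) (U n) := by
  classical
  -- big clopen sets
  let Big : Set Z → Prop := fun C => IsClopen C ∧ {U : Set Z | IsClopen U ∧ U ⊆ C}.Infinite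
  have hstep : ∀ C, Big C → ∃ C', Big C' ∧ C' ⊆ C ∧ (C \ C').Nonempty := by
    intro C ⟨hC, hinf⟩
    -- pick U different from ∅ and C
    obtain ⟨U, hU, hUn⟩ := (hinf.diff ((finite_singleton ∅).union (finite_singleton C))).nonempty
    have hUne : U ≠ ∅ := fun h => hUn (Or.inl h)
    have hUC : U ≠ C := fun h => hUn (Or.inr h)
    obtain ⟨hUcl, hUsub⟩ := hU
    have hdiff : (C \ U).Nonempty := by
      rw [nonempty_iff_ne_empty]
      intro he
      exact hUC (hUsub.antisymm (diff_eq_empty.1 he))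
    by_cases h1 : {V : Set Z | IsClopen V ∧ V ⊆ U}.Infinite
    · exact ⟨U, ⟨hUcl, h1⟩, hUsub, hdiff⟩
    · have h2 : {V : Set Z | IsClopen V ∧ V ⊆ C \ U}.Infinite := by
        intro hfin
        apply hinf
        rw [Set.not_infinite] at h1
        refine ((h1.prod hfin).image (fun p : Set Z × Set Z => p.1 ∪ p.2)).subset ?_
        intro W ⟨hW, hWC⟩
        refine ⟨(W ∩ U, W ∩ (C \ U)), ⟨⟨hW.inter hUcl, inter_subset_right⟩,
          ⟨hW.inter (hC.diff hUcl), inter_subset_right⟩⟩, ?_⟩
        show W ∩ U ∪ W ∩ (C \ U) = W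
        rw [← inter_union_distrib_left, union_diff_cancel hUsub]
        exact inter_eq_left.2 hWC
      refine ⟨C \ U, ⟨hC.diff hUcl, h2⟩, diff_subset, ?_⟩
      rw [diff_diff_cancel_left hUsub]
      exact nonempty_iff_ne_empty.2 hUne
  choose nxt hn1 hn2 hn3 using hstep
  let s : ℕ → {C : Set Z // Big C} := fun n => Nat.rec ⟨univ, isClopen_univ, by
    simpa using h⟩ (fun _ C => ⟨nxt C.1 C.2, hn1 C.1 C.2⟩) n
  have hs : ∀ n, (s (n + 1)).1 = nxt (s n).1 (s n).2 := fun n => rfl
  have hanti : ∀ m n, m ≤ n → (s n).1 ⊆ (s m).1 := by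
    intro m n hmn
    induction n, hmn using Nat.le_induction with
    | base => exact subset_rfl
    | succ k _ ih => exact (by rw [hs]; exact hn2 _ _ : (s (k + 1)).1 ⊆ (s k).1).trans ih
  refine ⟨fun n => (s n).1 \ (s (n + 1)).1, fun n => (s n).2.1.diff (s (n + 1)).2.1, ?_, ?_⟩
  · intro n
    show ((s n).1 \ (s (n + 1)).1).Nonempty
    rw [hs]; exact hn3 _ _
  · have : ∀ m n, m < n → Disjoint ((s m).1 \ (s (m + 1)).1) ((s n).1 \ (s (n + 1)).1) := by
      intro m n hmn
      rw [Set.disjoint_left]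
      intro x hx hx'
      exact hx.2 (hanti (m + 1) n hmn hx'.1)
    intro m n hmn
    rcases lt_or_gt_of_ne hmn with h | h
    · exact this m n h
    · exact (this n m h).symm

theorem pow_half_dist {m n : ℕ} (h : m ≠ n) :
    (1 / 2 : ℝ) ^ n / 2 ≤ |(1 / 2 : ℝ) ^ m - (1 / 2 : ℝ) ^ n| := by
  rcases lt_or_gt_of_ne h with h | h
  · have h1 : (1 / 2 : ℝ) ^ n ≤ (1 / 2 : ℝ) ^ (m + 1) :=
      pow_le_pow_of_le_one (by norm_num) (by norm_num) h
    rw [pow_succ] at h1
    have h2 : (0 : ℝ) < (1 / 2 : ℝ) ^ n := by positivity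
    rw [abs_of_nonneg (by linarith)]
    linarith
  · have h1 : (1 / 2 : ℝ) ^ m ≤ (1 / 2 : ℝ) ^ (n + 1) :=
      pow_le_pow_of_le_one (by norm_num) (by norm_num) h
    rw [pow_succ] at h1
    have h2 : (0 : ℝ) < (1 / 2 : ℝ) ^ n := by positivity
    rw [abs_of_nonpos (by linarith)]
    linarith

/-- clopen case -/
theorem good_of_clopen {Z : Type} [TopologicalSpace Z] (h : {U : Set Z | IsClopen U}.Infinite) :
    Good Z := by
  classical
  obtain ⟨U, hUc, hUn, hUd⟩ := exists_disjoint_clopen h
  have hvpos : ∀ n : ℕ, (0 : ℝ) < (1 / 2 : ℝ) ^ n := fun n => by positivity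
  have hvle : ∀ n : ℕ, (1 / 2 : ℝ) ^ n ≤ 1 := fun n => pow_le_one₀ (by norm_num) (by norm_num)
  have hvinj : Function.Injective fun n : ℕ => (1 / 2 : ℝ) ^ n := by
    intro m n hmn
    by_contra hne
    have h1 := pow_half_dist hne
    have h2 : (1 / 2 : ℝ) ^ m = (1 / 2 : ℝ) ^ n := hmn
    rw [h2, sub_self, abs_zero] at h1
    linarith [hvpos n]
  by_cases hE : ∃ e : ℕ → ℕ, Function.Injective e ∧ IsClosed (⋃ n, U (e n))
  · -- discrete case
    obtain ⟨e, he, hcl⟩ := hE
    let S : Set ℝ := range fun n : ℕ => (1 / 2 : ℝ) ^ n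
    let q : Z → S := fun x => if hx : ∃ n, x ∈ U (e n) then ⟨(1 / 2 : ℝ) ^ hx.choose, ⟨_, rfl⟩⟩
      else ⟨(1 / 2 : ℝ) ^ 0, ⟨0, rfl⟩⟩
    have hq1 : ∀ n x, x ∈ U (e n) → q x = ⟨(1 / 2 : ℝ) ^ n, ⟨n, rfl⟩⟩ := by
      intro n x hx
      have hex : ∃ n, x ∈ U (e n) := ⟨n, hx⟩
      have hch : hex.choose = n := by
        by_contra hne
        exact Set.disjoint_left.1 (hUd (e hex.choose) (e n) (fun h => hne (he h)))
          hex.choose_spec hx
      simp only [q, dif_pos hex]
      exact Subtype.ext (by show (1 / 2 : ℝ) ^ hex.choose = (1 / 2 : ℝ) ^ n; rw [hch])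
    have hq0 : ∀ x, (¬ ∃ n, x ∈ U (e n)) → q x = ⟨(1 / 2 : ℝ) ^ 0, ⟨0, rfl⟩⟩ := by
      intro x hx
      simp only [q, dif_neg hx]
    have hcont : IsLocallyConstant q := by
      rw [IsLocallyConstant.iff_exists_open]
      intro x
      by_cases hx : ∃ n, x ∈ U (e n)
      · obtain ⟨n, hn⟩ := hx
        refine ⟨U (e n), (hUc _).isOpen, hn, ?_⟩
        intro y hy
        rw [hq1 n y hy, hq1 n x hn]
      · refine ⟨(⋃ n, U (e n))ᶜ, hcl.isOpen_compl, ?_, ?_⟩
        · intro hx'
          exact hx (mem_iUnion.1 hx')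
        · intro y hy
          rw [hq0 x hx, hq0 y (fun h => hy (mem_iUnion.2 h))]
    haveI : DiscreteTopology S := by
      rw [discreteTopology_iff_isOpen_singleton]
      rintro ⟨_, ⟨n, rfl⟩⟩
      rw [Metric.isOpen_iff]
      rintro ⟨y, hyS⟩ hy
      rw [mem_singleton_iff] at hy
      refine ⟨(1 / 2 : ℝ) ^ n / 2, by linarith [hvpos n], ?_⟩
      rintro ⟨_, ⟨m, rfl⟩⟩ hm
      rw [hy, Metric.mem_ball, Subtype.dist_eq, Real.dist_eq] at hm
      by_contra hcon
      have hmn : m ≠ n := by
        intro h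
        apply hcon
        rw [mem_singleton_iff]
        exact Subtype.ext (by simp [h])
      have := pow_half_dist hmn
      exact absurd hm (not_lt.2 this)
    refine ⟨S, ?_, infinite_range_of_injective hvinj, q, ?_⟩
    · rintro _ ⟨n, rfl⟩
      exact ⟨(hvpos n).le, hvle n⟩
    · rw [isQuotientMap_iff, isCoinducing_iff]
      refine ⟨fun V => ⟨fun _ => isOpen_discrete V, fun _ => hcont V⟩, ?_⟩
      rintro ⟨_, ⟨n, rfl⟩⟩
      obtain ⟨x, hx⟩ := hUn (e n)
      exact ⟨x, hq1 n x hx⟩
  · -- convergent sequence case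
    push Not at hE
    let S : Set ℝ := insert 0 (range fun n : ℕ => (1 / 2 : ℝ) ^ n)
    have hmemS : ∀ n : ℕ, (1 / 2 : ℝ) ^ n ∈ S := fun n => Or.inr ⟨n, rfl⟩
    let q : Z → S := fun x => if hx : ∃ n, x ∈ U n then ⟨(1 / 2 : ℝ) ^ hx.choose, hmemS _⟩
      else ⟨0, Or.inl rfl⟩
    have hq1 : ∀ n x, x ∈ U n → q x = ⟨(1 / 2 : ℝ) ^ n, hmemS n⟩ := by
      intro n x hx
      have hex : ∃ n, x ∈ U n := ⟨n, hx⟩
      have hch : hex.choose = n := by
        by_contra hne
        exact Set.disjoint_left.1 (hUd hex.choose n hne) hex.choose_spec hx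
      simp only [q, dif_pos hex]
      exact Subtype.ext (by show (1 / 2 : ℝ) ^ hex.choose = (1 / 2 : ℝ) ^ n; rw [hch])
    have hq0 : ∀ x, (¬ ∃ n, x ∈ U n) → q x = ⟨0, Or.inl rfl⟩ := by
      intro x hx
      simp only [q, dif_neg hx]
    -- small values
    have hsmall : ∀ N : ℕ, IsOpen {x | (q x : ℝ) < (1 / 2 : ℝ) ^ N} := by
      intro N
      have : {x | (q x : ℝ) < (1 / 2 : ℝ) ^ N} = (⋃ n ∈ Finset.range (N + 1), U n)ᶜ := by
        ext x
        simp only [Set.mem_ofPred_eq, mem_compl_iff, mem_iUnion, Finset.mem_range, exists_prop,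
          not_exists, not_and]
        constructor
        · intro hx n hn hxn
          rw [hq1 n x hxn] at hx
          have h1 : (1 / 2 : ℝ) ^ N ≤ (1 / 2 : ℝ) ^ n :=
            pow_le_pow_of_le_one (by norm_num) (by norm_num) (Nat.lt_succ_iff.1 hn)
          exact absurd hx (not_lt.2 h1)
        · intro hx
          by_cases hex : ∃ n, x ∈ U n
          · obtain ⟨n, hn⟩ := hex
            rw [hq1 n x hn]
            have hNn : N + 1 ≤ n := by
              by_contra hcon
              exact hx n (by omega) hn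
            show (1 / 2 : ℝ) ^ n < (1 / 2 : ℝ) ^ N
            exact pow_lt_pow_right_of_lt_one₀ (by norm_num) (by norm_num) (by omega)
          · rw [hq0 x hex]
            exact hvpos N
      rw [this, isOpen_compl_iff]
      exact isClosed_biUnion_finset fun n _ => (hUc n).isClosed
    -- open sets of S
    have hptopen : ∀ (V : Set S) (n : ℕ), (⟨(1 / 2 : ℝ) ^ n, hmemS n⟩ : S) ∈ V →
        ∃ ε > 0, Metric.ball (⟨(1 / 2 : ℝ) ^ n, hmemS n⟩ : S) ε ⊆ V := by
      intro V n hn
      refine ⟨(1 / 2 : ℝ) ^ n / 2, by linarith [hvpos n], ?_⟩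
      rintro ⟨y, hy⟩ hyb
      rw [Metric.mem_ball, Subtype.dist_eq, Real.dist_eq] at hyb
      rcases hy with hy | ⟨m, hy⟩
      · simp only [hy, zero_sub, abs_neg, abs_of_pos (hvpos n)] at hyb
        linarith [hvpos n]
      · simp only at hyb
        have hy' : (1 / 2 : ℝ) ^ m = y := hy
        by_cases hmn : m = n
        · subst hmn
          have : (⟨y, Or.inr ⟨m, hy⟩⟩ : S) = ⟨(1 / 2 : ℝ) ^ m, hmemS m⟩ := Subtype.ext hy'.symm
          rw [this]; exact hn
        · have := pow_half_dist hmn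
          rw [hy'] at this
          exact absurd hyb (not_lt.2 this)
    have hSopen : ∀ V : Set S, IsOpen V ↔
        ((⟨0, Or.inl rfl⟩ : S) ∈ V → ∃ N : ℕ, ∀ n, N ≤ n → (⟨(1 / 2 : ℝ) ^ n, hmemS n⟩ : S) ∈ V) := by
      intro V
      constructor
      · intro hV h0
        obtain ⟨ε, hε, hb⟩ := Metric.isOpen_iff.1 hV _ h0
        obtain ⟨N, hN⟩ := exists_pow_lt_of_lt_one hε (show (1 / 2 : ℝ) < 1 by norm_num)
        refine ⟨N, fun n hn => hb ?_⟩
        rw [Metric.mem_ball, Subtype.dist_eq, Real.dist_eq]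
        simp only [sub_zero, abs_of_pos (hvpos n)]
        exact lt_of_le_of_lt (pow_le_pow_of_le_one (by norm_num) (by norm_num) hn) hN
      · intro hV
        rw [Metric.isOpen_iff]
        rintro ⟨y, hy⟩ hyV
        rcases hy with hy | ⟨m, hy⟩
        · have h0 : (⟨0, Or.inl rfl⟩ : S) ∈ V := by
            have : (⟨y, Or.inl hy⟩ : S) = ⟨0, Or.inl rfl⟩ := Subtype.ext hy
            rw [← this]; exact hyV
          obtain ⟨N, hN⟩ := hV h0
          refine ⟨(1 / 2 : ℝ) ^ N, hvpos N, ?_⟩
          rintro ⟨z, hz⟩ hzb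
          rw [Metric.mem_ball, Subtype.dist_eq, Real.dist_eq] at hzb
          simp only [hy, sub_zero] at hzb
          rcases hz with hz | ⟨n, hz⟩
          · have : (⟨z, Or.inl hz⟩ : S) = ⟨0, Or.inl rfl⟩ := Subtype.ext hz
            rw [this]; exact h0
          · have hz' : (1 / 2 : ℝ) ^ n = z := hz
            have : (⟨z, Or.inr ⟨n, hz⟩⟩ : S) = ⟨(1 / 2 : ℝ) ^ n, hmemS n⟩ := Subtype.ext hz'.symm
            rw [this]
            apply hN
            by_contra hcon
            push Not at hcon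
            rw [← hz', abs_of_pos (hvpos n)] at hzb
            have h1 : (1 / 2 : ℝ) ^ N ≤ (1 / 2 : ℝ) ^ n :=
              pow_le_pow_of_le_one (by norm_num) (by norm_num) hcon.le
            linarith
        · have hy' : (1 / 2 : ℝ) ^ m = y := hy
          have : (⟨y, Or.inr ⟨m, hy⟩⟩ : S) = ⟨(1 / 2 : ℝ) ^ m, hmemS m⟩ := Subtype.ext hy'.symm
          rw [this] at hyV ⊢
          exact hptopen V m hyV
    refine ⟨S, ?_, ?_, q, ?_⟩
    · rintro x (hx | ⟨n, rfl⟩)
      · rw [hx]; exact ⟨le_rfl, zero_le_one⟩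
      · exact ⟨(hvpos n).le, hvle n⟩
    · exact (infinite_range_of_injective hvinj).mono (subset_insert _ _)
    · -- the complement of the union is nonempty
      have hne : ∃ x, ¬ ∃ n, x ∈ U n := by
        by_contra hcon
        push Not at hcon
        have : (⋃ n, U (id n)) = univ := eq_univ_of_forall fun x => mem_iUnion.2 (hcon x)
        exact hE id Function.injective_id (by rw [this]; exact isClosed_univ)
      rw [isQuotientMap_iff, isCoinducing_iff]
      refine ⟨fun V => ⟨fun hV => ?_, fun hV => ?_⟩, ?_⟩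
      · -- quotient
        rw [hSopen]
        intro h0
        by_contra hcon
        push Not at hcon
        -- infinitely many n outside V
        have hinf : {n : ℕ | (⟨(1 / 2 : ℝ) ^ n, hmemS n⟩ : S) ∉ V}.Infinite := by
          rw [Set.infinite_iff_exists_gt]
          intro a
          obtain ⟨n, hn, hnV⟩ := hcon (a + 1)
          exact ⟨n, hnV, by omega⟩
        let em := hinf.natEmbedding
        apply hE (fun n => (em n : ℕ)) (fun a b hab => em.injective (Subtype.ext hab))
        -- closed : complement of union is open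
        rw [← isOpen_compl_iff, isOpen_iff_mem_nhds]
        intro x hx
        by_cases hex : ∃ n, x ∈ U n
        · obtain ⟨n, hn⟩ := hex
          refine Filter.mem_of_superset ((hUc n).isOpen.mem_nhds hn) ?_
          intro y hy hy'
          obtain ⟨m, hm⟩ := mem_iUnion.1 hy'
          have : (em m : ℕ) = n := by
            by_contra hne'
            exact Set.disjoint_left.1 (hUd _ _ hne') hm hy
          apply hx
          rw [mem_iUnion]
          exact ⟨m, by rw [this]; exact hn⟩
        · have hxV : x ∈ q ⁻¹' V := by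
            show q x ∈ V
            rw [hq0 x hex]; exact h0
          refine Filter.mem_of_superset (hV.mem_nhds hxV) ?_
          intro y hy hy'
          obtain ⟨m, hm⟩ := mem_iUnion.1 hy'
          have h1 : q y ∈ V := hy
          rw [hq1 _ y hm] at h1
          exact (em m).2 h1
      · -- continuity
        rw [isOpen_iff_mem_nhds]
        intro x hx
        by_cases hex : ∃ n, x ∈ U n
        · obtain ⟨n, hn⟩ := hex
          refine Filter.mem_of_superset ((hUc n).isOpen.mem_nhds hn) ?_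
          intro y hy
          have h1 : q x ∈ V := hx
          show q y ∈ V
          rw [hq1 n y hy]
          rwa [hq1 n x hn] at h1
        · have h1 : q x ∈ V := hx
          rw [hq0 x hex] at h1
          obtain ⟨N, hN⟩ := (hSopen V).1 hV h1
          refine Filter.mem_of_superset ((hsmall N).mem_nhds ?_) ?_
          · show (q x : ℝ) < _
            rw [hq0 x hex]; exact hvpos N
          · intro y hy
            have hy' : (q y : ℝ) < (1 / 2 : ℝ) ^ N := hy
            show q y ∈ V
            by_cases hey : ∃ n, y ∈ U n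
            · obtain ⟨n, hn⟩ := hey
              rw [hq1 n y hn] at hy' ⊢
              apply hN
              by_contra hcon
              push Not at hcon
              have h2 : (1 / 2 : ℝ) ^ N ≤ (1 / 2 : ℝ) ^ n :=
                pow_le_pow_of_le_one (by norm_num) (by norm_num) hcon.le
              exact absurd hy' (not_lt.2 h2)
            · rw [hq0 y hey]; exact h1
      · rintro ⟨y, hy | ⟨n, hy⟩⟩
        · obtain ⟨x, hx⟩ := hne
          refine ⟨x, ?_⟩
          rw [hq0 x hx]
          exact Subtype.ext hy.symm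
        · obtain ⟨x, hx⟩ := hUn n
          refine ⟨x, ?_⟩
          rw [hq1 n x hx]
          exact Subtype.ext hy

end Pool.Agent.Helper332.FA
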