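import Pool.Agent.Helper332.FA5

set_option autoImplicit false

namespace Pool.Agent.Helper332.FA

open Topology Set

/-- non-isolated point with a metrizable or locally connected neighbourhood -/
theorem good_main {Z : Type} [TopologicalSpace Z] [T35Space Z] (z : Z) (hz : ¬ IsOpen ({z} : Set Z))
    (N : Set Z) (hN : N ∈ 𝓝 z)
    (h : TopologicalSpace.MetrizableSpace N ∨ LocallyConnectedSpace N) : Good Z := by
  classical
  by_cases hinf : {U : Set Z | IsClopen U}.Infinite
  · exact good_of_clopen hinf
  rw [Set.not_infinite] at hinf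
  set 𝒞 : Set (Set Z) := {U : Set Z | IsClopen U ∧ z ∈ U} with h𝒞
  have h𝒞fin : 𝒞.Finite := hinf.subset fun U hU => hU.1
  set C : Set Z := ⋂ U ∈ 𝒞, U with hC
  have hCcl : IsClopen C := h𝒞fin.isClopen_biInter fun U hU => hU.1
  have hzC : z ∈ C := mem_iInter₂.2 fun U hU => hU.2
  have hmin : ∀ U, IsClopen U → z ∈ U → C ⊆ U := fun U hU hzU => biInter_subset_of_mem ⟨hU, hzU⟩
  -- C is preconnected
  haveI hpre : PreconnectedSpace C := by
    rw [preconnectedSpace_iff_clopen]
    intro s hs
    have hclop : ∀ t : Set C, IsClopen t → IsClopen (Subtype.val '' t) := fun t ht =>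
      ⟨hCcl.isClosed.isClosedEmbedding_subtypeVal.isClosedMap _ ht.isClosed,
        hCcl.isOpen.isOpenEmbedding_subtypeVal.isOpenMap _ ht.isOpen⟩
    by_cases hzs : (⟨z, hzC⟩ : C) ∈ s
    · right
      have := hmin _ (hclop s hs) ⟨_, hzs, rfl⟩
      refine eq_univ_of_forall fun x => ?_
      obtain ⟨y, hy, hxy⟩ := this x.2
      rwa [← Subtype.ext hxy]
    · left
      have := hmin _ (hclop sᶜ hs.compl) ⟨_, hzs, rfl⟩
      refine eq_empty_of_forall_notMem fun x hx => ?_
      obtain ⟨y, hy, hxy⟩ := this x.2
      rw [Subtype.ext hxy] at hy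
      exact hy hx
  -- another point of C
  have hex : ∃ w ∈ C, w ≠ z := by
    by_contra hcon
    push Not at hcon
    apply hz
    have : C = {z} := Subset.antisymm (fun w hw => hcon w hw) (by rintro _ rfl; exact hzC)
    rw [← this]; exact hCcl.isOpen
  obtain ⟨w, hwC, hwz⟩ := hex
  set p : C := ⟨z, hzC⟩ with hp
  set p' : C := ⟨w, hwC⟩ with hp'
  have hpp : p ≠ p' := fun heq => hwz (congrArg Subtype.val heq).symm
  set N' : Set C := Subtype.val ⁻¹' N with hN'
  have hN'p : N' ∈ 𝓝 p := continuous_subtype_val.continuousAt.preimage_mem_nhds hN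
  let ι : N' → N := fun x => ⟨x.1.1, x.2⟩
  have hιc : Continuous ι :=
    Continuous.subtype_mk (continuous_subtype_val.comp continuous_subtype_val) _
  have hιe : IsEmbedding ι := by
    refine IsEmbedding.of_comp hιc continuous_subtype_val ?_
    exact (IsEmbedding.subtypeVal.comp IsEmbedding.subtypeVal :
      IsEmbedding ((Subtype.val : C → Z) ∘ (Subtype.val : N' → C)))
  have hιo : IsOpenEmbedding ι := by
    refine ⟨hιe, ?_⟩
    have : range ι = (Subtype.val : N → Z) ⁻¹' C := by
      ext x
      constructor
      · rintro ⟨y, rfl⟩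
        exact y.1.2
      · intro hx
        exact ⟨⟨⟨x.1, hx⟩, x.2⟩, rfl⟩
    rw [this]
    exact hCcl.isOpen.preimage continuous_subtype_val
  have hGC : Good C := by
    rcases h with h | h
    · haveI : TopologicalSpace.MetrizableSpace N' := hιe.metrizableSpace
      exact good_of_metr p p' hpp N' hN'p
    · haveI : LocallyConnectedSpace N' := hιo.locallyConnectedSpace
      exact good_of_lc p p' hpp N' hN'p
  -- retraction
  let r : Z → C := fun x => if hx : x ∈ C then ⟨x, hx⟩ else p
  have hrc : Continuous r := by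
    rw [IsInducing.subtypeVal.continuous_iff]
    have : (Subtype.val : C → Z) ∘ r = C.piecewise id (fun _ => z) := by
      funext x
      by_cases hx : x ∈ C
      · simp [r, hx]
      · simp [r, hx, hp]
    rw [this]
    refine Continuous.piecewise ?_ continuous_id continuous_const
    intro a ha
    rw [hCcl.frontier_eq] at ha
    exact absurd ha (notMem_empty a)
  have hrq : IsQuotientMap r := by
    refine IsQuotientMap.of_inverse (continuous_subtype_val : Continuous (Subtype.val : C → Z)) hrc ?_
    intro x
    simp only [r, dif_pos x.2]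
  exact hGC.comp hrq

/-- infinite metrizable spaces -/
theorem good_metrizable {Z : Type} [TopologicalSpace Z] [Infinite Z]
    [TopologicalSpace.MetrizableSpace Z] : Good Z := by
  letI : MetricSpace Z := TopologicalSpace.metrizableSpaceMetric Z
  by_cases h : ∃ z : Z, ¬ IsOpen ({z} : Set Z)
  · obtain ⟨z, hz⟩ := h
    exact good_main z hz univ Filter.univ_mem (Or.inl inferInstance)
  · push Not at h
    apply good_of_clopen
    refine (infinite_range_of_injective (singleton_injective (α := Z))).mono ?_
    rintro _ ⟨z, rfl⟩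
    exact ⟨isClosed_singleton, h z⟩

/-- infinite locally connected spaces -/
theorem good_locallyConnected {Z : Type} [TopologicalSpace Z] [T35Space Z] [Infinite Z]
    [LocallyConnectedSpace Z] : Good Z := by
  by_cases h : ∃ z : Z, ¬ IsOpen ({z} : Set Z)
  · obtain ⟨z, hz⟩ := h
    refine good_main z hz univ Filter.univ_mem (Or.inr ?_)
    exact (Homeomorph.Set.univ Z).isOpenEmbedding.locallyConnectedSpace
  · push Not at h
    apply good_of_clopen
    refine (infinite_range_of_injective (singleton_injective (α := Z))).mono ?_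
    rintro _ ⟨z, rfl⟩
    exact ⟨isClosed_singleton, h z⟩

/-- all cases together -/
theorem good_all {Z : Type} [TopologicalSpace Z] [T35Space Z]
    (h : {U : Set Z | IsClopen U}.Infinite ∨
      (∃ K : Set Z, IsCompact K ∧ IsPreconnected K ∧ K.Nontrivial) ∨
      (Infinite Z ∧ TopologicalSpace.MetrizableSpace Z) ∨
      (Infinite Z ∧ LocallyConnectedSpace Z) ∨
      ∃ z : Z, ¬ IsOpen ({z} : Set Z) ∧
        ∃ N ∈ 𝓝 z, TopologicalSpace.MetrizableSpace N ∨ LocallyConnectedSpace N) : Good Z := by
  rcases h with h | ⟨K, h1, h2, h3⟩ | ⟨h1, h2⟩ | ⟨h1, h2⟩ | ⟨z, hz, N, hN, h⟩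
  · exact good_of_clopen h
  · exact good_of_continuum K h1 h2 h3
  · exact good_metrizable
  · exact good_locallyConnected
  · exact good_main z hz N hN h

end Pool.Agent.Helper332.FA
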