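import Pool.Agent.Helper332.FA6

set_option autoImplicit false

namespace Pool.Agent.Helper332.FA

open Topology Set

theorem sInf_eq {X : Type} (tX : TopologicalSpace X) :
    (sInf {t : AddGroupTopology (FreeAbelianGroup X) |
              @Continuous X (FreeAbelianGroup X) tX t.toTopologicalSpace
                (FreeAbelianGroup.of : X → FreeAbelianGroup X)}).toTopologicalSpace =
    (sInf {t : TopologicalSpace (FreeAbelianGroup X) |
              @IsTopologicalAddGroup (FreeAbelianGroup X) t _ ∧
              @Continuous X (FreeAbelianGroup X) tX t FreeAbelianGroup.of}) := by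
  rw [AddGroupTopology.toTopologicalSpace_sInf]
  congr 1
  ext t
  constructor
  · rintro ⟨s, hs, rfl⟩
    exact ⟨s.toIsTopologicalAddGroup, hs⟩
  · rintro ⟨h1, h2⟩
    exact ⟨⟨t, h1⟩, h2, rfl⟩

theorem countable_network (S : Set ℝ) : ∃ N : Set (Set S), N.Countable ∧
          ∀ (x : S) (U : Set S), IsOpen U → x ∈ U → ∃ A ∈ N, x ∈ A ∧ A ⊆ U := by
  refine ⟨TopologicalSpace.countableBasis S, TopologicalSpace.countable_countableBasis S, ?_⟩
  intro x U hU hx
  exact (TopologicalSpace.isBasis_countableBasis S).exists_subset_of_mem_open hx hU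

end Pool.Agent.Helper332.FA
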