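import Mathlib

set_option autoImplicit false

universe u

namespace Pool.Agent.Helper332.NB

open Set

variable {X : Type u}

/-- a family of open sets which is a base, closed under unions of chains, with finite rank at each
point -/
structure Good [TopologicalSpace X] (C : Set (Set X)) : Prop where
  isOpen : ∀ U ∈ C, IsOpen U
  chain : ∀ 𝓒 ⊆ C, 𝓒.Nonempty → IsChain (· ⊆ ·) 𝓒 → ⋃₀ 𝓒 ∈ C
  base : ∀ (x : X) (U : Set X), IsOpen U → x ∈ U → ∃ B ∈ C, x ∈ B ∧ B ⊆ U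
  rank : ∀ x : X, ∃ n : ℕ, ∀ l : List (Set X), (∀ U ∈ l, U ∈ C ∧ x ∈ U) →
    l.Pairwise (fun a b => ¬ a ⊆ b ∧ ¬ b ⊆ a) → l.length ≤ n

/-- `E` is a maximal member of `C` inside `O` -/
def IsMax (C : Set (Set X)) (O E : Set X) : Prop :=
  E ∈ C ∧ E ⊆ O ∧ E.Nonempty ∧ ∀ E' ∈ C, E' ⊆ O → E ⊆ E' → E' ⊆ E

theorem exists_max [TopologicalSpace X] {C : Set (Set X)} (hC : Good C) {O E : Set X}
    (hE : E ∈ C) (hEO : E ⊆ O) (hne : E.Nonempty) : ∃ M, IsMax C O M ∧ E ⊆ M := by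
  obtain ⟨M, hEM, hM⟩ := zorn_subset_nonempty {U | U ∈ C ∧ U ⊆ O} (by
    intro c hc hch hcn
    refine ⟨⋃₀ c, ⟨hC.chain c (fun U hU => (hc hU).1) hcn hch, ?_⟩, fun s hs => subset_sUnion_of_mem hs⟩
    exact sUnion_subset fun U hU => (hc hU).2) E ⟨hE, hEO⟩
  refine ⟨M, ⟨hM.prop.1, hM.prop.2, hne.mono hEM, ?_⟩, hEM⟩
  intro E' hE' hE'O hME'
  exact hM.2 ⟨hE', hE'O⟩ hME'

theorem exists_max_mem [TopologicalSpace X] {C : Set (Set X)} (hC : Good C) {O : Set X} {x : X}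
    (hO : IsOpen O) (hx : x ∈ O) : ∃ M, IsMax C O M ∧ x ∈ M := by
  obtain ⟨B, hB, hxB, hBO⟩ := hC.base x O hO hx
  obtain ⟨M, hM, hBM⟩ := exists_max hC hB hBO ⟨x, hxB⟩
  exact ⟨M, hM, hBM hxB⟩

/-- infinite sequences of members through a point are not antichains -/
theorem no_antichain [TopologicalSpace X] {C : Set (Set X)} (hC : Good C) (x : X) (f : ℕ → Set X)
    (hf : ∀ n, f n ∈ C ∧ x ∈ f n) (h : ∀ m n, m < n → ¬ f m ⊆ f n ∧ ¬ f n ⊆ f m) : False := by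
  obtain ⟨n, hn⟩ := hC.rank x
  have := hn ((List.range (n + 1)).map f) (by
    intro U hU
    rw [List.mem_map] at hU
    obtain ⟨k, _, rfl⟩ := hU
    exact hf k) (by
    rw [List.pairwise_map]
    exact List.pairwise_lt_range.imp (fun {a b} hab => h a b hab))
  simp at this

/-- Ramsey -/
theorem thin [TopologicalSpace X] {C : Set (Set X)} (hC : Good C) (x : X) (f : ℕ → Set X)
    (hf : ∀ n, f n ∈ C ∧ x ∈ f n) :
    ∃ g : ℕ ↪o ℕ, (∀ m n, m < n → f (g n) ⊆ f (g m)) ∨ (∀ m n, m < n → f (g m) ⊂ f (g n)) := by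
  haveI t1 : IsTrans (Set X) (fun a b => b ⊆ a) := ⟨fun a b c h1 h2 => h2.trans h1⟩
  haveI t2 : IsTrans (Set X) (fun a b => a ⊆ b) := ⟨fun a b c h1 h2 => h1.trans h2⟩
  obtain ⟨g1, h1 | h1⟩ := exists_increasing_or_nonincreasing_subseq (fun a b : Set X => b ⊆ a) f
  · exact ⟨g1, Or.inl h1⟩
  · obtain ⟨g2, h2 | h2⟩ := exists_increasing_or_nonincreasing_subseq (fun a b : Set X => a ⊆ b)
      (fun n => f (g1 n))
    · refine ⟨g2.trans g1, Or.inr fun m n hmn => ?_⟩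
      exact ⟨h2 m n hmn, h1 _ _ (g2.strictMono hmn)⟩
    · exfalso
      refine no_antichain hC x (fun n => f (g1 (g2 n))) (fun n => hf _) ?_
      intro m n hmn
      exact ⟨h2 m n hmn, h1 _ _ (g2.strictMono hmn)⟩

/-- one step of the construction -/
inductive Op [TopologicalSpace X] [LinearOrder X] (C S : Set (Set X)) (E : Set X) : Prop
  | lim (𝓒 : Set (Set X)) (h𝓒 : 𝓒 ⊆ S) (hE : IsMax C (interior (⋂₀ 𝓒)) E)
  | rem1 (W : Set X) (hW : W ∈ S) (p : X) (hp : p ∈ W) (hmin : ∀ z ∈ W, p ≤ z)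
      (hE : IsMax C (W \ {p}) E)
  | rem2 (W : Set X) (hW : W ∈ S) (p : X) (hp : p ∈ W) (hmin : ∀ z ∈ W, p ≤ z) (q : X)
      (hq : q ∈ W) (hqp : q ≠ p) (hqmin : ∀ z ∈ W, z ≠ p → q ≤ z) (hE : IsMax C (W \ {q}) E)
      (hpE : p ∈ E)
  | phi (W V G : Set X) (hW : W ∈ S) (hV : V ∈ S) (hG : G ∈ C) (hGW : G ⊆ W) (hVG : ¬ V ⊆ G)
      (hmax : ∀ G' ∈ C, G' ⊆ W → ¬ V ⊆ G' → G ⊆ G' → G' ⊆ G) (hE : IsMax C (V ∩ G) E)

theorem Op.max [TopologicalSpace X] [LinearOrder X] {C S : Set (Set X)} {E : Set X}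
    (h : Op C S E) : E ∈ C ∧ E.Nonempty := by
  cases h with
  | lim 𝓒 _ hE => exact ⟨hE.1, hE.2.2.1⟩
  | rem1 _ _ _ _ _ hE => exact ⟨hE.1, hE.2.2.1⟩
  | rem2 _ _ _ _ _ _ _ _ _ hE _ => exact ⟨hE.1, hE.2.2.1⟩
  | phi _ _ _ _ _ _ _ _ _ hE => exact ⟨hE.1, hE.2.2.1⟩

theorem Op.mono [TopologicalSpace X] [LinearOrder X] {C S S' : Set (Set X)} (hSS : S ⊆ S')
    {E : Set X} (h : Op C S E) : Op C S' E := by
  cases h with
  | lim 𝓒 h𝓒 hE => exact Op.lim 𝓒 (h𝓒.trans hSS) hE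
  | rem1 W hW p hp hmin hE => exact Op.rem1 W (hSS hW) p hp hmin hE
  | rem2 W hW p hp hmin q hq hqp hqmin hE hpE =>
    exact Op.rem2 W (hSS hW) p hp hmin q hq hqp hqmin hE hpE
  | phi W V G hW hV hG hGW hVG hmax hE => exact Op.phi W V G (hSS hW) (hSS hV) hG hGW hVG hmax hE

/-- the stages of the construction -/
def stage [TopologicalSpace X] [LinearOrder X] (C : Set (Set X)) (o : Ordinal.{u}) : Set (Set X) :=
  {E | Op C (⋃ (p : Ordinal.{u}) (_ : p < o), stage C p) E}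
termination_by o

/-- the family constructed -/
def N [TopologicalSpace X] [LinearOrder X] (C : Set (Set X)) : Set (Set X) :=
  ⋃ o : Ordinal.{u}, stage C o

/-- the rank function -/
noncomputable def rk [TopologicalSpace X] [LinearOrder X] (C : Set (Set X)) (E : Set X) :
    Ordinal.{u} := sInf {o | E ∈ stage C o}

theorem mem_stage_rk [TopologicalSpace X] [LinearOrder X] {C : Set (Set X)} {E : Set X}
    (h : E ∈ N C) : E ∈ stage C (rk C E) := by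
  obtain ⟨o, ho⟩ := mem_iUnion.1 h
  exact csInf_mem (s := {o | E ∈ stage C o}) ⟨o, ho⟩

theorem op_of_mem [TopologicalSpace X] [LinearOrder X] {C : Set (Set X)} {E : Set X}
    (h : E ∈ N C) : Op C {W | W ∈ N C ∧ rk C W < rk C E} E := by
  have h1 := mem_stage_rk h
  rw [stage] at h1
  refine Op.mono ?_ h1
  intro W hW
  simp only [mem_iUnion] at hW
  obtain ⟨p, hp, hWp⟩ := hW
  refine ⟨mem_iUnion.2 ⟨p, hWp⟩, lt_of_le_of_lt ?_ hp⟩
  exact csInf_le' hWp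

theorem N_closed [TopologicalSpace X] [LinearOrder X] {C : Set (Set X)} {E : Set X}
    (h : Op C (N C) E) : E ∈ N C := by
  have hbdd : N C ⊆ ⋃ (p : Ordinal.{u}) (_ : p < Order.succ (⨆ W : N C, rk C W.1)), stage C p := by
    intro W hW
    simp only [mem_iUnion]
    refine ⟨rk C W, ?_, mem_stage_rk hW⟩
    exact Order.lt_succ_of_le (Ordinal.le_iSup (fun W : N C => rk C W.1) ⟨W, hW⟩)
  refine mem_iUnion.2 ⟨Order.succ (⨆ W : N C, rk C W.1), ?_⟩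
  rw [stage]
  exact Op.mono hbdd h

theorem N_sub [TopologicalSpace X] [LinearOrder X] {C : Set (Set X)} {E : Set X}
    (h : E ∈ N C) : E ∈ C ∧ E.Nonempty := (op_of_mem h).max

end Pool.Agent.Helper332.NB
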