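import Pool.Agent.Helper332.NB1

set_option autoImplicit false

universe u

namespace Pool.Agent.Helper332.NB

open Set

variable {X : Type u}

/-- `up a b` : `a` is a member of the family properly containing `b` -/
def up [TopologicalSpace X] [LinearOrder X] (C : Set (Set X)) (a b : Set X) : Prop :=
  a ∈ N C ∧ b ⊂ a

theorem not_acc_of_seq {α : Type u} (r : α → α → Prop) (f : ℕ → α) (h : ∀ n, r (f (n + 1)) (f n)) :
    ¬ Acc r (f 0) := by
  intro ha
  have key : ∀ a, Acc r a → ∀ n, f n = a → False := by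
    intro a ha
    induction ha with
    | intro a _ ih =>
      intro n hn
      exact ih (f (n + 1)) (hn ▸ h n) (n + 1) rfl
  exact key _ ha 0 rfl

/-- bad members: the starting points of infinite strictly increasing sequences -/
def Bad [TopologicalSpace X] [LinearOrder X] (C : Set (Set X)) (E : Set X) : Prop :=
  E ∈ N C ∧ ¬ Acc (up C) E

theorem exists_next [TopologicalSpace X] [LinearOrder X] {C : Set (Set X)} {E : Set X}
    (h : Bad C E) : ∃ E', Bad C E' ∧ E ⊂ E' := by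
  by_contra hcon
  push Not at hcon
  apply h.2
  refine Acc.intro E fun E' hE' => ?_
  by_contra hacc
  exact hcon E' ⟨hE'.1, hacc⟩ hE'.2

theorem exists_argmin {α : Type u} (ρ : α → Ordinal.{u}) (T : Set α) (hT : T.Nonempty) :
    ∃ a ∈ T, ∀ b ∈ T, ρ a ≤ ρ b := by
  obtain ⟨a, ha, hmin⟩ := WellFounded.has_min (InvImage.wf ρ Ordinal.lt_wf) T hT
  exact ⟨a, ha, fun b hb => not_lt.1 (hmin b hb)⟩

/-- minimal bad sequences -/
theorem exists_min_bad [TopologicalSpace X] [LinearOrder X] {C : Set (Set X)} {E₀ : Set X}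
    (h : Bad C E₀) : ∃ f : ℕ → Set X, (∀ n, Bad C (f n)) ∧ (∀ n, f n ⊂ f (n + 1)) ∧
      (∀ E, Bad C E → rk C (f 0) ≤ rk C E) ∧
      ∀ n E, Bad C E → f n ⊂ E → rk C (f (n + 1)) ≤ rk C E := by
  obtain ⟨e0, he0, hmin0⟩ := exists_argmin (rk C) {E | Bad C E} ⟨E₀, h⟩
  have hnext : ∀ E : {E // Bad C E}, ∃ E' : {E // Bad C E}, E.1 ⊂ E'.1 ∧
      ∀ E'', Bad C E'' → E.1 ⊂ E'' → rk C E'.1 ≤ rk C E'' := by
    rintro ⟨E, hE⟩
    obtain ⟨E', hE', hEE'⟩ := exists_next hE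
    obtain ⟨a, ha, hmin⟩ := exists_argmin (rk C) {E' | Bad C E' ∧ E ⊂ E'} ⟨E', hE', hEE'⟩
    exact ⟨⟨a, ha.1⟩, ha.2, fun E'' h1 h2 => hmin E'' ⟨h1, h2⟩⟩
  choose nxt hn1 hn2 using hnext
  let f : ℕ → {E // Bad C E} := fun n => Nat.rec ⟨e0, he0⟩ (fun _ E => nxt E) n
  have hf : ∀ n, f (n + 1) = nxt (f n) := fun n => rfl
  refine ⟨fun n => (f n).1, fun n => (f n).2, ?_, hmin0, ?_⟩
  · intro n
    show (f n).1 ⊂ (f (n + 1)).1
    rw [hf]; exact hn1 _
  · intro n E h1 h2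
    show rk C (f (n + 1)).1 ≤ _
    rw [hf]; exact hn2 _ E h1 h2

section main

variable [TopologicalSpace X] [LinearOrder X] {C : Set (Set X)} (hC : Good C)
  {f : ℕ → Set X} (hf : ∀ n, Bad C (f n)) (hs : ∀ n, f n ⊂ f (n + 1))
  (h0 : ∀ E, Bad C E → rk C (f 0) ≤ rk C E)
  (hmin : ∀ n E, Bad C E → f n ⊂ E → rk C (f (n + 1)) ≤ rk C E)

include hs in
theorem f_mono : StrictMono f := strictMono_nat_of_lt_succ fun n => hs n

include hs h0 hmin in
/-- parents do not form strictly increasing sequences -/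
theorem no_incr (g : ℕ → ℕ) (W : ℕ → Set X)
    (hW : ∀ n, W n ∈ N C ∧ f (g n) ⊆ W n ∧ rk C (W n) < rk C (f (g n)))
    (hinc : ∀ m n, m < n → W m ⊂ W n) : False := by
  have hbad : Bad C (W 0) :=
    ⟨(hW 0).1, not_acc_of_seq (up C) W fun n => ⟨(hW (n + 1)).1, hinc n (n + 1) (Nat.lt_succ_self n)⟩⟩
  rcases Nat.eq_zero_or_pos (g 0) with h | h
  · have h1 := h0 _ hbad
    have h2 := (hW 0).2.2
    rw [h] at h2
    exact absurd h1 (not_le.2 h2)
  · obtain ⟨k, hk⟩ : ∃ k, g 0 = k + 1 := ⟨g 0 - 1, by omega⟩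
    have h2 := (hW 0).2.2
    have h3 := (hW 0).2.1
    rw [hk] at h2 h3
    have h4 : f k ⊂ W 0 := lt_of_lt_of_le (hs k) h3
    exact absurd (hmin k _ hbad h4) (not_le.2 h2)

include hC hf hs h0 hmin in
/-- thinning of the parents -/
theorem thin_parent (g : ℕ → ℕ) (W : ℕ → Set X)
    (hW : ∀ n, W n ∈ N C ∧ f (g n) ⊆ W n ∧ rk C (W n) < rk C (f (g n))) :
    ∃ h : ℕ ↪o ℕ, ∀ m n, m < n → W (h n) ⊆ W (h m) := by
  obtain ⟨y, hy⟩ := (N_sub (hf 0).1).2
  have hyn : ∀ n, y ∈ f n := fun n => (f_mono hs).monotone (Nat.zero_le n) hy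
  obtain ⟨h, hh | hh⟩ := thin hC y W (fun n => ⟨(N_sub (hW n).1).1, (hW n).2.1 (hyn _)⟩)
  · exact ⟨h, hh⟩
  · exact (no_incr hs h0 hmin (fun n => g (h n)) (fun n => W (h n)) (fun n => hW _) hh).elim

include hC hf hs h0 hmin in
theorem main_contra : False := by
  classical
  have hmono := f_mono hs
  obtain ⟨y, hy⟩ := (N_sub (hf 0).1).2
  have hyn : ∀ n, y ∈ f n := fun n => hmono.monotone (Nat.zero_le n) hy
  have hop : ∀ n, Op C {W | W ∈ N C ∧ rk C W < rk C (f n)} (f n) := fun n => op_of_mem (hf n).1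
  have hlt : ∀ m n, m < n → ¬ f n ⊆ f m := fun m n hmn => (hmono hmn).2
  -- pigeonhole over the four types
  have hfreq : ∃ᶠ n in Filter.atTop,
      (∃ 𝓒 : Set (Set X), 𝓒 ⊆ {W | W ∈ N C ∧ rk C W < rk C (f n)} ∧
        IsMax C (interior (⋂₀ 𝓒)) (f n)) ∨
      (∃ (W : Set X) (p : X), (W ∈ N C ∧ rk C W < rk C (f n)) ∧ p ∈ W ∧ (∀ z ∈ W, p ≤ z) ∧
        IsMax C (W \ {p}) (f n)) ∨
      (∃ (W : Set X) (p q : X), (W ∈ N C ∧ rk C W < rk C (f n)) ∧ p ∈ W ∧ (∀ z ∈ W, p ≤ z) ∧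
        q ∈ W ∧ q ≠ p ∧ (∀ z ∈ W, z ≠ p → q ≤ z) ∧ IsMax C (W \ {q}) (f n) ∧ p ∈ f n) ∨
      (∃ W V G : Set X, (W ∈ N C ∧ rk C W < rk C (f n)) ∧ (V ∈ N C ∧ rk C V < rk C (f n)) ∧
        G ∈ C ∧ G ⊆ W ∧ ¬ V ⊆ G ∧ (∀ G' ∈ C, G' ⊆ W → ¬ V ⊆ G' → G ⊆ G' → G' ⊆ G) ∧
        IsMax C (V ∩ G) (f n)) := by
    apply Filter.Eventually.frequently
    refine Filter.Eventually.of_forall fun n => ?_
    cases hop n with
    | lim 𝓒 h𝓒 hE => exact Or.inl ⟨𝓒, h𝓒, hE⟩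
    | rem1 W hW p hp hmin hE => exact Or.inr (Or.inl ⟨W, p, hW, hp, hmin, hE⟩)
    | rem2 W hW p hp hmin q hq hqp hqmin hE hpE =>
      exact Or.inr (Or.inr (Or.inl ⟨W, p, q, hW, hp, hmin, hq, hqp, hqmin, hE, hpE⟩))
    | phi W V G hW hV hG hGW hVG hmax hE =>
      exact Or.inr (Or.inr (Or.inr ⟨W, V, G, hW, hV, hG, hGW, hVG, hmax, hE⟩))
  rw [Filter.frequently_or_distrib, Filter.frequently_or_distrib,
    Filter.frequently_or_distrib] at hfreq
  rcases hfreq with h | h | h | h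
  · -- type lim
    obtain ⟨φ, hφ, hP⟩ := Filter.extraction_of_frequently_atTop h
    choose 𝓒 h𝓒 hE using hP
    have hC' : ∀ n, ∃ K ∈ 𝓒 n, ¬ f (φ (n + 1)) ⊆ K := by
      intro n
      by_contra hcon
      push Not at hcon
      have h1 : f (φ (n + 1)) ⊆ interior (⋂₀ 𝓒 n) :=
        interior_maximal (subset_sInter hcon) (hC.isOpen _ (N_sub (hf _).1).1)
      have h2 := (hE n).2.2.2 _ (N_sub (hf (φ (n + 1))).1).1 h1
        (hmono.monotone (hφ (Nat.lt_succ_self n)).le)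
      exact hlt _ _ (hφ (Nat.lt_succ_self n)) h2
    choose K hK hfK using hC'
    have hsub : ∀ n, f (φ n) ⊆ K n := fun n =>
      ((hE n).2.1.trans interior_subset).trans (sInter_subset_of_mem (hK n))
    obtain ⟨t, ht⟩ := thin_parent hC hf hs h0 hmin φ K
      (fun n => ⟨(h𝓒 n (hK n)).1, hsub n, (h𝓒 n (hK n)).2⟩)
    have h1 : t 0 < t 1 := t.strictMono Nat.zero_lt_one
    have h2 : f (φ (t 0 + 1)) ⊆ f (φ (t 1)) := hmono.monotone (hφ.monotone h1)
    exact hfK (t 0) ((h2.trans (hsub (t 1))).trans (ht 0 1 Nat.zero_lt_one))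
  · -- type rem1
    obtain ⟨φ, hφ, hP⟩ := Filter.extraction_of_frequently_atTop h
    choose W p hW hp hpm hE using hP
    have hsub : ∀ n, f (φ n) ⊆ W n := fun n => (hE n).2.1.trans diff_subset
    obtain ⟨t, ht⟩ := thin_parent hC hf hs h0 hmin φ W
      (fun n => ⟨(hW n).1, hsub n, (hW n).2⟩)
    have h1 : φ (t 0) < φ (t 1) := hφ (t.strictMono Nat.zero_lt_one)
    have hWW : W (t 1) ⊆ W (t 0) := ht 0 1 Nat.zero_lt_one
    refine hlt _ _ h1 ((hE (t 0)).2.2.2 _ (N_sub (hf (φ (t 1))).1).1 ?_ (hmono.monotone h1.le))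
    intro z hz
    have hz1 := (hE (t 1)).2.1 hz
    refine ⟨hWW hz1.1, ?_⟩
    intro hzp
    rw [mem_singleton_iff] at hzp
    apply hz1.2
    rw [mem_singleton_iff]
    apply le_antisymm _ (hpm (t 1) z hz1.1)
    rw [hzp]
    exact hpm (t 0) _ (hWW (hp (t 1)))
  · -- type rem2
    obtain ⟨φ, hφ, hP⟩ := Filter.extraction_of_frequently_atTop h
    choose W p q hW hp hpm hq hqp hqm hE hpE using hP
    have hsub : ∀ n, f (φ n) ⊆ W n := fun n => (hE n).2.1.trans diff_subset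
    obtain ⟨t, ht⟩ := thin_parent hC hf hs h0 hmin φ W
      (fun n => ⟨(hW n).1, hsub n, (hW n).2⟩)
    have h1 : φ (t 0) < φ (t 1) := hφ (t.strictMono Nat.zero_lt_one)
    have hWW : W (t 1) ⊆ W (t 0) := ht 0 1 Nat.zero_lt_one
    have hpp : p (t 0) = p (t 1) := by
      apply le_antisymm
      · exact hpm (t 0) _ (hWW (hp (t 1)))
      · exact hpm (t 1) _ (hsub (t 1) (hmono.monotone h1.le (hpE (t 0))))
    refine hlt _ _ h1 ((hE (t 0)).2.2.2 _ (N_sub (hf (φ (t 1))).1).1 ?_ (hmono.monotone h1.le))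
    intro z hz
    have hz1 := (hE (t 1)).2.1 hz
    refine ⟨hWW hz1.1, ?_⟩
    intro hzq
    rw [mem_singleton_iff] at hzq
    apply hz1.2
    rw [mem_singleton_iff]
    have hzp : z ≠ p (t 1) := by
      rw [hzq, ← hpp]; exact hqp (t 0)
    apply le_antisymm _ (hqm (t 1) z hz1.1 hzp)
    rw [hzq]
    apply hqm (t 0) _ (hWW (hq (t 1)))
    rw [hpp]; exact hqp (t 1)
  · -- type phi
    obtain ⟨φ, hφ, hP⟩ := Filter.extraction_of_frequently_atTop h
    choose W V G hW hV hG hGW hVG hmx hE using hP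
    have hsubV : ∀ n, f (φ n) ⊆ V n := fun n => (hE n).2.1.trans inter_subset_left
    have hsubG : ∀ n, f (φ n) ⊆ G n := fun n => (hE n).2.1.trans inter_subset_right
    have hsubW : ∀ n, f (φ n) ⊆ W n := fun n => (hsubG n).trans (hGW n)
    obtain ⟨t1, ht1⟩ := thin_parent hC hf hs h0 hmin φ W
      (fun n => ⟨(hW n).1, hsubW n, (hW n).2⟩)
    obtain ⟨t2, ht2⟩ := thin_parent hC hf hs h0 hmin (fun n => φ (t1 n)) (fun n => V (t1 n))
      (fun n => ⟨(hV _).1, hsubV _, (hV _).2⟩)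
    obtain ⟨t3, ht3⟩ := thin hC y (fun n => G (t1 (t2 n))) (fun n => ⟨hG _, hsubG _ (hyn _)⟩)
    set i := t1 (t2 (t3 0)) with hi
    set j := t1 (t2 (t3 1)) with hj
    have hij : i < j := t1.strictMono (t2.strictMono (t3.strictMono Nat.zero_lt_one))
    have h1 : φ i < φ j := hφ hij
    have hWW : W j ⊆ W i := ht1 _ _ (t2.strictMono (t3.strictMono Nat.zero_lt_one))
    have hVV : V j ⊆ V i := ht2 _ _ (t3.strictMono Nat.zero_lt_one)
    rcases ht3 with ht3 | ht3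
    · have hGG : G j ⊆ G i := ht3 0 1 Nat.zero_lt_one
      exact hlt _ _ h1 ((hE i).2.2.2 _ (N_sub (hf (φ j)).1).1
        ((hE j).2.1.trans (inter_subset_inter hVV hGG)) (hmono.monotone h1.le))
    · have hGG : G i ⊂ G j := ht3 0 1 Nat.zero_lt_one
      have hVi : V i ⊆ G j := by
        by_contra hcon
        exact hGG.2 (hmx i (G j) (hG j) ((hGW j).trans hWW) hcon hGG.1)
      exact hVG j (hVV.trans hVi)

end main

/-- The family is Noetherian. -/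
theorem noetherian [TopologicalSpace X] [LinearOrder X] {C : Set (Set X)} (hC : Good C)
    (f : ℕ → Set X) (hf : ∀ n, f n ∈ N C) (hs : ∀ n, f n ⊂ f (n + 1)) : False := by
  have hbad : Bad C (f 0) :=
    ⟨hf 0, not_acc_of_seq (up C) f fun n => ⟨hf (n + 1), hs n⟩⟩
  obtain ⟨g, h1, h2, h3, h4⟩ := exists_min_bad hbad
  exact main_contra hC h1 h2 h3 h4

end Pool.Agent.Helper332.NB
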