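import Pool.Agent.Helper332.NB2

set_option autoImplicit false

universe u

namespace Pool.Agent.Helper332.NB

open Set

variable {X : Type u}

/-- members of the constructed family through `x` -/
def Nx [TopologicalSpace X] [LinearOrder X] (C : Set (Set X)) (x : X) (D : Set X) : Prop :=
  D ∈ N C ∧ x ∈ D

theorem lim_mem [TopologicalSpace X] [LinearOrder X] {C : Set (Set X)} (hC : Good C) {x : X}
    {𝓒 : Set (Set X)} (h𝓒 : 𝓒 ⊆ N C) (hx : x ∈ interior (⋂₀ 𝓒)) :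
    ∃ D, Nx C x D ∧ D ⊆ ⋂₀ 𝓒 := by
  obtain ⟨M, hM, hxM⟩ := exists_max_mem hC isOpen_interior hx
  exact ⟨M, ⟨N_closed (Op.lim 𝓒 h𝓒 hM), hxM⟩, hM.2.1.trans interior_subset⟩

theorem top_mem [TopologicalSpace X] [LinearOrder X] {C : Set (Set X)} (hC : Good C) (x : X) :
    ∃ D, Nx C x D := by
  obtain ⟨D, hD, _⟩ := lim_mem hC (x := x) (𝓒 := ∅) (empty_subset _) (by simp)
  exact ⟨D, hD⟩

theorem inter_mem' [TopologicalSpace X] [LinearOrder X] {C : Set (Set X)} (hC : Good C) {x : X}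
    {D D' : Set X} (hD : Nx C x D) (hD' : Nx C x D') : ∃ E, Nx C x E ∧ E ⊆ D ∧ E ⊆ D' := by
  obtain ⟨E, hE, hsub⟩ := lim_mem hC (x := x) (𝓒 := {D, D'}) (by
    intro Z hZ
    rcases hZ with rfl | hZ
    · exact hD.1
    · rw [mem_singleton_iff] at hZ
      rw [hZ]; exact hD'.1) (by
    rw [sInter_pair, interior_inter, (hC.isOpen D (N_sub hD.1).1).interior_eq,
      (hC.isOpen D' (N_sub hD'.1).1).interior_eq]
    exact ⟨hD.2, hD'.2⟩)
  rw [sInter_pair] at hsub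
  exact ⟨E, hE, hsub.trans inter_subset_left, hsub.trans inter_subset_right⟩

/-- smaller members -/
theorem smaller [TopologicalSpace X] [T1Space X] [LinearOrder X] [WellFoundedLT X]
    {C : Set (Set X)} (hC : Good C) {x : X} {D : Set X} (hD : Nx C x D) (hne : ∃ y ∈ D, y ≠ x) :
    ∃ D', Nx C x D' ∧ D' ⊂ D := by
  have hDo := hC.isOpen D (N_sub hD.1).1
  obtain ⟨p, hp, hpm⟩ := WellFounded.has_min (wellFounded_lt (α := X)) D ⟨x, hD.2⟩
  have hpmin : ∀ z ∈ D, p ≤ z := fun z hz => not_lt.1 (hpm z hz)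
  by_cases hxp : x = p
  · obtain ⟨y, hy, hyx⟩ := hne
    obtain ⟨q, hq, hqm⟩ := WellFounded.has_min (wellFounded_lt (α := X)) (D \ {p})
      ⟨y, hy, by rw [mem_singleton_iff, ← hxp]; exact hyx⟩
    have hqmin : ∀ z ∈ D, z ≠ p → q ≤ z := fun z hz hzp => not_lt.1 (hqm z ⟨hz, hzp⟩)
    have hqp : q ≠ p := hq.2
    obtain ⟨M, hM, hxM⟩ := exists_max_mem hC (O := D \ {q}) (x := x)
      (hDo.sdiff isClosed_singleton) ⟨hD.2, by rw [mem_singleton_iff, hxp]; exact hqp.symm⟩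
    refine ⟨M, ⟨N_closed (Op.rem2 D hD.1 p hp hpmin q hq.1 hqp hqmin hM (hxp ▸ hxM)), hxM⟩, ?_⟩
    refine ⟨hM.2.1.trans sdiff_subset, fun hcon => ?_⟩
    exact (hM.2.1 (hcon hq.1)).2 rfl
  · obtain ⟨M, hM, hxM⟩ := exists_max_mem hC (O := D \ {p}) (x := x)
      (hDo.sdiff isClosed_singleton) ⟨hD.2, hxp⟩
    refine ⟨M, ⟨N_closed (Op.rem1 D hD.1 p hp hpmin hM), hxM⟩, ?_⟩
    refine ⟨hM.2.1.trans sdiff_subset, fun hcon => ?_⟩
    exact (hM.2.1 (hcon hp)).2 rfl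

/-- a chain member containing finitely many points of the union -/
theorem chain_list {𝓒 : Set (Set X)} (hch : IsChain (· ⊆ ·) 𝓒) (hne : 𝓒.Nonempty)
    (l : List X) (hl : ∀ a ∈ l, a ∈ ⋃₀ 𝓒) : ∃ K ∈ 𝓒, ∀ a ∈ l, a ∈ K := by
  induction l with
  | nil =>
    obtain ⟨K, hK⟩ := hne
    exact ⟨K, hK, by simp⟩
  | cons a l ih =>
    obtain ⟨K, hK, hKl⟩ := ih fun b hb => hl b (List.mem_cons_of_mem _ hb)
    obtain ⟨K', hK', haK'⟩ := hl a List.mem_cons_self
    rcases hch.total hK hK' with h | h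
    · refine ⟨K', hK', ?_⟩
      intro b hb
      rcases List.mem_cons.1 hb with rfl | hb
      · exact haK'
      · exact h (hKl b hb)
    · refine ⟨K, hK, ?_⟩
      intro b hb
      rcases List.mem_cons.1 hb with rfl | hb
      · exact h haK'
      · exact hKl b hb

section fail

variable [TopologicalSpace X] [T1Space X] [LinearOrder X] [WellFoundedLT X]
  {C : Set (Set X)} (hC : Good C) {x : X} {U : Set X} (hU : IsOpen U) (hxU : x ∈ U)
  (hfail : ∀ D, Nx C x D → ¬ D ⊆ U)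

/-- sets through `x` containing no member of the family through `x` -/
def SS (C : Set (Set X)) (x : X) (G : Set X) : Prop :=
  G ∈ C ∧ x ∈ G ∧ ∀ D, Nx C x D → ¬ D ⊆ G

include hC hxU hfail in
theorem smaller' {D : Set X} (hD : Nx C x D) : ∃ D', Nx C x D' ∧ D' ⊂ D := by
  apply smaller hC hD
  by_contra hcon
  push Not at hcon
  exact hfail D hD fun y hy => by rw [hcon y hy]; exact hxU

include hC hU hxU hfail in
theorem exists_SS {O : Set X} (hO : IsOpen O) (hx : x ∈ O) : ∃ G, SS C x G ∧ G ⊆ O := by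
  obtain ⟨B, hB, hxB, hBO⟩ := hC.base x (U ∩ O) (hU.inter hO) ⟨hxU, hx⟩
  refine ⟨B, ⟨hB, hxB, fun D hD hDB => ?_⟩, hBO.trans inter_subset_right⟩
  exact hfail D hD ((hDB.trans hBO).trans inter_subset_left)

include hC hxU hfail in
theorem exists_not_sub {G : Set X} (hG : G ∈ C) (hx : x ∈ G) : ∃ D, Nx C x D ∧ ¬ G ⊆ D := by
  by_contra hcon
  push Not at hcon
  have h1 : G ⊆ interior (⋂₀ {D | Nx C x D}) :=
    interior_maximal (subset_sInter fun D hD => hcon D hD) (hC.isOpen G hG)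
  obtain ⟨E, hE, hEsub⟩ := lim_mem hC (x := x) (𝓒 := {D | Nx C x D}) (fun D hD => hD.1) (h1 hx)
  obtain ⟨D', hD', hlt⟩ := smaller' hC hxU hfail hE
  exact hlt.2 (hEsub.trans (sInter_subset_of_mem hD'))

include hC hxU hfail in
/-- chain unions stay in `SS` below some member -/
theorem exists_D0 : ∃ D0, Nx C x D0 ∧ ∀ 𝓒 : Set (Set X), (∀ G ∈ 𝓒, SS C x G ∧ G ⊆ D0) →
    𝓒.Nonempty → IsChain (· ⊆ ·) 𝓒 → SS C x (⋃₀ 𝓒) := by
  by_contra hcon
  push Not at hcon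
  have hstep : ∀ D, Nx C x D → ∃ 𝓒 : Set (Set X), (∀ G ∈ 𝓒, SS C x G ∧ G ⊆ D) ∧ 𝓒.Nonempty ∧
      IsChain (· ⊆ ·) 𝓒 ∧ ∃ V, Nx C x V ∧ V ⊆ ⋃₀ 𝓒 := by
    intro D hD
    obtain ⟨𝓒, h1, h2, h3, h4⟩ := hcon D hD
    refine ⟨𝓒, h1, h2, h3, ?_⟩
    by_contra hcon2
    push Not at hcon2
    apply h4
    refine ⟨hC.chain 𝓒 (fun G hG => (h1 G hG).1.1) h2 h3, ?_, hcon2⟩
    obtain ⟨G, hG⟩ := h2
    exact ⟨G, hG, (h1 G hG).1.2.1⟩
  have key : ∀ k : ℕ, ∀ D, Nx C x D → ∀ F : List (Set X), (∀ G ∈ F, SS C x G) →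
      ∃ l : List (Set X), l.length = k ∧ (∀ G ∈ l, SS C x G ∧ G ⊆ D) ∧
        (∀ G ∈ l, ∀ G' ∈ F, ¬ G ⊆ G') ∧ l.Pairwise (fun a b => ¬ a ⊆ b ∧ ¬ b ⊆ a) := by
    intro k
    induction k with
    | zero =>
      intro D hD F hF
      exact ⟨[], rfl, by simp, by simp, List.Pairwise.nil⟩
    | succ k ih =>
      intro D hD F hF
      obtain ⟨𝓒, h1, h2, h3, V, hV, hV𝓒⟩ := hstep D hD
      obtain ⟨D', hD', hlt⟩ := smaller' hC hxU hfail hV
      obtain ⟨a, haV, haD'⟩ := Set.exists_of_ssubset hlt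
      -- points witnessing `V ⊄ G'`
      have hwit : ∀ F : List (Set X), (∀ G ∈ F, SS C x G) →
          ∃ w : List X, (∀ b ∈ w, b ∈ V) ∧ ∀ G ∈ F, ∃ b ∈ w, b ∉ G := by
        intro F
        induction F with
        | nil => intro _; exact ⟨[], by simp, by simp⟩
        | cons G F ihF =>
          intro hF
          obtain ⟨w, hw1, hw2⟩ := ihF fun G' hG' => hF G' (List.mem_cons_of_mem _ hG')
          obtain ⟨b, hbV, hbG⟩ := Set.not_subset.1 ((hF G List.mem_cons_self).2.2 V hV)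
          refine ⟨b :: w, ?_, ?_⟩
          · intro c hc
            rcases List.mem_cons.1 hc with rfl | hc
            · exact hbV
            · exact hw1 c hc
          · intro G' hG'
            rcases List.mem_cons.1 hG' with rfl | hG'
            · exact ⟨b, List.mem_cons_self, hbG⟩
            · obtain ⟨c, hc, hcG⟩ := hw2 G' hG'
              exact ⟨c, List.mem_cons_of_mem _ hc, hcG⟩
      obtain ⟨w, hw1, hw2⟩ := hwit F hF
      obtain ⟨K, hK, hKl⟩ := chain_list h3 h2 (a :: w) (by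
        intro c hc
        rcases List.mem_cons.1 hc with rfl | hc
        · exact hV𝓒 haV
        · exact hV𝓒 (hw1 c hc))
      have haK : a ∈ K := hKl a List.mem_cons_self
      have hKF : ∀ G ∈ F, ¬ K ⊆ G := by
        intro G hG hKG
        obtain ⟨b, hb, hbG⟩ := hw2 G hG
        exact hbG (hKG (hKl b (List.mem_cons_of_mem _ hb)))
      obtain ⟨l, hl1, hl2, hl3, hl4⟩ := ih D' hD' (K :: F) (by
        intro G hG
        rcases List.mem_cons.1 hG with rfl | hG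
        · exact (h1 _ hK).1
        · exact hF G hG)
      have hVD : V ⊆ D := hV𝓒.trans (sUnion_subset fun G hG => (h1 G hG).2)
      refine ⟨K :: l, by simp [hl1], ?_, ?_, ?_⟩
      · intro G hG
        rcases List.mem_cons.1 hG with rfl | hG
        · exact h1 _ hK
        · exact ⟨(hl2 G hG).1, ((hl2 G hG).2.trans hlt.1).trans hVD⟩
      · intro G hG G' hG'
        rcases List.mem_cons.1 hG with rfl | hG
        · exact hKF G' hG'
        · exact hl3 G hG G' (List.mem_cons_of_mem _ hG')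
      · rw [List.pairwise_cons]
        refine ⟨fun G hG => ⟨fun hcon => ?_, hl3 G hG K List.mem_cons_self⟩, hl4⟩
        exact haD' ((hl2 G hG).2 (hcon haK))
  obtain ⟨n, hn⟩ := hC.rank x
  obtain ⟨D, hD⟩ := top_mem hC x
  obtain ⟨l, hl1, hl2, _, hl4⟩ := key (n + 1) D hD [] (by simp)
  have := hn l (fun G hG => ⟨(hl2 G hG).1.1, (hl2 G hG).1.2.1⟩) hl4
  omega

include hC hU hxU hfail in
theorem contra : False := by
  obtain ⟨D0, hD0, hD0c⟩ := exists_D0 hC hxU hfail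
  -- maximal elements of `SS` below `W`
  have hH : ∀ W, Nx C x W → W ⊆ D0 → ∃ H, SS C x H ∧ H ⊆ W ∧
      ∀ G, G ∈ C → H ⊂ G → G ⊆ W → ∃ D, Nx C x D ∧ D ⊆ G := by
    intro W hW hWD
    obtain ⟨G0, hG0, hG0W⟩ := exists_SS hC hU hxU hfail (hC.isOpen W (N_sub hW.1).1) hW.2
    obtain ⟨H, hG0H, hH⟩ := zorn_subset_nonempty {G | SS C x G ∧ G ⊆ W} (by
      intro c hc hch hcn
      refine ⟨⋃₀ c, ⟨hD0c c (fun G hG => ⟨(hc hG).1, (hc hG).2.trans hWD⟩) hcn hch, ?_⟩,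
        fun s hs => subset_sUnion_of_mem hs⟩
      exact sUnion_subset fun G hG => (hc hG).2) G0 ⟨hG0, hG0W⟩
    refine ⟨H, hH.prop.1, hH.prop.2, ?_⟩
    intro G hG hHG hGW
    by_contra hcon
    push Not at hcon
    exact hHG.2 (hH.2 (show G ∈ {G | SS C x G ∧ G ⊆ W} from
      ⟨⟨hG, hHG.1 hH.prop.1.2.1, hcon⟩, hGW⟩) hHG.1)
  have key : ∀ k : ℕ, ∀ W, Nx C x W → W ⊆ D0 → ∃ l : List (Set X), l.length = k ∧
      (∀ G ∈ l, G ∈ C ∧ x ∈ G ∧ G ⊆ W) ∧ l.Pairwise (fun a b => ¬ a ⊆ b ∧ ¬ b ⊆ a) ∧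
      ∃ D, Nx C x D ∧ ∀ G ∈ l, D ⊆ G := by
    intro k
    induction k with
    | zero =>
      intro W hW _
      exact ⟨[], rfl, by simp, List.Pairwise.nil, W, hW, by simp⟩
    | succ k ih =>
      intro W hW hWD
      obtain ⟨H, hH1, hH2, hH3⟩ := hH W hW hWD
      obtain ⟨D1, hD1, hHD1⟩ := exists_not_sub hC hxU hfail hH1.1 hH1.2.1
      obtain ⟨W', hW', hW'D1, hW'W⟩ := inter_mem' hC hD1 hW
      have hHW' : ¬ H ⊆ W' := fun h => hHD1 (h.trans hW'D1)
      obtain ⟨l, hl1, hl2, hl3, D', hD', hlD'⟩ := ih W' hW' (hW'W.trans hWD)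
      -- case B
      have hB : ∃ G ∈ C, H ⊂ G ∧ G ⊆ W ∧ ¬ D' ⊆ G := by
        by_contra hcon
        push Not at hcon
        -- then H is maximal among members inside W not containing D'
        have hDH : ¬ D' ⊆ H := hH1.2.2 D' hD'
        have hx : x ∈ D' ∩ H := ⟨hD'.2, hH1.2.1⟩
        obtain ⟨M, hM, hxM⟩ := exists_max_mem hC (O := D' ∩ H) (x := x)
          ((hC.isOpen _ (N_sub hD'.1).1).inter (hC.isOpen _ hH1.1)) hx
        have hMN : M ∈ N C := N_closed (Op.phi W D' H hW.1 hD'.1 hH1.1 hH2 hDH (by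
          intro G' hG' hG'W hDG' hHG'
          by_contra hcon2
          exact hDG' (hcon G' hG' ⟨hHG', hcon2⟩ hG'W)) hM)
        exact hH1.2.2 M ⟨hMN, hxM⟩ (hM.2.1.trans inter_subset_right)
      obtain ⟨G, hG, hHG, hGW, hDG⟩ := hB
      obtain ⟨D2, hD2, hD2G⟩ := hH3 G hG hHG hGW
      obtain ⟨D, hD, hDD', hDD2⟩ := inter_mem' hC hD' hD2
      refine ⟨G :: l, by simp [hl1], ?_, ?_, D, hD, ?_⟩
      · intro K hK
        rcases List.mem_cons.1 hK with rfl | hK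
        · exact ⟨hG, hHG.1 hH1.2.1, hGW⟩
        · exact ⟨(hl2 K hK).1, (hl2 K hK).2.1, (hl2 K hK).2.2.trans hW'W⟩
      · rw [List.pairwise_cons]
        refine ⟨fun K hK => ⟨fun hcon => ?_, fun hcon => ?_⟩, hl3⟩
        · exact hHW' ((hHG.1.trans hcon).trans (hl2 K hK).2.2)
        · exact hDG ((hlD' K hK).trans hcon)
      · intro K hK
        rcases List.mem_cons.1 hK with rfl | hK
        · exact hDD2.trans hD2G
        · exact hDD'.trans (hlD' K hK)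
  obtain ⟨n, hn⟩ := hC.rank x
  obtain ⟨l, hl1, hl2, hl3, _⟩ := key (n + 1) D0 hD0 subset_rfl
  have := hn l (fun G hG => ⟨(hl2 G hG).1, (hl2 G hG).2.1⟩) hl3
  omega

end fail

/-- the family is a base -/
theorem isBase [TopologicalSpace X] [T1Space X] [LinearOrder X] [WellFoundedLT X]
    {C : Set (Set X)} (hC : Good C) (x : X) (U : Set X) (hU : IsOpen U) (hx : x ∈ U) :
    ∃ D ∈ N C, x ∈ D ∧ D ⊆ U := by
  by_contra hcon
  push Not at hcon
  exact contra hC hU hx fun D hD => hcon D hD.1 hD.2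

end Pool.Agent.Helper332.NB
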