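import Pool.Agent.Helper332.NB3

set_option autoImplicit false

universe u

namespace Pool.Agent.Helper332.NB

open Set

variable {X : Type u}

/-- `Γ` is incomparable: no member is contained in another member -/
def Incomparable (Γ : Set (Set X)) : Prop := ∀ U ∈ Γ, ∀ V ∈ Γ, U ⊆ V → U = V

/-- `Γ` has point-finite rank: at each point `x` there is a finite `n` such that every incomparable
subfamily whose members all contain `x` has at most `n` members -/
def PointFiniteRank (Γ : Set (Set X)) : Prop :=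
  ∀ x : X, ∃ n : ℕ, ∀ A ⊆ Γ, (∀ U ∈ A, x ∈ U) → Incomparable A → A.encard ≤ n

/-- `Γ` is Noetherian: it contains no infinite strictly increasing sequence -/
def Noetherian (Γ : Set (Set X)) : Prop :=
  ¬ ∃ G : ℕ → Set X, (∀ n, G n ∈ Γ) ∧ ∀ n, G n ⊂ G (n + 1)

/-- `Γ` has subinfinite rank: every incomparable subfamily with nonempty intersection is finite -/
def SubinfiniteRank (Γ : Set (Set X)) : Prop :=
  ∀ A ⊆ Γ, Incomparable A → (⋂₀ A).Nonempty → A.Finite

theorem PointFiniteRank.subinfinite {Γ : Set (Set X)} (h : PointFiniteRank Γ) :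
    SubinfiniteRank Γ := by
  rintro A hA hinc ⟨x, hx⟩
  obtain ⟨n, hn⟩ := h x
  have := hn A hA (fun U hU => hx U hU) hinc
  exact Set.finite_of_encard_le_coe this

/-- the closure of a family of sets -/
def cl (B : Set (Set X)) : Set (Set X) :=
  {U | ∀ F : Set X, F.Finite → F ⊆ U → ∃ V ∈ B, F ⊆ V ∧ V ⊆ U}

theorem subset_cl (B : Set (Set X)) : B ⊆ cl B := fun U hU _ _ hFU => ⟨U, hU, hFU, subset_rfl⟩

theorem good_cl [TopologicalSpace X] {B : Set (Set X)}
    (hB : TopologicalSpace.IsTopologicalBasis B) (hr : PointFiniteRank B) : Good (cl B) where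
  isOpen := by
    intro U hU
    rw [isOpen_iff_forall_mem_open]
    intro x hx
    obtain ⟨V, hV, hxV, hVU⟩ := hU {x} (finite_singleton x) (singleton_subset_iff.2 hx)
    exact ⟨V, hVU, hB.isOpen hV, singleton_subset_iff.1 hxV⟩
  chain := by
    intro 𝓒 h𝓒 hne hch F hF hFU
    have : ∃ U ∈ 𝓒, F ⊆ U := by
      have hdir : DirectedOn (· ⊆ ·) 𝓒 := hch.directedOn
      exact DirectedOn.exists_mem_subset_of_finite_of_subset_sUnion hne hdir hF hFU
    obtain ⟨U, hU, hFU⟩ := this
    obtain ⟨V, hV, hFV, hVU⟩ := h𝓒 hU F hF hFU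
    exact ⟨V, hV, hFV, hVU.trans (subset_sUnion_of_mem hU)⟩
  base := by
    intro x U hU hx
    obtain ⟨V, hV, hxV, hVU⟩ := hB.exists_subset_of_mem_open hx hU
    exact ⟨V, subset_cl B hV, hxV, hVU⟩
  rank := by
    intro x
    obtain ⟨n, hn⟩ := hr x
    refine ⟨n, fun l hl hp => ?_⟩
    have hget : ∀ i j : Fin l.length, i ≠ j → ¬ l.get i ⊆ l.get j := by
      intro i j hij
      rw [List.pairwise_iff_get] at hp
      rcases lt_or_gt_of_ne hij with h | h
      · exact (hp i j h).1
      · exact (hp j i h).2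
    have hy : ∀ i j : Fin l.length, ∃ y, i ≠ j → y ∈ l.get i ∧ y ∉ l.get j := by
      intro i j
      by_cases hij : i = j
      · exact ⟨x, fun h => absurd hij h⟩
      · obtain ⟨y, hy1, hy2⟩ := Set.not_subset.1 (hget i j hij)
        exact ⟨y, fun _ => ⟨hy1, hy2⟩⟩
    choose y hy using hy
    have hV : ∀ i : Fin l.length, ∃ V ∈ B, ({x} ∪ (y i) '' {j | i ≠ j}) ⊆ V ∧ V ⊆ l.get i := by
      intro i
      refine (hl _ (List.get_mem l i)).1 _ ((finite_singleton x).union ((toFinite _).image _)) ?_
      refine union_subset (singleton_subset_iff.2 (hl _ (List.get_mem l i)).2) ?_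
      rintro _ ⟨j, hj, rfl⟩
      exact (hy i j hj).1
    choose V hVB hFV hVl using hV
    have hinc : ∀ i j, V i ⊆ V j → i = j := by
      intro i j hij
      by_contra hne
      exact (hy i j hne).2 (hVl j (hij (hFV i (Or.inr ⟨j, hne, rfl⟩))))
    have hinj : Function.Injective V := fun i j h => hinc i j h.subset
    have := hn (range V) (by rintro _ ⟨i, rfl⟩; exact hVB i)
      (by rintro _ ⟨i, rfl⟩; exact hFV i (Or.inl rfl))
      (by rintro _ ⟨i, rfl⟩ _ ⟨j, rfl⟩ h; rw [hinc i j h])
    rw [← image_univ, hinj.encard_image, encard_univ] at this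
    simpa using this

theorem rank_N [TopologicalSpace X] [LinearOrder X] {C : Set (Set X)} (hC : Good C) :
    PointFiniteRank (N C) := by
  intro x
  obtain ⟨n, hn⟩ := hC.rank x
  refine ⟨n, fun A hA hx hinc => ?_⟩
  by_contra hcon
  rw [not_le] at hcon
  obtain ⟨A', hA', hcard⟩ := exists_subset_encard_eq (s := A) (k := ((n + 1 : ℕ) : ℕ∞))
    (by exact_mod_cast Order.add_one_le_of_lt hcon)
  have hfin : A'.Finite := finite_of_encard_eq_coe hcard
  have hlen : hfin.toFinset.toList.length = n + 1 := by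
    rw [Finset.length_toList]
    rw [hfin.encard_eq_coe_toFinset_card] at hcard
    exact_mod_cast hcard
  have := hn hfin.toFinset.toList (by
    intro U hU
    have hU' : U ∈ A' := by simpa using hU
    exact ⟨(N_sub (hA (hA' hU'))).1, hx U (hA' hU')⟩) (by
    refine (Finset.nodup_toList hfin.toFinset).imp_of_mem ?_
    intro U V hU hV hne
    have hU' : U ∈ A := hA' (by simpa using hU)
    have hV' : V ∈ A := hA' (by simpa using hV)
    exact ⟨fun h => hne (hinc U hU' V hV' h), fun h => hne (hinc V hV' U hU' h).symm⟩)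
  omega

/-- every `T1` space with a base of point-finite rank has a Noetherian base of point-finite rank -/
theorem main [TopologicalSpace X] [T1Space X] {B : Set (Set X)}
    (hB : TopologicalSpace.IsTopologicalBasis B) (hr : PointFiniteRank B) :
    ∃ B' : Set (Set X), TopologicalSpace.IsTopologicalBasis B' ∧ Noetherian B' ∧
      PointFiniteRank B' ∧ (∀ U ∈ B', U.Nonempty) := by
  obtain ⟨ord, wf⟩ := exists_wellFoundedLT X
  have hC : Good (cl B) := good_cl hB hr
  refine ⟨N (cl B), ?_, ?_, rank_N hC, fun U hU => (N_sub hU).2⟩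
  · refine TopologicalSpace.isTopologicalBasis_of_isOpen_of_nhds
      (fun U hU => hC.isOpen U (N_sub hU).1) ?_
    intro x U hx hU
    obtain ⟨D, hD, hxD, hDU⟩ := isBase hC x U hU hx
    exact ⟨D, hD, hxD, hDU⟩
  · rintro ⟨G, hG, hs⟩
    exact noetherian hC G hG hs

end Pool.Agent.Helper332.NB
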