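import Pool.Agent.Helper332.NB4

set_option autoImplicit false

universe u

namespace Pool.Agent.Helper332.NB

open Set TopologicalSpace

variable {X : Type u}

/-- a nonempty subfamily of a Noetherian family has a maximal member -/
theorem Noetherian.exists_maximal {Γ : Set (Set X)} (h : Noetherian Γ) {S : Set (Set X)}
    (hS : S ⊆ Γ) (hne : S.Nonempty) : ∃ M ∈ S, ∀ M' ∈ S, M ⊆ M' → M' = M := by
  by_contra hcon
  push Not at hcon
  obtain ⟨U0, hU0⟩ := hne
  choose g hg using fun M : S => hcon M.1 M.2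
  let f : ℕ → S := fun n => Nat.rec ⟨U0, hU0⟩ (fun _ M => ⟨g M, (hg M).1⟩) n
  refine h ⟨fun n => (f n).1, fun n => hS (f n).2, fun n => ?_⟩
  show (f n).1 ⊂ g (f n)
  exact ⟨(hg (f n)).2.1, fun h => (hg (f n)).2.2 (Subset.antisymm h (hg (f n)).2.1)⟩

/-- an uncountable family with bounded antichains has an uncountable chain -/
theorem exists_uncountable_chain (n : ℕ) : ∀ F : Set (Set X), ¬ F.Countable →
    (∀ A ⊆ F, Incomparable A → A.encard ≤ n) →
    ∃ K ⊆ F, ¬ K.Countable ∧ IsChain (· ⊆ ·) K := by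
  induction n with
  | zero =>
    intro F hF hr
    exfalso
    have hne : F.Nonempty := by
      by_contra h
      rw [not_nonempty_iff_eq_empty] at h
      exact hF (h ▸ countable_empty)
    obtain ⟨U, hU⟩ := hne
    have := hr {U} (singleton_subset_iff.2 hU) (by
      intro A hA B hB _
      rw [mem_singleton_iff.1 hA, mem_singleton_iff.1 hB])
    simp at this
  | succ n ih =>
    intro F hF hr
    by_cases hcase : ∃ U ∈ F, ¬ {V ∈ F | ¬ U ⊆ V ∧ ¬ V ⊆ U}.Countable
    · obtain ⟨U, hU, hunc⟩ := hcase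
      obtain ⟨K, hK, hKunc, hKch⟩ := ih {V ∈ F | ¬ U ⊆ V ∧ ¬ V ⊆ U} hunc (by
        intro A hA hinc
        have hUA : U ∉ A := fun h => (hA h).2.1 subset_rfl
        have := hr (insert U A) (insert_subset hU fun V hV => (hA hV).1) (by
          intro V hV W hW hVW
          rcases mem_insert_iff.1 hV with rfl | hV
          · rcases mem_insert_iff.1 hW with rfl | hW
            · rfl
            · exact absurd hVW (hA hW).2.1
          · rcases mem_insert_iff.1 hW with h | hW
            · rw [h] at hVW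
              exact absurd hVW (hA hV).2.2
            · exact hinc V hV W hW hVW)
        rw [encard_insert_of_notMem hUA] at this
        push_cast at this
        exact (ENat.add_le_add_iff_right (by simp)).1 this)
      exact ⟨K, fun V hV => (hK hV).1, hKunc, hKch⟩
    · push Not at hcase
      obtain ⟨U0, hU0⟩ : F.Nonempty := by
        by_contra h
        rw [not_nonempty_iff_eq_empty] at h
        exact hF (h ▸ countable_empty)
      obtain ⟨K, hK⟩ : ∃ K, Maximal (fun K => K ⊆ F ∧ IsChain (· ⊆ ·) K) K := by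
        refine zorn_subset {K : Set (Set X) | K ⊆ F ∧ IsChain (· ⊆ ·) K} ?_
        intro c hc hch
        refine ⟨⋃₀ c, ⟨sUnion_subset fun s hs => (hc hs).1, ?_⟩, fun s hs => subset_sUnion_of_mem hs⟩
        intro U hU V hV hne
        obtain ⟨s, hs, hUs⟩ := hU
        obtain ⟨t, ht, hVt⟩ := hV
        rcases hch.total hs ht with hst | hts
        · exact (hc ht).2 (hst hUs) hVt hne
        · exact (hc hs).2 hUs (hts hVt) hne
      refine ⟨K, hK.prop.1, fun hKc => hF ?_, hK.prop.2⟩
      have hsub : F ⊆ K ∪ ⋃ U ∈ K, {V ∈ F | ¬ U ⊆ V ∧ ¬ V ⊆ U} := by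
        intro V hV
        by_contra hcon
        rw [mem_union, not_or] at hcon
        have hcomp : ∀ U ∈ K, U ⊆ V ∨ V ⊆ U := by
          intro U hU
          by_contra hUV
          rw [not_or] at hUV
          exact hcon.2 (mem_biUnion hU ⟨hV, hUV⟩)
        have : insert V K ⊆ K := hK.2 ⟨insert_subset hV hK.prop.1, by
          refine hK.prop.2.insert ?_
          intro U hU _
          exact (hcomp U hU).symm⟩ (subset_insert V K)
        exact hcon.1 (this (mem_insert V K))
      exact (hKc.union (hKc.biUnion fun U hU => hcase U (hK.prop.1 hU))).mono hsub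

/-- the members of a family maximal inside their closure -/
def hat [TopologicalSpace X] (Γ : Set (Set X)) : Set (Set X) :=
  {B | B ∈ Γ ∧ ∀ B' ∈ Γ, B ⊆ B' → B' ⊆ closure B → B' = B}

theorem exists_hat [TopologicalSpace X] {Γ : Set (Set X)} (hN : Noetherian Γ) {B : Set X}
    (hB : B ∈ Γ) : ∃ B' ∈ hat Γ, B ⊆ B' ∧ B' ⊆ closure B := by
  obtain ⟨M, hM, hmax⟩ := hN.exists_maximal (S := {B' | B' ∈ Γ ∧ B ⊆ B' ∧ B' ⊆ closure B})
    (fun U hU => hU.1) ⟨B, hB, subset_rfl, subset_closure⟩
  have hcl : closure M ⊆ closure B := closure_minimal hM.2.2 isClosed_closure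
  refine ⟨M, ⟨hM.1, fun B' hB' hMB' hB'cl => ?_⟩, hM.2.1, hM.2.2⟩
  exact hmax B' ⟨hB', hM.2.1.trans hMB', hB'cl.trans hcl⟩ hMB'

/-- a chain in the family of members maximal inside their closure is countable in a ccc space -/
theorem hat_chain_countable [TopologicalSpace X]
    (hccc : ∀ 𝒰 : Set (Set X), (∀ U ∈ 𝒰, IsOpen U ∧ U.Nonempty) →
      𝒰.PairwiseDisjoint id → 𝒰.Countable)
    {Γ : Set (Set X)} (hop : ∀ U ∈ Γ, IsOpen U) (hN : Noetherian Γ) {K : Set (Set X)}
    (hK : K ⊆ hat Γ) (hch : IsChain (· ⊆ ·) K) : K.Countable := by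
  classical
  have hKΓ : K ⊆ Γ := fun U hU => (hK hU).1
  -- the non minimal members
  set K' : Set (Set X) := {B | B ∈ K ∧ ∃ B' ∈ K, B' ⊂ B} with hK'
  have hmin : (K \ K').Subsingleton := by
    intro U hU V hV
    by_contra hne
    rcases hch.total hU.1 hV.1 with h | h
    · exact hV.2 ⟨hV.1, U, hU.1, h, fun h' => hne (Subset.antisymm h h')⟩
    · exact hU.2 ⟨hU.1, V, hV.1, h, fun h' => hne (Subset.antisymm h' h)⟩
  have hnext : ∀ B : Set X, ∃ B1, B ∈ K' → (B1 ∈ K ∧ B1 ⊂ B) ∧ ∀ M' ∈ K, M' ⊂ B → M' ⊆ B1 := by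
    intro B
    by_cases hB : B ∈ K'
    · obtain ⟨M, hM, hmax⟩ := hN.exists_maximal (S := {B' | B' ∈ K ∧ B' ⊂ B})
        (fun U hU => hKΓ hU.1) (by obtain ⟨_, B', h1, h2⟩ := hB; exact ⟨B', h1, h2⟩)
      refine ⟨M, fun _ => ⟨hM, fun M' hM' hlt => ?_⟩⟩
      rcases hch.total hM' hM.1 with h | h
      · exact h
      · exact (hmax M' ⟨hM', hlt⟩ h).subset
    · exact ⟨∅, fun h => absurd h hB⟩
  choose nx hnx using hnext
  set D : Set X → Set X := fun B => B \ closure (nx B) with hD
  have hDne : ∀ B ∈ K', (D B).Nonempty := by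
    intro B hB
    rw [nonempty_iff_ne_empty]
    intro hempty
    have hsub : B ⊆ closure (nx B) := by
      rw [hD] at hempty
      exact sdiff_eq_empty.1 hempty
    have := (hK (hnx B hB).1.1).2 B (hKΓ hB.1) (hnx B hB).1.2.1 hsub
    exact (hnx B hB).1.2.2 this.subset
  have hDop : ∀ B ∈ K', IsOpen (D B) := by
    intro B hB
    exact (hop B (hKΓ hB.1)).sdiff isClosed_closure
  have hdisj : ∀ B ∈ K', ∀ B' ∈ K', B' ⊂ B → Disjoint (D B) (D B') := by
    intro B hB B' hB' hlt
    have h1 : D B' ⊆ closure (nx B) :=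
      sdiff_subset.trans (((hnx B hB).2 B' hB'.1 hlt).trans subset_closure)
    exact disjoint_sdiff_left.mono_right h1
  have hdisj' : ∀ B ∈ K', ∀ B' ∈ K', B ≠ B' → Disjoint (D B) (D B') := by
    intro B hB B' hB' hne
    rcases hch.total hB.1 hB'.1 with h | h
    · exact (hdisj B' hB' B hB ⟨h, fun h' => hne (Subset.antisymm h h')⟩).symm
    · exact hdisj B hB B' hB' ⟨h, fun h' => hne (Subset.antisymm h' h)⟩
  have hinj : InjOn D K' := by
    intro B hB B' hB' hEq
    by_contra hne
    have := hdisj' B hB B' hB' hne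
    rw [hEq, disjoint_self] at this
    exact (hDne B' hB').ne_empty this
  have hcount : (D '' K').Countable := by
    refine hccc _ ?_ ?_
    · rintro _ ⟨B, hB, rfl⟩
      exact ⟨hDop B hB, hDne B hB⟩
    · rintro _ ⟨B, hB, rfl⟩ _ ⟨B', hB', rfl⟩ hne
      exact hdisj' B hB B' hB' fun h => hne (h ▸ rfl)
  have hK'c : K'.Countable := countable_of_injective_of_countable_image hinj hcount
  have : K ⊆ K' ∪ (K \ K') := by
    intro U hU
    by_cases h : U ∈ K'
    · exact Or.inl h
    · exact Or.inr ⟨hU, h⟩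
  exact (hK'c.union hmin.countable).mono this

/-- a regular ccc `T1` space with a base of point-finite rank has a point-countable base -/
theorem ccc_pointCountable [TopologicalSpace X] [T3Space X]
    (hccc : ∀ 𝒰 : Set (Set X), (∀ U ∈ 𝒰, IsOpen U ∧ U.Nonempty) →
      𝒰.PairwiseDisjoint id → 𝒰.Countable)
    {B : Set (Set X)} (hB : IsTopologicalBasis B) (hr : PointFiniteRank B) :
    ∃ B' : Set (Set X), IsTopologicalBasis B' ∧ ∀ x : X, {U ∈ B' | x ∈ U}.Countable := by
  obtain ⟨Γ, hΓ, hN, hrank, _⟩ := main hB hr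
  refine ⟨hat Γ, ?_, ?_⟩
  · refine isTopologicalBasis_of_isOpen_of_nhds (fun U hU => hΓ.isOpen hU.1) ?_
    intro x U hx hU
    obtain ⟨V, hV, hVcl, hVU⟩ := exists_mem_nhds_isClosed_subset (hU.mem_nhds hx)
    obtain ⟨W, hW, hxW, hWV⟩ := hΓ.exists_subset_of_mem_open (mem_interior_iff_mem_nhds.2 hV)
      isOpen_interior
    obtain ⟨W', hW', hWW', hW'cl⟩ := exists_hat hN hW
    refine ⟨W', hW', hWW' hxW, hW'cl.trans ?_⟩
    exact (closure_minimal (hWV.trans interior_subset) hVcl).trans hVU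
  · intro x
    by_contra hcon
    obtain ⟨n, hn⟩ := hrank x
    obtain ⟨K, hK, hKunc, hKch⟩ := exists_uncountable_chain n _ hcon (by
      intro A hA hinc
      exact hn A (fun U hU => (hA hU).1.1) (fun U hU => (hA hU).2) hinc)
    exact hKunc (hat_chain_countable hccc (fun U hU => hΓ.isOpen hU) hN (fun U hU => (hK hU).1) hKch)

end Pool.Agent.Helper332.NB
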