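import Pool.Agent.Helper332.NB5

set_option autoImplicit false

universe u v w

namespace Pool.Agent.Helper332.NB

open Set TopologicalSpace

/-- metacompactness: every open cover has a point-finite open refinement -/
def Metacompact (X : Type u) [TopologicalSpace X] : Prop :=
  ∀ 𝒰 : Set (Set X), (∀ U ∈ 𝒰, IsOpen U) → ⋃₀ 𝒰 = univ →
    ∃ 𝒱 : Set (Set X), (∀ V ∈ 𝒱, IsOpen V) ∧ (∀ V ∈ 𝒱, ∃ U ∈ 𝒰, V ⊆ U) ∧ ⋃₀ 𝒱 = univ ∧
      ∀ x : X, {V ∈ 𝒱 | x ∈ V}.Finite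

section wqo

variable {X : Type u}

/-- sequences in a Noetherian family of subinfinite rank through a point have nonincreasing
subsequences -/
theorem desc_subseq {Γ : Set (Set X)} (hN : Noetherian Γ) (hr : SubinfiniteRank Γ) (x : X)
    (f : ℕ → Set X) (hf : ∀ n, f n ∈ Γ ∧ x ∈ f n) :
    ∃ g : ℕ ↪o ℕ, ∀ m n, m < n → f (g n) ⊆ f (g m) := by
  have t1 : IsTrans (Set X) (fun a b => b ⊆ a) := ⟨fun a b c h1 h2 => h2.trans h1⟩
  have t2 : IsTrans (Set X) (fun a b => a ⊆ b) := ⟨fun a b c h1 h2 => h1.trans h2⟩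
  obtain ⟨g1, h1 | h1⟩ := exists_increasing_or_nonincreasing_subseq (fun a b : Set X => b ⊆ a) f
  · exact ⟨g1, h1⟩
  · exfalso
    obtain ⟨g2, h2 | h2⟩ := exists_increasing_or_nonincreasing_subseq (fun a b : Set X => a ⊆ b)
      (fun n => f (g1 n))
    · refine hN ⟨fun n => f (g1 (g2 n)), fun n => (hf _).1, fun n => ?_⟩
      exact ⟨h2 n (n + 1) (Nat.lt_succ_self n), h1 _ _ (g2.strictMono (Nat.lt_succ_self n))⟩
    · have hinc : ∀ m n, m ≠ n → ¬ f (g1 (g2 m)) ⊆ f (g1 (g2 n)) := by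
        intro m n hmn
        rcases lt_or_gt_of_ne hmn with h | h
        · exact h2 m n h
        · exact h1 _ _ (g2.strictMono h)
      have hinj : Function.Injective fun n => f (g1 (g2 n)) := by
        intro m n hmn
        by_contra hne
        exact hinc m n hne (show f (g1 (g2 m)) ⊆ f (g1 (g2 n)) from Eq.subset hmn)
      have := hr (range fun n => f (g1 (g2 n))) (by rintro _ ⟨n, rfl⟩; exact (hf _).1) (by
        rintro _ ⟨m, rfl⟩ _ ⟨n, rfl⟩ h
        by_contra hne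
        exact hinc m n (fun hmn => hne (by rw [hmn])) h) ⟨x, by
          rintro _ ⟨n, rfl⟩; exact (hf _).2⟩
      exact (infinite_range_of_injective hinj) this

end wqo

section product

variable {ι : Type v} [Finite ι] {X : ι → Type u}

theorem desc_subseq_pi {Γ : ∀ i, Set (Set (X i))} (hN : ∀ i, Noetherian (Γ i))
    (hr : ∀ i, SubinfiniteRank (Γ i)) (x : ∀ i, X i) (f : ℕ → ∀ i, Set (X i))
    (hf : ∀ n i, f n i ∈ Γ i ∧ x i ∈ f n i) :
    ∃ g : ℕ ↪o ℕ, ∀ i, ∀ m n, m < n → f (g n) i ⊆ f (g m) i := by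
  classical
  cases nonempty_fintype ι
  have key : ∀ s : Finset ι, ∃ g : ℕ ↪o ℕ, ∀ i ∈ s, ∀ m n, m < n → f (g n) i ⊆ f (g m) i := by
    intro s
    induction s using Finset.induction_on with
    | empty => exact ⟨RelEmbedding.refl _, by simp⟩
    | insert i s _ ih =>
      obtain ⟨g, hg⟩ := ih
      obtain ⟨g', hg'⟩ := desc_subseq (hN i) (hr i) (x i) (fun n => f (g n) i) (fun n => hf _ i)
      refine ⟨g'.trans g, ?_⟩
      intro j hj m n hmn
      rcases Finset.mem_insert.1 hj with rfl | hj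
      · exact hg' m n hmn
      · exact hg j hj _ _ (g'.strictMono hmn)
  obtain ⟨g, hg⟩ := key Finset.univ
  exact ⟨g, fun i => hg i (Finset.mem_univ i)⟩

/-- the family of boxes -/
def boxes (Γ : ∀ i, Set (Set (X i))) : Set (Set (∀ i, X i)) :=
  {G | ∃ B : ∀ i, Set (X i), (∀ i, B i ∈ Γ i) ∧ G = Set.pi univ B}

theorem desc_boxes {Γ : ∀ i, Set (Set (X i))} (hN : ∀ i, Noetherian (Γ i))
    (hr : ∀ i, SubinfiniteRank (Γ i)) (x : ∀ i, X i) (G : ℕ → Set (∀ i, X i))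
    (hG : ∀ n, G n ∈ boxes Γ ∧ x ∈ G n) : ∃ m n, m < n ∧ G n ⊆ G m := by
  choose B hB using fun n => (hG n).1
  obtain ⟨g, hg⟩ := desc_subseq_pi hN hr x B (fun n i => ⟨(hB n).1 i, by
    have := (hG n).2
    rw [(hB n).2] at this
    exact this i (mem_univ i)⟩)
  refine ⟨g 0, g 1, g.strictMono zero_lt_one, ?_⟩
  rw [(hB (g 0)).2, (hB (g 1)).2]
  exact pi_mono fun i _ => hg i 0 1 zero_lt_one

theorem boxes_noetherian {Γ : ∀ i, Set (Set (X i))} (hN : ∀ i, Noetherian (Γ i))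
    (hr : ∀ i, SubinfiniteRank (Γ i)) : Noetherian (boxes Γ) := by
  rintro ⟨G, hG, hs⟩
  have hmono : StrictMono G := strictMono_nat_of_lt_succ fun n => hs n
  obtain ⟨x, hx⟩ : (G 1).Nonempty := by
    rw [nonempty_iff_ne_empty]
    intro h
    have h0 := (hs 0).2
    simp only [Nat.zero_add, h] at h0
    exact h0 (empty_subset _)
  obtain ⟨m, n, hmn, hsub⟩ := desc_boxes hN hr x (fun n => G (n + 1)) (fun n =>
    ⟨hG _, hmono.monotone (Nat.succ_le_succ (Nat.zero_le n)) hx⟩)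
  exact (hmono (Nat.succ_lt_succ hmn)).2 hsub

theorem boxes_subinfinite {Γ : ∀ i, Set (Set (X i))} (hN : ∀ i, Noetherian (Γ i))
    (hr : ∀ i, SubinfiniteRank (Γ i)) : SubinfiniteRank (boxes Γ) := by
  rintro A hA hinc ⟨x, hx⟩
  by_contra hinf
  have hinf' : A.Infinite := hinf
  obtain ⟨m, n, hmn, hsub⟩ := desc_boxes hN hr x (fun n => (hinf'.natEmbedding A n : Set (∀ i, X i)))
    (fun n => ⟨hA (hinf'.natEmbedding A n).2, hx _ (hinf'.natEmbedding A n).2⟩)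
  have := hinc _ (hinf'.natEmbedding A n).2 _ (hinf'.natEmbedding A m).2 hsub
  exact hmn.ne' ((hinf'.natEmbedding A).injective (Subtype.ext this))

theorem boxes_base [∀ i, TopologicalSpace (X i)] {Γ : ∀ i, Set (Set (X i))}
    (hB : ∀ i, IsTopologicalBasis (Γ i)) : IsTopologicalBasis (boxes Γ) := by
  refine isTopologicalBasis_of_isOpen_of_nhds ?_ ?_
  · rintro _ ⟨B, hB', rfl⟩
    exact isOpen_set_pi (toFinite _) fun i _ => (hB i).isOpen (hB' i)
  · intro x U hx hU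
    obtain ⟨u, hu, huU⟩ := isOpen_pi_iff'.1 hU x hx
    choose B hB1 hB2 hB3 using fun i => (hB i).exists_subset_of_mem_open (hu i).2 (hu i).1
    exact ⟨Set.pi univ B, ⟨B, hB1, rfl⟩, fun i _ => hB2 i, (pi_mono fun i _ => hB3 i).trans huU⟩

end product

/-- a space which embeds in a space with a Noetherian base of subinfinite rank is metacompact -/
theorem metacompact_of_inducing {X : Type u} {Y : Type v} [TopologicalSpace X]
    [TopologicalSpace Y] {e : Y → X} (he : Topology.IsInducing e) {Γ : Set (Set X)}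
    (hB : IsTopologicalBasis Γ) (hN : Noetherian Γ) (hr : SubinfiniteRank Γ) : Metacompact Y := by
  intro 𝒰 h𝒰 hcov
  set T : Set (Set X) := {B | B ∈ Γ ∧ ∃ U ∈ 𝒰, e ⁻¹' B ⊆ U} with hT
  set M : Set (Set X) := {B | B ∈ T ∧ ∀ B' ∈ T, B ⊆ B' → B' = B} with hM
  refine ⟨(fun B => e ⁻¹' B) '' M, ?_, ?_, ?_, ?_⟩
  · rintro _ ⟨B, hBM, rfl⟩
    exact (hB.isOpen hBM.1.1).preimage he.continuous
  · rintro _ ⟨B, hBM, rfl⟩
    exact hBM.1.2
  · rw [eq_univ_iff_forall]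
    intro y
    have hy : y ∈ ⋃₀ 𝒰 := hcov ▸ mem_univ y
    obtain ⟨U, hU, hyU⟩ := hy
    obtain ⟨O, hO, hOU⟩ := he.isOpen_iff.1 (h𝒰 U hU)
    obtain ⟨B, hBΓ, hyB, hBO⟩ := hB.exists_subset_of_mem_open
      (show e y ∈ O by rw [← hOU] at hyU; exact hyU) hO
    obtain ⟨B', hB', hmax⟩ := hN.exists_maximal (S := {B' | B' ∈ T ∧ B ⊆ B'})
      (fun U hU => hU.1.1) ⟨B, ⟨hBΓ, U, hU, (preimage_mono hBO).trans hOU.subset⟩, subset_rfl⟩
    refine ⟨e ⁻¹' B', ⟨B', ⟨hB'.1, fun B'' hB'' hsub => hmax B'' ⟨hB'', hB'.2.trans hsub⟩ hsub⟩, rfl⟩,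
      hB'.2 hyB⟩
  · intro y
    have hfin : {B | B ∈ M ∧ e y ∈ B}.Finite := by
      refine hr _ (fun B hB => hB.1.1.1) ?_ ⟨e y, fun B hB => hB.2⟩
      intro B hB B' hB' hsub
      exact (hB.1.2 B' hB'.1.1 hsub).symm
    refine (hfin.image (fun B => e ⁻¹' B)).subset ?_
    rintro _ ⟨⟨B, hBM, rfl⟩, hyB⟩
    exact ⟨B, ⟨hBM, hyB⟩, rfl⟩

end Pool.Agent.Helper332.NB
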