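import Pool.Agent.Helper332.NB6

set_option autoImplicit false

namespace Pool.Agent.Helper332.NB

open Set TopologicalSpace

/-- the natural numbers, to be topologised by their initial segments -/
def Seg : Type := ℕ

namespace Seg

/-- initial segments -/
def Low (s : Set Seg) : Prop := ∀ a b : ℕ, b ≤ a → Set.Mem s (a : Seg) → Set.Mem s (b : Seg)

instance top : TopologicalSpace Seg where
  IsOpen s := Low s
  isOpen_univ := fun _ _ _ _ => trivial
  isOpen_inter := fun _ _ hs hu a b hab h => ⟨hs a b hab h.1, hu a b hab h.2⟩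
  isOpen_sUnion := by
    rintro S hS a b hab ⟨s, hs, ha⟩
    exact ⟨s, hs, hS s hs a b hab ha⟩

/-- the open segment up to `n` -/
def seg (n : ℕ) : Set Seg := {a : ℕ | a ≤ n}

theorem mem_seg (n a : ℕ) : Set.Mem (seg n) a ↔ a ≤ n := Iff.rfl

theorem isOpen_seg (n : ℕ) : IsOpen (seg n) := fun a b hab h => by
  rw [mem_seg] at h ⊢
  exact hab.trans h

theorem seg_mono {m n : ℕ} (h : m ≤ n) : seg m ⊆ seg n := fun (a : ℕ) ha => by
  have ha' : a ≤ m := ha
  exact (ha'.trans h : a ≤ n)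

theorem t0 : T0Space Seg := by
  refine ⟨fun (x : ℕ) (y : ℕ) hxy => ?_⟩
  rw [inseparable_iff_forall_isOpen] at hxy
  have h1 : y ≤ x := (hxy (seg x) (isOpen_seg x)).1 (show x ≤ x from le_rfl)
  have h2 : x ≤ y := (hxy (seg y) (isOpen_seg y)).2 (show y ≤ y from le_rfl)
  exact @le_antisymm ℕ _ _ _ h2 h1

theorem base : IsTopologicalBasis (range seg) := by
  refine isTopologicalBasis_of_isOpen_of_nhds ?_ ?_
  · rintro _ ⟨n, rfl⟩
    exact isOpen_seg n
  · intro a u ha hu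
    refine ⟨seg a, ⟨a, rfl⟩, (mem_seg a a).2 le_rfl, fun (b : ℕ) hb => ?_⟩
    exact hu a b hb ha

theorem total (U V : Set Seg) (hU : U ∈ range seg) (hV : V ∈ range seg) : U ⊆ V ∨ V ⊆ U := by
  obtain ⟨m, rfl⟩ := hU
  obtain ⟨n, rfl⟩ := hV
  rcases le_total m n with h | h
  · exact Or.inl (seg_mono h)
  · exact Or.inr (seg_mono h)

theorem rank : PointFiniteRank (range seg) := by
  intro x
  refine ⟨1, fun A hA _ hinc => ?_⟩
  rw [Nat.cast_one, Set.encard_le_one_iff]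
  intro U V hU hV
  rcases total U V (hA hU) (hA hV) with h | h
  · exact hinc U hU V hV h
  · exact (hinc V hV U hU h).symm

/-- the zero of `Seg` -/
def zero : Seg := (0 : ℕ)

theorem zero_mem {u : Set Seg} (hu : IsOpen u) {a : Seg} (ha : a ∈ u) : zero ∈ u :=
  hu a (0 : ℕ) (Nat.zero_le _) ha

/-- the point of the square on the diagonal -/
def diag (n : ℕ) : Fin 2 → Seg := fun _ => n

theorem zero_mem_pi {V : Set (Fin 2 → Seg)} (hV : IsOpen V) {f : Fin 2 → Seg} (hf : f ∈ V) :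
    diag 0 ∈ V := by
  obtain ⟨u, hu, huV⟩ := isOpen_pi_iff'.1 hV f hf
  exact huV fun i _ => zero_mem (hu i).1 (hu i).2

/-- the square is not metacompact -/
theorem not_metacompact : ¬ Metacompact (Fin 2 → Seg) := by
  intro h
  obtain ⟨𝒱, h𝒱o, h𝒱r, h𝒱c, h𝒱f⟩ := h (range fun n : ℕ => Set.pi univ fun _ => seg n) (by
    rintro _ ⟨n, rfl⟩
    exact isOpen_set_pi (toFinite _) fun _ _ => isOpen_seg n) (by
    rw [eq_univ_iff_forall]
    intro f
    refine ⟨_, ⟨max (f 0 : ℕ) (f 1 : ℕ), rfl⟩, ?_⟩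
    intro i _
    fin_cases i
    · exact (mem_seg _ _).2 (le_max_left _ _)
    · exact (mem_seg _ _).2 (le_max_right _ _))
  have hfin := h𝒱f (diag 0)
  have hb : ∀ V ∈ {V ∈ 𝒱 | diag 0 ∈ V}, ∃ n : ℕ, ∀ m : ℕ, diag m ∈ V → m ≤ n := by
    intro V hV
    obtain ⟨_, ⟨n, rfl⟩, hsub⟩ := h𝒱r V hV.1
    exact ⟨n, fun m hm => hsub hm 0 (mem_univ _)⟩
  choose! n hn using hb
  obtain ⟨N, hN⟩ := (hfin.image n).bddAbove
  have : diag (N + 1) ∈ ⋃₀ 𝒱 := h𝒱c ▸ mem_univ _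
  obtain ⟨V, hV, hmV⟩ := this
  have h0 : diag 0 ∈ V := zero_mem_pi (h𝒱o V hV) hmV
  have h1 := hn V ⟨hV, h0⟩ (N + 1) hmV
  have h2 : n V ≤ N := hN ⟨V, ⟨hV, h0⟩, rfl⟩
  omega

end Seg

end Pool.Agent.Helper332.NB
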