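import Mathlib
import Pool.Agent.Helper332.Duality
import Pool.Agent.Helper332.Separate

set_option autoImplicit false

namespace Pool.Agent.Helper332.Torus

open Cardinal

/-- The inclusion of `ℚ/ℤ` into `ℝ/ℤ`. -/
noncomputable def incl : AddCircle (1 : ℚ) →+ UnitAddCircle :=
  QuotientAddGroup.lift (AddSubgroup.zmultiples (1 : ℚ))
    ((QuotientAddGroup.mk' (AddSubgroup.zmultiples (1 : ℝ))).comp (Rat.castHom ℝ).toAddMonoidHom) (by
      rintro x ⟨n, rfl⟩
      rw [AddMonoidHom.mem_ker]
      change ((((n • (1 : ℚ) : ℚ)) : ℝ) : UnitAddCircle) = 0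
      rw [AddCircle.coe_eq_zero_iff]
      exact ⟨n, by simp⟩)

theorem incl_injective : Function.Injective incl := by
  rw [injective_iff_map_eq_zero]
  intro x
  induction x using QuotientAddGroup.induction_on with
  | H q =>
    intro h
    have h' : ((q : ℝ) : UnitAddCircle) = 0 := h
    rw [AddCircle.coe_eq_zero_iff] at h'
    obtain ⟨n, hn⟩ := h'
    have : (n : ℚ) = q := by
      have h2 : ((n : ℚ) : ℝ) = (q : ℝ) := by simpa using hn
      exact_mod_cast h2
    change (q : AddCircle (1 : ℚ)) = 0
    rw [AddCircle.coe_eq_zero_iff]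
    exact ⟨n, by simpa using this⟩

instance : Countable (AddCircle (1 : ℚ)) :=
  (QuotientAddGroup.mk_surjective (s := AddSubgroup.zmultiples (1 : ℚ))).countable

/-- Every closed subgroup of a torus of weight at most the continuum has a countable dense subset
consisting of points all of whose coordinates are rational. -/
theorem exists_dense {A : Type} [Nonempty A] (hA : #A ≤ 𝔠) (M : AddSubgroup (A → UnitAddCircle))
    (hM : IsClosed (M : Set (A → UnitAddCircle))) :
    ∃ D : Set (A → UnitAddCircle), D.Countable ∧ D ⊆ M ∧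
      (M : Set (A → UnitAddCircle)) ⊆ closure D ∧ ∀ d ∈ D, (Set.range d).Countable := by
  classical
  let Y : Submodule ℤ (A →₀ ℤ) :=
    { carrier := {n | ∀ m ∈ M, Finsupp.linearCombination ℤ m n = 0}
      zero_mem' := by simp
      add_mem' := by
        intro a b ha hb m hm
        rw [map_add, ha m hm, hb m hm, add_zero]
      smul_mem' := by
        intro c a ha m hm
        rw [map_smul, ha m hm, smul_zero] }
  have hcard : #((A →₀ ℤ) ⧸ Y) ≤ #ℝ := by
    refine (mk_le_of_surjective (Submodule.Quotient.mk_surjective Y)).trans ?_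
    rw [mk_finsupp_of_infinite', Cardinal.mk_real]
    exact max_le hA (by simpa using Cardinal.aleph0_le_continuum)
  obtain ⟨e⟩ := Cardinal.le_def _ _ |>.mp hcard
  obtain ⟨S, hS, hsep⟩ := Separate.exists_chars ((A →₀ ℤ) ⧸ Y) e
  let m : ((A →₀ ℤ) ⧸ Y →+ AddCircle (1 : ℚ)) → (A → UnitAddCircle) :=
    fun θ a => incl (θ (Submodule.Quotient.mk (Finsupp.single a 1)))
  have hm : ∀ θ n, Finsupp.linearCombination ℤ (m θ) n = incl (θ (Submodule.Quotient.mk n)) := by
    intro θ n
    induction n using Finsupp.induction_linear with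
    | zero => simp
    | add f g hf hg => rw [map_add, hf, hg, Submodule.Quotient.mk_add, map_add, map_add]
    | single a k =>
      rw [Finsupp.linearCombination_single]
      have : (Finsupp.single a k : A →₀ ℤ) = k • Finsupp.single a 1 := by simp
      rw [this, Submodule.Quotient.mk_smul, map_zsmul, map_zsmul]
  have hmM : ∀ θ, m θ ∈ M := by
    intro θ
    refine Duality.duality M hM _ ?_
    intro n hn
    rw [hm]
    have : (Submodule.Quotient.mk n : (A →₀ ℤ) ⧸ Y) = 0 := by
      rw [Submodule.Quotient.mk_eq_zero]
      exact hn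
    rw [this, map_zero, map_zero]
  have : Countable S := hS.to_subtype
  let G : Submodule ℤ (A → UnitAddCircle) := Submodule.span ℤ (Set.range fun θ : S => m θ)
  have hGM : (G : Set (A → UnitAddCircle)) ⊆ M := by
    have : G ≤ AddSubgroup.toIntSubmodule M := by
      rw [Submodule.span_le]
      rintro _ ⟨θ, rfl⟩
      exact hmM θ
    exact this
  refine ⟨G, ?_, hGM, ?_, ?_⟩
  · have : Countable G := by infer_instance
    exact Set.countable_coe_iff.mp this
  · intro x hx
    have hxc : x ∈ G.toAddSubgroup.topologicalClosure := by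
      refine Duality.duality _ (AddSubgroup.isClosed_topologicalClosure _) x ?_
      intro n hn
      have hn' : n ∈ Y := by
        by_contra hnY
        have hne : (Submodule.Quotient.mk n : (A →₀ ℤ) ⧸ Y) ≠ 0 := by
          rw [Ne, Submodule.Quotient.mk_eq_zero]; exact hnY
        obtain ⟨θ, hθ, hθn⟩ := hsep _ hne
        apply hθn
        apply incl_injective
        rw [← hm, map_zero]
        apply hn
        apply AddSubgroup.le_topologicalClosure
        exact Submodule.subset_span ⟨⟨θ, hθ⟩, rfl⟩
      exact hn' x hx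
    exact hxc
  · intro d hd
    have hsub : ∀ d ∈ G, ∀ a, d a ∈ Set.range incl := by
      intro d hd
      induction hd using Submodule.span_induction with
      | mem x hx =>
        obtain ⟨θ, rfl⟩ := hx
        exact fun a => ⟨_, rfl⟩
      | zero => exact fun a => ⟨0, by simp⟩
      | add x y _ _ hx hy =>
        intro a
        obtain ⟨u, hu⟩ := hx a
        obtain ⟨v, hv⟩ := hy a
        exact ⟨u + v, by rw [map_add, hu, hv]; rfl⟩
      | smul k x _ hx =>
        intro a
        obtain ⟨u, hu⟩ := hx a
        exact ⟨k • u, by rw [map_zsmul, hu]; rfl⟩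
    refine (Set.countable_range incl).mono ?_
    rintro _ ⟨a, rfl⟩
    exact hsub d hd a

end Pool.Agent.Helper332.Torus
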