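import Mathlib
import Pool.Agent.Helper332.Torus
import Pool.Agent.Helper332.Selection

set_option autoImplicit false

namespace Pool.Agent.Helper332.RealLine

open Cardinal

/-- The real functions on `I` with countable range. -/
def thin (I : Type) : Submodule ℝ (I → ℝ) where
  carrier := {f | (Set.range f).Countable}
  zero_mem' := by
    refine (Set.countable_singleton (0 : ℝ)).mono ?_
    rintro _ ⟨i, rfl⟩
    rfl
  add_mem' := by
    intro f g hf hg
    refine (Set.Countable.image2 hf hg (fun a b => a + b)).mono ?_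
    rintro _ ⟨i, rfl⟩
    exact ⟨f i, ⟨i, rfl⟩, g i, ⟨i, rfl⟩, rfl⟩
  smul_mem' := by
    intro c f hf
    refine (Set.Countable.image hf (fun a => c * a)).mono ?_
    rintro _ ⟨i, rfl⟩
    exact ⟨f i, ⟨i, rfl⟩, rfl⟩

theorem mem_thin {I : Type} {f : I → ℝ} : f ∈ thin I ↔ (Set.range f).Countable := Iff.rfl

theorem rank_quot {I : Type} [Uncountable I] (r : I ↪ ℝ) :
    #(I → ℝ) ≤ Module.rank ℝ ((I → ℝ) ⧸ thin I) := by
  have hII : #I = #(I × I) := by
    rw [mk_prod, lift_id, mul_eq_self (aleph0_le_mk I)]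
  obtain ⟨φ⟩ := Cardinal.eq.mp hII
  let G : (I → ℝ) →ₗ[ℝ] (I → ℝ) :=
    { toFun := fun g x => g (φ x).1 * r (φ x).2
      map_add' := by intro a b; ext x; simp [add_mul]
      map_smul' := by intro a b; ext x; simp [mul_assoc] }
  have hinj : Function.Injective ((thin I).mkQ ∘ₗ G) := by
    rw [← LinearMap.ker_eq_bot, LinearMap.ker_eq_bot']
    intro g hg
    have hthin : G g ∈ thin I := by simpa using hg
    by_contra hne
    obtain ⟨i, hi⟩ := Function.ne_iff.mp hne
    have hi' : g i ≠ 0 := hi
    have hc : (Set.range (G g)).Countable := hthin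
    have hinj2 : Function.Injective (fun j : I => (⟨g i * r j, ⟨φ.symm (i, j), by simp [G]⟩⟩ :
        Set.range (G g))) := by
      intro j j' hjj
      have h1 : g i * r j = g i * r j' := congrArg Subtype.val hjj
      exact r.injective (mul_left_cancel₀ hi' h1)
    have : Countable (Set.range (G g)) := hc.to_subtype
    exact not_countable (α := I) hinj2.countable
  calc #(I → ℝ) = Module.rank ℝ (I → ℝ) := rank_fun_infinite.symm
    _ ≤ _ := LinearMap.rank_le_of_injective _ hinj

/-- A linear map with prescribed values on a linearly independent family. -/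
theorem exists_linearMap {K V F ι : Type*} [Field K] [AddCommGroup V] [Module K V]
    [AddCommGroup F] [Module K F] {w : ι → V} (hw : LinearIndependent K w) (τ : ι → F) :
    ∃ T : V →ₗ[K] F, ∀ i, T (w i) = τ i := by
  obtain ⟨T, hT⟩ := LinearMap.exists_extend ((Module.Basis.span hw).constr K τ)
  refine ⟨T, fun i => ?_⟩
  have h1 : (Submodule.span K (Set.range w)).subtype (Module.Basis.span hw i) = w i := by
    simp [Module.Basis.span_apply]
  have h2 := LinearMap.congr_fun hT (Module.Basis.span hw i)
  rw [LinearMap.comp_apply, h1, Module.Basis.constr_basis] at h2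
  exact h2

theorem countable_preimage {V W : Type*} [AddCommGroup V] [Module ℚ V] [AddCommGroup W]
    [Module ℚ W] (q : V →ₗ[ℚ] W) (hq : (LinearMap.ker q : Set V).Countable) {S : Set W}
    (hS : S.Countable) : (q ⁻¹' S).Countable := by
  have : q ⁻¹' S = ⋃ s ∈ S, q ⁻¹' {s} := by
    ext x; simp
  rw [this]
  refine hS.biUnion fun s _ => ?_
  by_cases hne : (q ⁻¹' {s}).Nonempty
  · obtain ⟨x₀, hx₀⟩ := hne
    refine (hq.image fun k => x₀ + k).mono ?_
    intro x hx
    refine ⟨x - x₀, ?_, by simp⟩
    have h1 : q x = s := hx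
    have h2 : q x₀ = s := hx₀
    simp [h1, h2]
  · rw [Set.not_nonempty_iff_eq_empty.mp hne]
    exact Set.countable_empty

/-- An uncountable set of points of the circle contains, up to countably many relations, a large
independent set on which homomorphisms into the reals can be prescribed. -/
theorem exists_sigma {I : Type} (hI : #I = ℵ₁) (u : I → UnitAddCircle)
    (hu : ¬ (Set.range u).Countable) :
    ∃ σ : I → I, ∀ g : I → ℝ, ∃ θ : UnitAddCircle →+ ℝ, ∀ i, θ (u (σ i)) = g i := by
  have hsec : ∀ x : UnitAddCircle, ∃ y : ℝ, (y : UnitAddCircle) = x :=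
    fun x => QuotientAddGroup.mk_surjective x
  choose sec hsec using hsec
  let P : Submodule ℚ ℝ := Submodule.span ℚ (Set.range fun _ : Unit => (1 : ℝ))
  have hP : (P : Set ℝ).Countable := by
    have : Countable P := inferInstanceAs (Countable (Submodule.span ℚ (Set.range fun _ : Unit => (1 : ℝ))))
    exact Set.countable_coe_iff.mp this
  let w : I → ℝ ⧸ P := fun i => P.mkQ (sec (u i))
  obtain ⟨κ, a, ha, hspan, hind⟩ := exists_linearIndependent' ℚ w
  have hκ : ¬ Countable κ := by
    intro hc
    apply hu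
    have h1 : Countable (Submodule.span ℚ (Set.range (w ∘ a))) := inferInstance
    rw [hspan] at h1
    have h2 : (Set.range w).Countable :=
      (Set.countable_coe_iff.mp h1).mono Submodule.subset_span
    have h3 : (P.mkQ ⁻¹' (Set.range w)).Countable :=
      countable_preimage P.mkQ (by rw [Submodule.ker_mkQ]; exact hP) h2
    refine (h3.image fun y : ℝ => (y : UnitAddCircle)).mono ?_
    rintro _ ⟨i, rfl⟩
    exact ⟨sec (u i), ⟨i, rfl⟩, hsec _⟩
  have hle : #I ≤ #κ := by
    rw [hI, ← succ_aleph0, Order.succ_le_iff]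
    exact not_le.mp (fun h => hκ (mk_le_aleph0_iff.mp h))
  obtain ⟨ε⟩ := Cardinal.le_def _ _ |>.mp hle
  refine ⟨a ∘ ε, fun g => ?_⟩
  have hind2 : LinearIndependent ℚ (fun i => w (a (ε i))) := hind.comp ε ε.injective
  obtain ⟨T, hT⟩ := exists_linearMap hind2 g
  let θ : UnitAddCircle →+ ℝ := QuotientAddGroup.lift (AddSubgroup.zmultiples (1 : ℝ))
    (T ∘ₗ P.mkQ).toAddMonoidHom (by
      rintro x ⟨n, rfl⟩
      rw [AddMonoidHom.mem_ker]
      change T (P.mkQ (n • (1 : ℝ))) = 0
      have : n • (1 : ℝ) ∈ P := P.smul_of_tower_mem n (Submodule.subset_span ⟨(), rfl⟩)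
      have h0 : P.mkQ (n • (1 : ℝ)) = 0 := by
        rw [Submodule.mkQ_apply, Submodule.Quotient.mk_eq_zero]
        exact this
      rw [h0, map_zero])
  refine ⟨θ, fun i => ?_⟩
  have : θ (u (a (ε i))) = T (P.mkQ (sec (u (a (ε i))))) := by
    conv_lhs => rw [← hsec (u (a (ε i)))]
    rfl
  change θ (u (a (ε i))) = g i
  rw [this]
  exact hT i

end Pool.Agent.Helper332.RealLine
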