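import Mathlib
import Pool.Agent.Helper332.RealLine

set_option autoImplicit false

namespace Pool.Agent.Helper332.RealLine

open Cardinal

/-- One-parameter directions along which a subgroup of the torus is closed. -/
def lie {A : Type} (M : AddSubgroup (A → UnitAddCircle)) : Submodule ℝ (A → ℝ) where
  carrier := {f | ∀ n : A →₀ ℤ, (∀ m ∈ M, Finsupp.linearCombination ℤ m n = 0) →
    Finsupp.linearCombination ℤ f n = 0}
  zero_mem' := by
    intro n _
    rw [Finsupp.linearCombination_apply]
    simp
  add_mem' := by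
    intro f g hf hg n hn
    have h1 := hf n hn
    have h2 := hg n hn
    rw [Finsupp.linearCombination_apply] at h1 h2 ⊢
    have : (n.sum fun a k => k • (f + g) a) = (n.sum fun a k => k • f a) + n.sum fun a k => k • g a := by
      rw [← Finsupp.sum_add]
      simp
    rw [this, h1, h2, add_zero]
  smul_mem' := by
    intro c f hf n hn
    have h1 := hf n hn
    rw [Finsupp.linearCombination_apply] at h1 ⊢
    have : (n.sum fun a k => k • (c • f) a) = c * (n.sum fun a k => k • f a) := by
      rw [Finsupp.sum, Finsupp.sum, Finset.mul_sum]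
      refine Finset.sum_congr rfl fun a _ => ?_
      simp only [Pi.smul_apply, smul_eq_mul, zsmul_eq_mul]
      ring
    rw [this, h1, mul_zero]

/-- Pairing commutes with homomorphisms. -/
theorem linearCombination_comp {A X Y : Type*} [AddCommGroup X] [AddCommGroup Y] (θ : X →+ Y)
    (m : A → X) (n : A →₀ ℤ) :
    Finsupp.linearCombination ℤ (fun a => θ (m a)) n = θ (Finsupp.linearCombination ℤ m n) := by
  induction n using Finsupp.induction_linear with
  | zero => simp
  | add f g hf hg => rw [map_add, hf, hg, map_add, map_add]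
  | single a k => rw [Finsupp.linearCombination_single, Finsupp.linearCombination_single, map_zsmul]

theorem lie_mem {A : Type} (M : AddSubgroup (A → UnitAddCircle))
    (hM : IsClosed (M : Set (A → UnitAddCircle))) {f : A → ℝ} (hf : f ∈ lie M) :
    (fun a => (f a : UnitAddCircle)) ∈ M := by
  refine Duality.duality M hM _ fun n hn => ?_
  have := linearCombination_comp (QuotientAddGroup.mk' (AddSubgroup.zmultiples (1 : ℝ))) f n
  rw [hf n hn, map_zero] at this
  exact this

theorem lie_of_hom {A : Type} (M : AddSubgroup (A → UnitAddCircle)) {m : A → UnitAddCircle}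
    (hm : m ∈ M) (θ : UnitAddCircle →+ ℝ) : (fun a => θ (m a)) ∈ lie M := by
  intro n hn
  rw [linearCombination_comp, hn m hm, map_zero]

/-- A closed subgroup is non-thin if the first half of the coordinates of one of its points takes
uncountably many values. -/
def NonThin {I : Type} (M : AddSubgroup (I ⊕ I → UnitAddCircle)) : Prop :=
  IsClosed (M : Set (I ⊕ I → UnitAddCircle)) ∧
    ∃ m ∈ M, ¬ (Set.range fun i => m (Sum.inl i)).Countable

/-- Restriction to the first half of the coordinates. -/
def pI (I : Type) : (I ⊕ I → ℝ) →ₗ[ℝ] (I → ℝ) := LinearMap.funLeft ℝ ℝ Sum.inl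

theorem rank_lie {I : Type} (hI : #I = ℵ₁) (r : I ↪ ℝ) (M : AddSubgroup (I ⊕ I → UnitAddCircle))
    (hM : NonThin M) :
    #(I → ℝ) ≤ Module.rank ℝ (((lie M).map (pI I)).map (thin I).mkQ) := by
  have hunc : Uncountable I := by
    rw [← aleph0_lt_mk_iff, hI]; exact aleph0_lt_aleph_one
  obtain ⟨_, m, hm, hmr⟩ := hM
  obtain ⟨σ, hσ⟩ := exists_sigma hI (fun i => m (Sum.inl i)) hmr
  let σs : (I → ℝ) →ₗ[ℝ] (I → ℝ) := LinearMap.funLeft ℝ ℝ σ
  have hthin : thin I ≤ (thin I).comap σs := by
    intro f hf
    rw [Submodule.mem_comap, mem_thin]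
    refine Set.Countable.mono ?_ (mem_thin.mp hf)
    rintro _ ⟨i, rfl⟩
    exact ⟨σ i, rfl⟩
  let σq := Submodule.mapQ (thin I) (thin I) σs hthin
  have htop : ((((lie M).map (pI I)).map (thin I).mkQ).map σq) = ⊤ := by
    rw [eq_top_iff]
    rintro x -
    obtain ⟨g, rfl⟩ := Submodule.mkQ_surjective _ x
    obtain ⟨θ, hθ⟩ := hσ g
    refine ⟨(thin I).mkQ (pI I fun a => θ (m a)), ⟨_, ⟨_, lie_of_hom M hm θ, rfl⟩, rfl⟩, ?_⟩
    have h1 : σs (pI I fun a => θ (m a)) = g := by
      ext i
      exact hθ i
    change σq ((thin I).mkQ (pI I fun a => θ (m a))) = (thin I).mkQ g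
    rw [← h1]
    rfl
  calc #(I → ℝ) ≤ Module.rank ℝ ((I → ℝ) ⧸ thin I) := rank_quot r
    _ = Module.rank ℝ (⊤ : Submodule ℝ ((I → ℝ) ⧸ thin I)) := (rank_top ℝ _).symm
    _ = Module.rank ℝ ((((lie M).map (pI I)).map (thin I).mkQ).map σq) := by rw [htop]
    _ ≤ _ := rank_map_le _ _

/-- The number of closed subgroups of the torus. -/
theorem card_nonThin {I : Type} (hI : #I = ℵ₁) :
    #{M : AddSubgroup (I ⊕ I → UnitAddCircle) // NonThin M} ≤ #(I → ℝ) := by
  have hunc : Uncountable I := by
    rw [← aleph0_lt_mk_iff, hI]; exact aleph0_lt_aleph_one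
  let F : {M : AddSubgroup (I ⊕ I → UnitAddCircle) // NonThin M} → Set ((I ⊕ I) →₀ ℤ) :=
    fun M => {n | ∀ m ∈ M.1, Finsupp.linearCombination ℤ m n = 0}
  have hF : Function.Injective F := by
    have key : ∀ M M' : {M : AddSubgroup (I ⊕ I → UnitAddCircle) // NonThin M},
        F M = F M' → M.1 ≤ M'.1 := by
      intro M M' h x hx
      refine Duality.duality M'.1 M'.2.1 x fun n hn => ?_
      have : n ∈ F M := by rw [h]; exact hn
      exact this x hx
    intro M M' h
    exact Subtype.ext (le_antisymm (key M M' h) (key M' M h.symm))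
  have h1 : #((I ⊕ I) →₀ ℤ) = #I := by
    rw [mk_finsupp_of_infinite', mk_sum, lift_id, add_eq_self (aleph0_le_mk I)]
    simp
  calc #{M : AddSubgroup (I ⊕ I → UnitAddCircle) // NonThin M} ≤ #(Set ((I ⊕ I) →₀ ℤ)) :=
        mk_le_of_injective hF
    _ = 2 ^ #I := by rw [mk_set, h1]
    _ ≤ #ℝ ^ #I := by
        refine power_le_power_right ?_
        rw [mk_real]
        exact (nat_lt_continuum 2).le
    _ = #(I → ℝ) := by rw [← power_def]

end Pool.Agent.Helper332.RealLine
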