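import Mathlib
import Pool.Agent.Helper332.RealLine2

set_option autoImplicit false

namespace Pool.Agent.Helper332.RealLine

open Cardinal

/-- A doubly indexed rationally independent family of reals, each row tending to zero. -/
theorem exists_null_family : ∃ c : ℕ × ℕ → ℝ, LinearIndependent ℚ c ∧
    ∀ p, |c p| ≤ 1 / ((p.2 : ℝ) + 1) := by
  have hb : ℵ₀ ≤ #(Module.Basis.ofVectorSpaceIndex ℚ ℝ) := by
    rw [(Module.Basis.ofVectorSpace ℚ ℝ).mk_eq_rank'', Real.rank_rat_real]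
    exact aleph0_le_continuum
  have hinf : Infinite (Module.Basis.ofVectorSpaceIndex ℚ ℝ) := infinite_iff.mpr hb
  have hle : #(ℕ × ℕ) ≤ #(Module.Basis.ofVectorSpaceIndex ℚ ℝ) := by
    rw [mk_denumerable]
    exact hb
  obtain ⟨ε⟩ := Cardinal.le_def _ _ |>.mp hle
  let w : ℕ × ℕ → ℝ := fun p => Module.Basis.ofVectorSpace ℚ ℝ (ε p)
  have hw : LinearIndependent ℚ w :=
    (Module.Basis.ofVectorSpace ℚ ℝ).linearIndependent.comp ε ε.injective
  have hpos : ∀ p : ℕ × ℕ, (0 : ℚ) < 1 / (((p.2 : ℚ) + 1) * ((⌈|w p|⌉₊ : ℚ) + 1)) := by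
    intro p; positivity
  let s : ℕ × ℕ → ℚˣ := fun p => Units.mk0 _ (hpos p).ne'
  refine ⟨s • w, hw.units_smul s, ?_⟩
  intro p
  have h1 : (s • w) p = ((1 / (((p.2 : ℚ) + 1) * ((⌈|w p|⌉₊ : ℚ) + 1)) : ℚ) : ℝ) * w p := by
    simp only [Pi.smul_apply', Units.smul_def, s, Units.val_mk0, Rat.smul_def]
  rw [h1, abs_mul]
  have h2 : |((1 / (((p.2 : ℚ) + 1) * ((⌈|w p|⌉₊ : ℚ) + 1)) : ℚ) : ℝ)|
      = 1 / (((p.2 : ℝ) + 1) * ((⌈|w p|⌉₊ : ℝ) + 1)) := by
    rw [abs_of_pos (by exact_mod_cast hpos p)]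
    push_cast
    ring
  rw [h2]
  have h3 : |w p| ≤ (⌈|w p|⌉₊ : ℝ) + 1 := (Nat.le_ceil _).trans (by linarith)
  have h4 : (0 : ℝ) < (⌈|w p|⌉₊ : ℝ) + 1 := by positivity
  have h5 : (0 : ℝ) < (p.2 : ℝ) + 1 := by positivity
  rw [div_mul_eq_mul_div, one_mul, div_le_div_iff₀ (by positivity) h5]
  nlinarith

/-- A rationally linear map from the reals to a large power of the reals whose graph is not
separable. -/
theorem exists_g {I : Type} (hI : #I = ℵ₁) : ∃ g : ℝ →ₗ[ℚ] (I → ℝ),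
    (∀ t, {i | g t i ≠ 0}.Countable) ∧ ∀ i, ∃ t, ((g t i : ℝ) : UnitAddCircle) ≠ 0 := by
  have hb : #I ≤ #(Module.Basis.ofVectorSpaceIndex ℚ ℝ) := by
    rw [(Module.Basis.ofVectorSpace ℚ ℝ).mk_eq_rank'', Real.rank_rat_real, hI]
    exact aleph_one_le_continuum
  obtain ⟨ε⟩ := Cardinal.le_def _ _ |>.mp hb
  let b := Module.Basis.ofVectorSpace ℚ ℝ
  let g : ℝ →ₗ[ℚ] (I → ℝ) :=
    { toFun := fun t i => ((b.repr t (ε i) : ℚ) : ℝ)
      map_add' := by intro x y; ext i; simp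
      map_smul' := by
        intro c x; ext i
        change ((b.repr (c • x) (ε i) : ℚ) : ℝ) = c • ((b.repr x (ε i) : ℚ) : ℝ)
        rw [map_smul, Finsupp.smul_apply, smul_eq_mul, Rat.cast_mul, Rat.smul_def] }
  refine ⟨g, fun t => ?_, fun i => ?_⟩
  · have h1 : {i | g t i ≠ 0} ⊆ ε ⁻¹' ((b.repr t).support : Set _) := by
      intro i hi
      have hi' : ((b.repr t (ε i) : ℚ) : ℝ) ≠ 0 := hi
      simpa using hi'
    exact ((b.repr t).support.finite_toSet.countable.preimage ε.injective).mono h1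
  · refine ⟨(1 / 2 : ℚ) • b (ε i), ?_⟩
    have h1 : g ((1 / 2 : ℚ) • b (ε i)) i = 1 / 2 := by
      change ((b.repr ((1 / 2 : ℚ) • b (ε i)) (ε i) : ℚ) : ℝ) = 1 / 2
      simp
    rw [h1, Ne, AddCircle.coe_eq_zero_iff]
    rintro ⟨n, hn⟩
    have h2 : (n : ℝ) = 1 / 2 := by simpa using hn
    have h3 : (2 * n : ℤ) = 1 := by
      have : (2 * (n : ℝ)) = 1 := by rw [h2]; norm_num
      exact_mod_cast this
    omega

/-- The main construction. -/
theorem exists_h {I : Type} (hI : #I = ℵ₁) :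
    ∃ (r : I → ℝ) (h : (I → ℝ) →ₗ[ℚ] (I → ℝ)),
      (∀ f ∈ thin I, h f = 0) ∧
      (∀ t : ℝ, {i | h (t • r) i ≠ 0}.Countable) ∧
      (∀ i, ∃ t : ℝ, ((h (t • r) i : ℝ) : UnitAddCircle) ≠ 0) ∧
      ∀ M : AddSubgroup (I ⊕ I → UnitAddCircle), NonThin M →
        ∃ D : Set (I ⊕ I → UnitAddCircle), D.Countable ∧ D ⊆ M ∧
          (M : Set (I ⊕ I → UnitAddCircle)) ⊆ closure D ∧
          ∀ d ∈ D, ∃ f : I → ℝ, d = Sum.elim (fun i => (f i : UnitAddCircle))
            (fun i => (h f i : UnitAddCircle)) := by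
  classical
  have hunc : Uncountable I := by
    rw [← aleph0_lt_mk_iff, hI]; exact aleph0_lt_aleph_one
  have hIc : #I ≤ 𝔠 := by rw [hI]; exact aleph_one_le_continuum
  have hIr : #I ≤ #ℝ := by rw [mk_real]; exact hIc
  obtain ⟨r⟩ := Cardinal.le_def _ _ |>.mp hIr
  obtain ⟨g, hg1, hg2⟩ := exists_g hI
  obtain ⟨c, hcind, hcnull⟩ := exists_null_family
  have hA : #(I ⊕ I) ≤ 𝔠 := by
    rw [mk_sum, lift_id, add_eq_self (aleph0_le_mk I)]; exact hIc
  -- the quotient by thin functions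
  let q₁ : (I → ℝ) →ₗ[ℝ] ((I → ℝ) ⧸ thin I) := (thin I).mkQ
  have hr : q₁ r ≠ 0 := by
    intro h0
    have h1 : (r : I → ℝ) ∈ thin I := by simpa [q₁] using h0
    have h2 : Countable (Set.range r) := (mem_thin.mp h1).to_subtype
    have h3 : Countable I := (Set.rangeFactorization_injective.mpr r.injective).countable
    exact not_countable (α := I) h3
  -- a functional detecting r
  obtain ⟨ρ, hρ⟩ : ∃ ρ : ((I → ℝ) ⧸ thin I) →ₗ[ℝ] ℝ, ρ (q₁ r) = 1 := by
    have : ∃ ρ : ((I → ℝ) ⧸ thin I) →ₗ[ℝ] ℝ, ρ (q₁ r) ≠ 0 := by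
      by_contra hcon
      push Not at hcon
      exact hr ((Module.forall_dual_apply_eq_zero_iff ℝ _).mp hcon)
    obtain ⟨ρ, hρ⟩ := this
    exact ⟨(ρ (q₁ r))⁻¹ • ρ, by simp [hρ]⟩
  let L : Submodule ℝ ((I → ℝ) ⧸ thin I) := Submodule.span ℝ {q₁ r}
  have hinf : ℵ₀ ≤ #(I → ℝ) := by
    have : Infinite (I → ℝ) := Pi.infinite_of_right
    exact aleph0_le_mk _
  have hL : Module.rank ℝ L < #(I → ℝ) := by
    refine lt_of_le_of_lt (rank_span_le _) ?_
    rw [mk_singleton]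
    exact one_lt_aleph0.trans_le hinf
  obtain ⟨v, hv, hvind⟩ := Selection.exists_selection (#(I → ℝ)) hinf (card_nonThin hI) L hL
    (fun _ : {M : AddSubgroup (I ⊕ I → UnitAddCircle) // NonThin M} => 0)
    (fun M => ((lie M.1).map (pI I)).map (thin I).mkQ)
    (fun M => rank_lie hI r M.1 M.2)
  have hF : ∀ M : {M : AddSubgroup (I ⊕ I → UnitAddCircle) // NonThin M},
      ∃ F ∈ lie M.1, q₁ (pI I F) = v M := by
    intro M
    have := hv M
    rw [sub_zero] at this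
    obtain ⟨_, ⟨F, hF, rfl⟩, h2⟩ := this
    exact ⟨F, hF, h2⟩
  choose F hFl hFv using hF
  -- dense sequences
  have hδ : ∀ M : {M : AddSubgroup (I ⊕ I → UnitAddCircle) // NonThin M},
      ∃ δ : ℕ → (I ⊕ I → UnitAddCircle), (∀ k, δ k ∈ M.1) ∧
        ((M.1 : Set (I ⊕ I → UnitAddCircle)) ⊆ closure (Set.range δ)) ∧
        ∀ k, (Set.range (δ k)).Countable := by
    intro M
    obtain ⟨D, hD, hDM, hMD, hDr⟩ := Torus.exists_dense hA M.1 M.2.1
    have hne : D.Nonempty := by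
      rw [← closure_nonempty_iff]
      exact ⟨0, hMD M.1.zero_mem⟩
    obtain ⟨δ, rfl⟩ := hD.exists_eq_range hne
    exact ⟨δ, fun k => hDM ⟨k, rfl⟩, hMD, fun k => hDr _ ⟨k, rfl⟩⟩
  choose δ hδM hδd hδr using hδ
  have hsec : ∀ x : UnitAddCircle, ∃ y : ℝ, (y : UnitAddCircle) = x :=
    fun x => QuotientAddGroup.mk_surjective x
  choose sec hsec using hsec
  -- the rationally independent family
  have hind : LinearIndependent ℚ
      (fun p : (ℕ × ℕ) × {M : AddSubgroup (I ⊕ I → UnitAddCircle) // NonThin M} =>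
        c p.1 • L.mkQ (v p.2)) := linearIndependent_smul hcind hvind
  obtain ⟨h', hh'⟩ := exists_linearMap hind (fun p i =>
    sec (δ p.2 p.1.1 (Sum.inr i)) + c p.1 * F p.2 (Sum.inr i) - g (ρ (c p.1 • v p.2)) i)
  let h : (I → ℝ) →ₗ[ℚ] (I → ℝ) :=
    g ∘ₗ (ρ.restrictScalars ℚ) ∘ₗ (q₁.restrictScalars ℚ)
      + h' ∘ₗ (L.mkQ.restrictScalars ℚ) ∘ₗ (q₁.restrictScalars ℚ)
  have hh : ∀ f, h f = g (ρ (q₁ f)) + h' (L.mkQ (q₁ f)) := fun f => rfl
  have hthin : ∀ f ∈ thin I, h f = 0 := by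
    intro f hf
    have : q₁ f = 0 := by simpa [q₁] using hf
    rw [hh, this]
    simp
  have hline : ∀ t : ℝ, h (t • (r : I → ℝ)) = g t := by
    intro t
    have h1 : q₁ (t • (r : I → ℝ)) = t • q₁ r := map_smul _ _ _
    have h2 : L.mkQ (t • q₁ r) = 0 := by
      rw [Submodule.mkQ_apply, Submodule.Quotient.mk_eq_zero]
      exact L.smul_mem _ (Submodule.mem_span_singleton_self _)
    rw [hh, h1, h2, map_smul, hρ]
    simp
  refine ⟨r, h, hthin, fun t => ?_, fun i => ?_, fun M hM => ?_⟩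
  · rw [hline]; exact hg1 t
  · obtain ⟨t, ht⟩ := hg2 i
    exact ⟨t, by rw [hline]; exact ht⟩
  · let M' : {M : AddSubgroup (I ⊕ I → UnitAddCircle) // NonThin M} := ⟨M, hM⟩
    let s : ℕ × ℕ → (I ⊕ I → UnitAddCircle) := fun p a =>
      δ M' p.1 a + ((c p * F M' a : ℝ) : UnitAddCircle)
    refine ⟨Set.range s, Set.countable_range s, ?_, ?_, ?_⟩
    · rintro _ ⟨p, rfl⟩
      have h1 : (fun a => (((c p • F M') a : ℝ) : UnitAddCircle)) ∈ M :=
        lie_mem M hM.1 ((lie M).smul_mem (c p) (hFl M'))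
      exact M.add_mem (hδM M' p.1) h1
    · refine (hδd M').trans (closure_minimal ?_ isClosed_closure)
      rintro _ ⟨k, rfl⟩
      refine mem_closure_of_tendsto (f := fun l : ℕ => s (k, l)) (b := Filter.atTop) ?_
        (Filter.Eventually.of_forall fun l => ⟨(k, l), rfl⟩)
      rw [tendsto_pi_nhds]
      intro a
      have h1 : Filter.Tendsto (fun l : ℕ => c (k, l)) Filter.atTop (nhds 0) := by
        refine squeeze_zero_norm (a := fun l : ℕ => 1 / ((l : ℝ) + 1)) (fun l => ?_)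
          tendsto_one_div_add_atTop_nhds_zero_nat
        rw [Real.norm_eq_abs]
        exact hcnull (k, l)
      have h2 : Filter.Tendsto (fun l : ℕ => c (k, l) * F M' a) Filter.atTop (nhds 0) := by
        simpa using h1.mul_const (F M' a)
      have h3 : Filter.Tendsto (fun l : ℕ => ((c (k, l) * F M' a : ℝ) : UnitAddCircle))
          Filter.atTop (nhds ((0 : ℝ) : UnitAddCircle)) :=
        ((AddCircle.continuous_mk' 1).tendsto 0).comp h2
      have h4 := h3.const_add (δ M' k a)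
      simpa [s] using h4
    · rintro _ ⟨p, rfl⟩
      let f₀ : I → ℝ := fun i => sec (δ M' p.1 (Sum.inl i))
      have hf₀ : f₀ ∈ thin I := by
        rw [mem_thin]
        refine ((hδr M' p.1).image sec).mono ?_
        rintro _ ⟨i, rfl⟩
        exact ⟨_, ⟨Sum.inl i, rfl⟩, rfl⟩
      refine ⟨f₀ + c p • pI I (F M'), ?_⟩
      have h1 : h (f₀ + c p • pI I (F M')) = fun i =>
          sec (δ M' p.1 (Sum.inr i)) + c p * F M' (Sum.inr i) := by
        rw [map_add, hthin f₀ hf₀, zero_add, hh]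
        have h2 : q₁ (c p • pI I (F M')) = c p • v M' := by
          rw [map_smul, hFv]
        rw [h2, map_smul L.mkQ]
        have h3 := hh' (p, M')
        rw [h3]
        ext i
        simp
      rw [h1]
      ext a
      rcases a with i | i
      · simp [s, f₀, hsec, pI, LinearMap.funLeft_apply]
      · simp [s, hsec]

end Pool.Agent.Helper332.RealLine
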