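import Mathlib
import Pool.Agent.Helper332.RealLine3

set_option autoImplicit false

namespace Pool.Agent.Helper332.RealLine

open Cardinal TopologicalSpace

theorem separable_of_inducing {X Y : Type*} [TopologicalSpace X] [TopologicalSpace Y] (j : Y → X)
    (hj : Topology.IsInducing j) (hinj : Function.Injective j) (D : Set X) (hD : D.Countable)
    (h1 : D ⊆ Set.range j) (h2 : Set.range j ⊆ closure D) : SeparableSpace Y := by
  refine ⟨⟨j ⁻¹' D, hD.preimage hinj, ?_⟩⟩
  rw [hj.dense_iff]
  intro x
  rw [Set.image_preimage_eq_of_subset h1]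
  exact h2 ⟨x, rfl⟩

/-- The real line is not S-separable: there is a Hausdorff abelian topological group all of whose
closed subgroups are separable, whose product with the real line has a closed subgroup that is not
separable. -/
theorem real_not_S_separable :
    ∃ (H : Type) (_ : AddCommGroup H) (_ : TopologicalSpace H),
      IsTopologicalAddGroup H ∧ T2Space H ∧
      (∀ K : AddSubgroup H, IsClosed (K : Set H) → SeparableSpace K) ∧
      ∃ L : AddSubgroup (ℝ × H), IsClosed (L : Set (ℝ × H)) ∧ ¬ SeparableSpace L := by
  classical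
  let I : Type := (ℵ₁ : Cardinal.{0}).out
  have hI : #I = ℵ₁ := mk_out _
  have hunc : Uncountable I := by
    rw [← aleph0_lt_mk_iff, hI]; exact aleph0_lt_aleph_one
  have hIc : #I ≤ 𝔠 := by rw [hI]; exact aleph_one_le_continuum
  have hA : #(I ⊕ I) ≤ 𝔠 := by
    rw [mk_sum, lift_id, add_eq_self (aleph0_le_mk I)]; exact hIc
  obtain ⟨r, h, hthin, hcount, hne, hdense⟩ := exists_h hI
  have hsec : ∀ x : UnitAddCircle, ∃ y : ℝ, (y : UnitAddCircle) = x :=
    fun x => QuotientAddGroup.mk_surjective x
  choose sec hsec using hsec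
  -- a function whose reduction has countable range is thin
  have hthin' : ∀ f : I → ℝ, (Set.range fun i => (f i : UnitAddCircle)).Countable → f ∈ thin I := by
    intro f hf
    rw [mem_thin]
    refine (Set.Countable.image2 hf (Set.countable_univ (α := ℤ))
      (fun x n => sec x + (n : ℝ))).mono ?_
    rintro _ ⟨i, rfl⟩
    have h0 : ((f i - sec (f i : UnitAddCircle) : ℝ) : UnitAddCircle) = 0 := by
      rw [AddCircle.coe_sub, hsec, sub_self]
    rw [AddCircle.coe_eq_zero_iff] at h0
    obtain ⟨n, hn⟩ := h0
    refine ⟨(f i : UnitAddCircle), ⟨i, rfl⟩, n, trivial, ?_⟩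
    have : (n : ℝ) = f i - sec (f i : UnitAddCircle) := by simpa using hn
    simp [this]
  let Φ : (I → ℝ) →+ (I ⊕ I → UnitAddCircle) :=
    { toFun := fun f => Sum.elim (fun i => (f i : UnitAddCircle)) (fun i => (h f i : UnitAddCircle))
      map_zero' := by
        ext a
        rcases a with i | i
        · simp
        · simp
      map_add' := by
        intro f g
        ext a
        rcases a with i | i
        · simp
        · simp }
  have hΦl : ∀ f i, Φ f (Sum.inl i) = (f i : UnitAddCircle) := fun f i => rfl
  have hΦr : ∀ f i, Φ f (Sum.inr i) = (h f i : UnitAddCircle) := fun f i => rfl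
  let H : AddSubgroup (I ⊕ I → UnitAddCircle) := Φ.range
  refine ⟨H, inferInstance, inferInstance, inferInstance, inferInstance, ?_, ?_⟩
  · -- all closed subgroups are separable
    intro K hK
    let K' : AddSubgroup (I ⊕ I → UnitAddCircle) := K.map H.subtype
    let M : AddSubgroup (I ⊕ I → UnitAddCircle) := K'.topologicalClosure
    have hMc : IsClosed (M : Set (I ⊕ I → UnitAddCircle)) := K'.isClosed_topologicalClosure
    have hK'M : (K' : Set (I ⊕ I → UnitAddCircle)) ⊆ M := K'.le_topologicalClosure
    have hmem : ∀ x ∈ M, x ∈ H → x ∈ K' := by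
      intro x hxM hxH
      have h1 : (⟨x, hxH⟩ : H) ∈ closure (K : Set H) := by
        rw [Topology.IsInducing.subtypeVal.closure_eq_preimage_closure_image]
        exact hxM
      rw [hK.closure_eq] at h1
      exact ⟨⟨x, hxH⟩, h1, rfl⟩
    have key : ∃ D : Set (I ⊕ I → UnitAddCircle), D.Countable ∧ D ⊆ K' ∧
        (M : Set (I ⊕ I → UnitAddCircle)) ⊆ closure D := by
      by_cases hM : NonThin M
      · obtain ⟨D, hD, hDM, hMD, hDf⟩ := hdense M hM
        refine ⟨D, hD, fun d hd => hmem d (hDM hd) ?_, hMD⟩
        obtain ⟨f, rfl⟩ := hDf d hd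
        exact ⟨f, rfl⟩
      · have hcr : ∀ m ∈ M, (Set.range fun i => m (Sum.inl i)).Countable := by
          by_contra hcon
          push Not at hcon
          exact hM ⟨hMc, hcon⟩
        have hK'0 : ∀ x ∈ K', ∀ i, x (Sum.inr i) = 0 := by
          intro x hx i
          obtain ⟨⟨_, f, rfl⟩, hy, rfl⟩ := hx
          have h1 : f ∈ thin I := hthin' f (hcr _ (hK'M ⟨_, hy, rfl⟩))
          change Φ f (Sum.inr i) = 0
          rw [hΦr, hthin f h1]
          simp
        have hM0 : ∀ x ∈ M, ∀ i, x (Sum.inr i) = 0 := by
          intro x hx i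
          have hcl : IsClosed {x : I ⊕ I → UnitAddCircle | x (Sum.inr i) = 0} :=
            isClosed_eq (continuous_apply _) continuous_const
          exact closure_minimal (fun y hy => hK'0 y hy i) hcl hx
        have hMH : ∀ x ∈ M, x ∈ H := by
          intro x hx
          refine ⟨fun i => sec (x (Sum.inl i)), ?_⟩
          have h1 : (fun i => sec (x (Sum.inl i))) ∈ thin I := by
            rw [mem_thin]
            refine ((hcr x hx).image sec).mono ?_
            rintro _ ⟨i, rfl⟩
            exact ⟨_, ⟨i, rfl⟩, rfl⟩
          ext a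
          rcases a with i | i
          · rw [hΦl, hsec]
          · rw [hΦr, hthin _ h1, hM0 x hx i]
            simp
        obtain ⟨D, hD, hDM, hMD, -⟩ := Torus.exists_dense hA M hMc
        exact ⟨D, hD, fun d hd => hmem d (hDM hd) (hMH d (hDM hd)), hMD⟩
    obtain ⟨D, hD, hDK, hMD⟩ := key
    refine separable_of_inducing (fun k : K => ((k : H) : I ⊕ I → UnitAddCircle))
      (Topology.IsInducing.subtypeVal.comp Topology.IsInducing.subtypeVal)
      (Subtype.val_injective.comp Subtype.val_injective) D hD ?_ ?_
    · intro d hd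
      obtain ⟨y, hy, rfl⟩ := hDK hd
      exact ⟨⟨y, hy⟩, rfl⟩
    · rintro _ ⟨k, rfl⟩
      exact hMD (hK'M ⟨k, k.2, rfl⟩)
  · -- the closed nonseparable subgroup
    let L : AddSubgroup (ℝ × H) :=
      { carrier := {x | ∀ i, (x.2 : I ⊕ I → UnitAddCircle) (Sum.inl i)
          = ((x.1 * r i : ℝ) : UnitAddCircle)}
        zero_mem' := by intro i; simp
        add_mem' := by
          intro x y hx hy i
          have h1 := hx i
          have h2 := hy i
          simp only [Prod.snd_add, Prod.fst_add, AddSubgroup.coe_add, Pi.add_apply, h1, h2]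
          rw [add_mul, AddCircle.coe_add]
        neg_mem' := by
          intro x hx i
          have h1 := hx i
          simp only [Prod.snd_neg, Prod.fst_neg, AddSubgroup.coe_neg, Pi.neg_apply, h1]
          rw [neg_mul, AddCircle.coe_neg] }
    refine ⟨L, ?_, ?_⟩
    · have : (L : Set (ℝ × H)) = ⋂ i, {x : ℝ × H | (x.2 : I ⊕ I → UnitAddCircle) (Sum.inl i)
          = ((x.1 * r i : ℝ) : UnitAddCircle)} := by
        ext x
        simp only [Set.mem_iInter]
        rfl
      rw [this]
      refine isClosed_iInter fun i => isClosed_eq ?_ ?_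
      · exact (continuous_apply _).comp (continuous_subtype_val.comp continuous_snd)
      · exact (AddCircle.continuous_mk' 1).comp (continuous_fst.mul continuous_const)
    · intro hsep
      have hval : ∀ x ∈ L, ∀ i, (x.2 : I ⊕ I → UnitAddCircle) (Sum.inr i)
          = (h (x.1 • r) i : UnitAddCircle) := by
        rintro ⟨t, ⟨_, f, rfl⟩⟩ hx i
        have h1 : f - t • r ∈ thin I := by
          apply hthin'
          refine (Set.countable_singleton (0 : UnitAddCircle)).mono ?_
          rintro _ ⟨i, rfl⟩
          have h2 : (f i : UnitAddCircle) = ((t * r i : ℝ) : UnitAddCircle) := hx i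
          simp only [Pi.sub_apply, Pi.smul_apply, smul_eq_mul, AddCircle.coe_sub, h2, sub_self,
            Set.mem_singleton_iff]
        have h3 : h f = h (t • r) := by
          have h4 := hthin _ h1
          rw [map_sub, sub_eq_zero] at h4
          exact h4
        change Φ f (Sum.inr i) = _
        rw [hΦr, h3]
      obtain ⟨D, hD, hDd⟩ := exists_countable_dense L
      have hT : (⋃ x ∈ D, {i | h (((x : L) : ℝ × H).1 • r) i ≠ 0}).Countable :=
        hD.biUnion fun x _ => hcount _
      obtain ⟨i, hi⟩ : ∃ i, i ∉ (⋃ x ∈ D, {i | h (((x : L) : ℝ × H).1 • r) i ≠ 0}) := by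
        by_contra hcon
        push Not at hcon
        have : (Set.univ : Set I).Countable := hT.mono fun i _ => hcon i
        exact not_countable (α := I) (Set.countable_univ_iff.mp this)
      have hcl : IsClosed {x : L | (((x : L) : ℝ × H).2 : I ⊕ I → UnitAddCircle) (Sum.inr i) = 0} := by
        refine isClosed_eq ?_ continuous_const
        exact (continuous_apply _).comp (continuous_subtype_val.comp
          (continuous_snd.comp continuous_subtype_val))
      have hall : ∀ x : L, (((x : L) : ℝ × H).2 : I ⊕ I → UnitAddCircle) (Sum.inr i) = 0 := by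
        intro x
        refine closure_minimal (fun y hy => ?_) hcl (hDd x)
        change (((y : L) : ℝ × H).2 : I ⊕ I → UnitAddCircle) (Sum.inr i) = 0
        rw [hval y y.2 i]
        have h5 : h (((y : L) : ℝ × H).1 • r) i = 0 := by
          by_contra h6
          exact hi (Set.mem_biUnion hy h6)
        rw [h5]
        simp
      obtain ⟨t, ht⟩ := hne i
      apply ht
      have hmem : ((t, ⟨Φ (t • r), t • r, rfl⟩) : ℝ × H) ∈ L := fun i => rfl
      exact hall ⟨_, hmem⟩

end Pool.Agent.Helper332.RealLine
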