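import Mathlib
import Pool.Agent.Helper332.RealLine4

set_option autoImplicit false

namespace Pool.Agent.Helper332.RealLine

open TopologicalSpace

/-- Multiplicative form of `real_not_S_separable`. -/
theorem real_not_S_separable_mul :
    ∃ (H : Type) (_ : Group H) (_ : TopologicalSpace H),
      IsTopologicalGroup H ∧ T2Space H ∧
      (∀ K : Subgroup H, IsClosed (K : Set H) → SeparableSpace K) ∧
      ∃ L : Subgroup (Multiplicative ℝ × H), IsClosed (L : Set (Multiplicative ℝ × H)) ∧
        ¬ SeparableSpace L := by
  obtain ⟨H, iH, tH, htg, ht2, hCS, L, hLc, hLs⟩ := real_not_S_separable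
  have hT2H : T2Space (Multiplicative H) := ht2
  have hCS' : ∀ K : Subgroup (Multiplicative H), IsClosed (K : Set (Multiplicative H)) →
      SeparableSpace K := by
    intro K hK
    let K₀ : AddSubgroup H :=
      { carrier := {x | Multiplicative.ofAdd x ∈ K}
        zero_mem' := K.one_mem
        add_mem' := fun ha hb => K.mul_mem ha hb
        neg_mem' := fun ha => K.inv_mem ha }
    have hK₀ : IsClosed (K₀ : Set H) := hK.preimage continuous_ofAdd
    have hs := hCS K₀ hK₀
    let f : K₀ → K := fun x => ⟨Multiplicative.ofAdd (x : H), x.2⟩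
    have hf : Continuous f := Continuous.subtype_mk (continuous_ofAdd.comp continuous_subtype_val) _
    have hfs : Function.Surjective f :=
      fun y => ⟨⟨Multiplicative.toAdd (y : Multiplicative H), y.2⟩, rfl⟩
    exact hfs.denseRange.separableSpace hf
  let L' : Subgroup (Multiplicative ℝ × Multiplicative H) :=
    { carrier := {x | ((Multiplicative.toAdd x.1, Multiplicative.toAdd x.2) : ℝ × H) ∈ L}
      one_mem' := L.zero_mem
      mul_mem' := fun ha hb => L.add_mem ha hb
      inv_mem' := fun ha => L.neg_mem ha }
  have hj : Continuous (fun x : Multiplicative ℝ × Multiplicative H =>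
      ((Multiplicative.toAdd x.1, Multiplicative.toAdd x.2) : ℝ × H)) :=
    (continuous_toAdd.comp continuous_fst).prodMk (continuous_toAdd.comp continuous_snd)
  have hL' : IsClosed (L' : Set (Multiplicative ℝ × Multiplicative H)) := hLc.preimage hj
  refine ⟨Multiplicative H, inferInstance, inferInstance, inferInstance, hT2H, hCS', L', hL', ?_⟩
  intro hs
  apply hLs
  let f : L' → L := fun x => ⟨_, x.2⟩
  have hf : Continuous f := Continuous.subtype_mk (hj.comp continuous_subtype_val) _
  have hfs : Function.Surjective f := by
    rintro ⟨⟨a, b⟩, hab⟩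
    exact ⟨⟨(Multiplicative.ofAdd a, Multiplicative.ofAdd b), hab⟩, rfl⟩
  exact hfs.denseRange.separableSpace hf

end Pool.Agent.Helper332.RealLine
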